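import Pool.Agent.TMX.Stmts2

/-!
# Squad TMX, third list (MP_b61ad0_an): a general sharp reduction

`P` = the good peaks of `M` (`M = g` there and `M` has a local maximum).  Between two consecutive good peaks all
local maxima of `M` are BAD (`M > g`).  If every such gap satisfies the three inequalities `GapOK`, the sharp inequality
`(N+1) var M 0 N ≤ N var g 0 N` holds (`g ≥ 0` with minimum `0`).  Corollaries (assembly, helper83):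
(A) all `g` if `N ≤ 9` (paths with at most `10` vertices), (B) all `g` whose superlevel sets have at most two components.
-/

namespace Pool.Agent.TMX

open Finset
open Pool.Agent.Helper51_Max (I IsMax)
open Pool.Agent.Helper37_EM (var)

/-- `p` is a good peak: `M p = g p` and `M` has its maximum over an interval `[a, b] ∋ p`, with smaller values of `M`
at `a` and `b` (unless they are the ends of the path), at `p` -/
def Pk (N : ℕ) (g M : ℕ → ℝ) (p : ℕ) : Prop :=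
  p ≤ N ∧ M p ≤ g p ∧ ∃ a b, a ≤ p ∧ p ≤ b ∧ b ≤ N ∧ (a = 0 ∨ M a < M p) ∧ (b = N ∨ M b < M p) ∧
    ∀ v, a ≤ v → v ≤ b → M v ≤ M p

/-- consecutive good peaks -/
structure Gap (N : ℕ) (g M : ℕ → ℝ) (p p' : ℕ) : Prop where
  left : Pk N g M p
  right : Pk N g M p'
  lt : p < p'
  none : ∀ v, p < v → v < p' → ¬ Pk N g M v

/-- half of the drop of `M` inside the gap -/
noncomputable def Qv (g M : ℕ → ℝ) (p p' : ℕ) : ℝ := (g p + g p' - var M p p') / 2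

/-- the three inequalities of a gap -/
structure GapOK (N : ℕ) (g M : ℕ → ℝ) (p p' : ℕ) : Prop where
  i : ∀ u : ℝ, (∀ i, p ≤ i → i ≤ p' → u ≤ g i) → u ≤ Qv g M p p'
  ii : ∀ (u : ℝ) (q : ℕ), 0 ≤ u → p' ≤ q → q ≤ N → (∀ i, i ≤ q → u ≤ g i) →
    ∑ i ∈ Icc p' q, (g i - u) ≤ 2 * ((N : ℝ) + 1) * (Qv g M p p' - u) + u
  iii : ∑ i ∈ range (N + 1), g i ≤ 2 * ((N : ℝ) + 1) * Qv g M p p'

/-- ROW VB (easy, 50 lines).  `|g i - g (i+1)| ≤ (g i - μ) + (g (i+1) - μ)` if `μ ≤ g i, g (i+1)`; sum over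
`i ∈ Ico a b` and shift the second sum. -/
def VB : Prop := ∀ (g : ℕ → ℝ) (a b : ℕ) (μ : ℝ), a ≤ b → (∀ i, a ≤ i → i ≤ b → μ ≤ g i) →
  var g a b ≤ ∑ i ∈ Ico a b, (g i - μ) + ∑ i ∈ Ioc a b, (g i - μ)

/-- ROW PEX (medium, 90 lines), uses `EndG`, `Tan`, `K1`.  A maximum point `κ` of `g` on `[0, N]` is in `P` (`a = 0`,
`b = N`; `M v ≤ max g = g κ ≤ M κ` by `K1` (4) and `g ≤ M`).  `pf`, `pl` the smallest and the largest element of `P`.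
`Up M 0 pf`: suppose `i ≤ j ≤ pf` and `M j < M i`, let `x` be a maximum point of `M` on `[0, j]`; `M j < M x`, `x < j`,
and `EndG` gives `q < j` with `M x ≤ g q ≤ M q ≤ M x`; so `M q = M x`, `q ∈ P` (`a = 0`, `b = j`), `q < pf`, a contradiction.
Mirror for `Dn M pl N`. -/
def PEx : Prop := Tan → EndG → K1 → ∀ (N : ℕ) (g M : ℕ → ℝ), IsMax N g M →
  ∃ pf pl, Pk N g M pf ∧ Pk N g M pl ∧ pf ≤ pl ∧ Up M 0 pf ∧ Dn M pl N ∧ ∀ p, Pk N g M p → pf ≤ p ∧ p ≤ pl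

/-- ROW GPL (easy-medium, 70 lines), uses `Reach`, `MeanS`: a gap with `Q = M v`, `v ∈ [p, p']`.  (i) `u ≤ g v ≤ M v`.
(ii) the ball `I N v (q - v) = [max 0 (2v-q), q]` contains `[p', q]` and is contained in `[0, q]`, so
`∑_{[p', q]} (g - u) ≤ ∑_{ball} (g - u) ≤ (N+1)(M v - u)` (`Reach` (1)), and `M v - u ≥ 0`, `u ≥ 0`.
(iii) `S ≤ (N+1) M v` (`MeanS`), `M v ≥ 0`. -/
def GPl : Prop := Reach → MeanS → ∀ (N : ℕ) (g M : ℕ → ℝ), IsMax N g M → ∀ p p' v : ℕ, p ≤ v → v ≤ p' →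
  p' ≤ N → Qv g M p p' = M v → GapOK N g M p p'

/-- ROW XR2 (medium, 100 lines), uses `LastK`: the sum version of row `XR` (`Pool/Agent/Helper50_TMX/XR.lean`).
`z' ≤ p' ≤ q ≤ e`, `u ≤ g` on `[0, q]` and on `C`.  If `u ≤ g` on `[0, e]`: all terms of `∑_{T'} (g - u)` are `≥ 0` and
`[p', q] ⊆ T'`.  Otherwise let `c'` be the LEAST index in `(q, e]` with `g c' < u`; it is not in `C`, so `e - c' < 2d`.
If `e - c' = 2k` (`k ≤ d`): `LastK` gives `∑_{(c', e]} (g - u) ≥ 0` and `g c' - u ≥ -u`.  If `e - c' = 2k - 1`: `LastK`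
gives `∑_{[c', e]} (g - u) ≥ 0`.  The terms with `i < c'` are `≥ 0` and contain those with `i ∈ [p', q]`. -/
def XR2 : Prop := LastK → ∀ (N : ℕ) (g M : ℕ → ℝ), IsMax N g M → ∀ y z z' r : ℕ, Geo N g M y z z' r →
  (∀ v, y ≤ v → v ≤ z → M v ≤ M z) → ∀ (u : ℝ) (p' q : ℕ), 0 ≤ u → u ≤ M z → z' ≤ p' → p' ≤ q → q ≤ z + r →
  (∀ i, i ≤ q → u ≤ g i) → (∀ i, 2 * z' ≤ i + z + r → i + z ≤ 2 * y + r → u ≤ g i) →
  ∑ i ∈ Icc p' q, (g i - u) - u ≤ ∑ i ∈ Icc (2 * z' - (z + r)) (z + r), (g i - u)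

/-- ROW GAIN3 (medium, 100 lines): the sum version of row `Gain2` (`Pool/Agent/Helper26_TMX/Gain2.lean`), with a
simpler proof.  `e < q ≤ N`, `u ≤ g` on `[0, q]` (so `M v ≥ u` for `v ≤ q`), `z' ≤ p' ≤ q`.  `m = M y - u`, `m' = M z' - u`,
`G = l (M z - u)`, `X = ∑_{T'} (g - u) ≥ 0`, `τ = ∑_{(e, q]} (g - u) ≥ 0`, `c` = the number of elements of
`P = I N z' (q - z') = [max 0 (2z'-q), q]`, `c ≤ N + 1`; `X + τ = ∑_{[2z'-e, q]} (g - u) ≥ ∑_{[p', q]} (g - u)`.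
(F1) `(l+2d) m ≥ G`, (F2) `(l-2d) m ≥ G - X` (as in `Gain1`, file `Pool/Agent/Helper25_TMX/Gain1.lean`), sum:
`2l m ≥ 2G - X`.  (F3) `l m' ≥ (l-2d') m' ≥ X`.  (F3') `c m' ≥ ∑_P (g - u) ≥ X + τ`.  So with `E = m + m' - G/l`:
`E ≥ X/l - X/(2l) = X/(2l)` and `E ≥ (X+τ)/c - X/(2l)`; hence `2E ≥ (X+τ)/c`, i.e. `2c E ≥ X + τ`, and `E ≥ 0`,
`c ≤ N + 1` give `2(N+1) E ≥ X + τ`. -/
def Gain3 : Prop := ∀ (N : ℕ) (g M : ℕ → ℝ), IsMax N g M → ∀ (y z z' r : ℕ) (u : ℝ) (p' q : ℕ),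
  Geo N g M y z z' r → z + r < q → q ≤ N → (∀ i, i ≤ q → u ≤ g i) → z' ≤ p' → p' ≤ q →
  ∑ i ∈ Icc p' q, (g i - u) ≤ 2 * ((N : ℝ) + 1) * (M y + M z' - M z - u)

/-- ROW GBAD (medium, 80 lines), uses `GapI`, `GainP`, `Gain0`, `LastK`, `XR2`, `Gain1`, `Gain3`: a gap with one bad
peak whose set `C` is not lower than the gap.  `Q = M y + M z' - M z`.  (i) `u ≤ g` on `[p, p']`: `u ≤ g y ≤ M y`,
`u ≤ g z' ≤ M z'`, `u ≤ g` on `C` (last hypothesis), `GainP`.  (iii) `Gain0`.  (ii) `u ≤ g` on `[0, q]`, `q ≥ p'`: as before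
`u ≤ M y, M z', M z` and `u ≤ g` on `C`; if `q ≤ z + r`: `XR2` and `Gain1`; if `z + r < q`: `Gain3` (and `u ≥ 0`). -/
def GBad : Prop := GapI → GainP → Gain0 → LastK → XR2 → Gain1 → Gain3 →
  ∀ (N : ℕ) (g M : ℕ → ℝ), IsMax N g M → ∀ p p' y z z' r : ℕ, Geo N g M y z z' r → p ≤ y → z' ≤ p' → p' ≤ N →
  (∀ v, y ≤ v → v ≤ z → M v ≤ M z) → Qv g M p p' = M y + M z' - M z →
  (∀ i, 2 * z' ≤ i + z + r → i + z ≤ 2 * y + r → ∃ v, p ≤ v ∧ v ≤ p' ∧ g v ≤ g i) → GapOK N g M p p'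

/-- ROW BADP (easy, 50 lines): inside a gap a strict local maximum of `M` is bad.  `Gap N g M p p'`,
`p ≤ a < z < b ≤ p'`, `M a < M z`, `M b < M z`, `M ≤ M z` on `[a, b]`.  Then `g i < M z` for `i ∈ [a, b]`: if `M z ≤ g i`, then
`M z ≤ g i ≤ M i ≤ M z`, so `M i = M z = g i`, `i ≠ a, b`, and `i ∈ P` (with this `a`, `b`), `p < i < p'`, against `Gap.none`. -/
def BadP : Prop := ∀ (N : ℕ) (g M : ℕ → ℝ), IsMax N g M → ∀ p p' a z b : ℕ, Gap N g M p p' →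
  p ≤ a → a < z → z < b → b ≤ p' → M a < M z → M b < M z → (∀ v, a ≤ v → v ≤ b → M v ≤ M z) →
  ∀ i, a ≤ i → i ≤ b → g i < M z

/-- ROW GSHAPE (medium, 100 lines), uses `Dec`, `VarS`, `Tan`, `GapB`, `BadP`: the shape of `M` in a gap without two
bad peaks.  `Dec` (2) on `[p, p']` gives `y ≤ z ≤ z'` with `M` down on `[p, y]`, up on `[y, z]`, down on `[z, z']`, up on
`[z', p']`; by `VarS` `var M p p' = (M p - M y) + (M z - M y) + (M z - M z') + (M p' - M z')` and `M p = g p`, `M p' = g p'`, so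
`Q = M y + M z' - M z`.  If `M z ≤ M y` (so `=`): `Q = M z'`.  If `M z ≤ M z'`: `Q = M y`.  Otherwise `y < z < z'` and `BadP`,
`GapB` give the second case. -/
def GShape : Prop := Dec → VarS → Tan → GapB → BadP → ∀ (N : ℕ) (g M : ℕ → ℝ), IsMax N g M →
  ∀ p p' : ℕ, Gap N g M p p' → (∀ a b c d e : ℕ, p ≤ a → a < b → b < c → c < d → d < e → e ≤ p' →
    M a < M b → M c < M b → M c < M d → M e < M d → False) →
  (∃ v, p ≤ v ∧ v ≤ p' ∧ Qv g M p p' = M v) ∨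
  (∃ y z z' r, Geo N g M y z z' r ∧ p ≤ y ∧ z' ≤ p' ∧ Dn M p y ∧ Up M y z ∧ Dn M z z' ∧ Up M z' p' ∧
    Qv g M p p' = M y + M z' - M z ∧
    (∃ i, z ≤ i + r ∧ i < y ∧ i + r + z < 2 * z' ∧ M z < g i) ∧
    (∃ j, j ≤ z + r ∧ z' < j ∧ 2 * y + r < j + z ∧ M z < g j))

/-- ROW VM (easy-medium, 60 lines): `var M ≤ var g` between good peaks.  Induction on `q - p`: if there is no good
peak strictly between, `(p, q)` is a gap, `w` a minimum point of `g` on `[p, q]`, `u = g w ≤ Q`, so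
`var M p q = g p + g q - 2Q ≤ (g p - g w) + (g q - g w) ≤ var g p q` (`abs_le_var`, `var_add`); otherwise split at one
(`var_add`). -/
def VM : Prop := ∀ (N : ℕ) (g M : ℕ → ℝ), IsMax N g M → (∀ p p', Gap N g M p p' → GapOK N g M p p') →
  ∀ p q, Pk N g M p → Pk N g M q → p ≤ q → var M p q ≤ var g p q

/-- ROW DIND (medium-strong, 160 lines), uses `VM`, `VB`, `Reach`.  Strong induction on `p ∈ P`; `pf` the first good
peak, `M` is nondecreasing on `[0, pf]`, `n = N + 1`.  Let `w` be a minimum point of `g` on `[0, p]`, `μ = g w ≥ 0`.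
CASE `w ≤ pf`.  `var M 0 p = (M pf - M 0) + var M pf p` and `var M pf p ≤ var g pf p` (`VM`), `M pf = g pf`.  The ball
`I N 0 p = [0, p]` gives `n (M 0 - μ) ≥ ∑_{i ≤ p} (g i - μ)` (`Reach` (1)).  So
`n var M 0 p ≤ n (g pf - μ) - ∑_{i ≤ p} (g i - μ) + n var g pf p`, `var g pf p ≤ ∑_{[pf, p)} (g - μ) + ∑_{(pf, p]} (g - μ)` (`VB`) and
`var g 0 p ≥ (g pf - μ) + var g pf p` give `n var M 0 p ≤ N var g 0 p + (g pf - μ) + ∑_{[pf,p)} (g-μ) + ∑_{(pf,p]} (g-μ)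
- ∑_{i≤p} (g i - μ) ≤ N var g 0 p + ∑_{i<p} g i`.
CASE `pf < w`.  Let `s` be the largest good peak `< w` and `t` the smallest good peak `≥ w` (`t ≤ p`); `(s, t)` is a gap.
IH for `s`; `var M s t = g s + g t - 2Q`, `var M t p ≤ var g t p` (`VM`), (ii) with `u = μ`, `q = p`:
`∑_{[t,p]} (g - μ) ≤ 2n (Q - μ) + μ`.  With `A = g s + g t - 2μ ≤ var g s t` (through `w`) and
`B = var g t p ≤ ∑_{[t,p)} (g-μ) + ∑_{(t,p]} (g-μ)`:
`n var M s p ≤ n A - 2n (Q - μ) + n B ≤ N (A + B) + A + B - ∑_{[t,p]} (g-μ) + μ ≤ N var g s p + g s + ∑_{[t,p)} (g - μ)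
≤ N var g s p + ∑_{[s,p)} g` (`s < t`, `μ ≥ 0`). -/
def DInd : Prop := VM → VB → Reach → ∀ (N : ℕ) (g M : ℕ → ℝ), IsMax N g M →
  (∀ p p', Gap N g M p p' → GapOK N g M p p') → ∀ pf, Pk N g M pf → Up M 0 pf → (∀ p, Pk N g M p → pf ≤ p) →
  ∀ p, Pk N g M p → ((N : ℝ) + 1) * var M 0 p ≤ N * var g 0 p + ∑ i ∈ range p, g i

/-- ROW FIN1 (easy-medium, 60 lines), uses `MeanS`: the zero `i₀` of `g` is right of the last good peak `pl`, `M` is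
nonincreasing on `[pl, N]`: `var M 0 N = var M 0 pl + (g pl - M N)`, `var g 0 N ≥ var g 0 pl + g pl`, `n M N ≥ S`, and
`∑_{i < pl} g i + g pl ≤ S`:
`n var M 0 N ≤ N var g 0 pl + ∑_{i<pl} g i + n g pl - S ≤ N (var g 0 pl + g pl)`. -/
def Fin1 : Prop := MeanS → ∀ (N : ℕ) (g M : ℕ → ℝ), IsMax N g M → ∀ pl i₀ : ℕ, Pk N g M pl → Dn M pl N →
  pl ≤ i₀ → i₀ ≤ N → g i₀ = 0 →
  ((N : ℝ) + 1) * var M 0 pl ≤ N * var g 0 pl + ∑ i ∈ range pl, g i →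
  ((N : ℝ) + 1) * var M 0 N ≤ N * var g 0 N

/-- ROW FIN2 (easy, 60 lines): the zero of `g` is in the gap `(p, p')`.  `n var M p p' = n (g p + g p') - 2nQ ≤
n (g p + g p') - S` (iii), `var g p p' ≥ g p + g p'` (through the zero), and
`∑_{i<p} g i + g p + g p' + ∑_{p'<i≤N} g i ≤ S`; add the three parts. -/
def Fin2 : Prop := ∀ (N : ℕ) (g M : ℕ → ℝ), IsMax N g M → ∀ p p' i₀ : ℕ, Gap N g M p p' → GapOK N g M p p' →
  p ≤ i₀ → i₀ ≤ p' → g i₀ = 0 →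
  ((N : ℝ) + 1) * var M 0 p ≤ N * var g 0 p + ∑ i ∈ range p, g i →
  ((N : ℝ) + 1) * var M p' N ≤ N * var g p' N + ∑ i ∈ Ioc p' N, g i →
  ((N : ℝ) + 1) * var M 0 N ≤ N * var g 0 N

/-- ROW REFL2 (easy-medium, 80 lines), uses `Refl`: reflection `i ↦ N - i`: (1) good peaks, (2) gaps,
(3) variation on `[0, N - p]`, (4) sums. -/
def Refl2 : Prop := ∀ (N : ℕ) (g M : ℕ → ℝ),
  (∀ p, Pk N g M p → Pk N (fun i => g (N - i)) (fun i => M (N - i)) (N - p)) ∧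
  (∀ p p', Gap N g M p p' → Gap N (fun i => g (N - i)) (fun i => M (N - i)) (N - p') (N - p)) ∧
  (∀ p, p ≤ N → var (fun i => g (N - i)) 0 (N - p) = var g p N) ∧
  (∀ p, p ≤ N → ∑ i ∈ range (N - p), g (N - i) = ∑ i ∈ Ioc p N, g i)

/-- no two bad peaks in a gap -/
def HypA (N : ℕ) (g M : ℕ → ℝ) : Prop := ∀ p p', Gap N g M p p' →
  ∀ a b c d e : ℕ, p ≤ a → a < b → b < c → c < d → d < e → e ≤ p' →
    M a < M b → M c < M b → M c < M d → M e < M d → False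

/-- the set `C` of a bad peak is not lower than its gap -/
def HypC (N : ℕ) (g M : ℕ → ℝ) : Prop := ∀ p p' y z z' r : ℕ, Gap N g M p p' → Geo N g M y z z' r →
  p ≤ y → z' ≤ p' → Dn M p y → Up M y z → Dn M z z' → Up M z' p' →
  (∃ i, z ≤ i + r ∧ i < y ∧ i + r + z < 2 * z' ∧ M z < g i) →
  (∃ j, j ≤ z + r ∧ z' < j ∧ 2 * y + r < j + z ∧ M z < g j) →
  ∀ i, 2 * z' ≤ i + z + r → i + z ≤ 2 * y + r → ∃ v, p ≤ v ∧ v ≤ p' ∧ g v ≤ g i

/-- ROW SMALL (easy-medium, 80 lines), uses `Tan`, `GapB`, `BadP`: `N ≤ 9`.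
`HypC`: `i ∈ [p, p']` is clear (`v = i`).  If `i < p ≤ y`: `2z' ≤ i + z + r` gives `r ≥ 2z' - z - (y-1) ≥ 4` (`y < z < z'`), and
`r < z`, `z + r < N` give `N ≥ 10`.  If `i > p' ≥ z'`: `i + z ≤ 2y + r` gives `r ≥ 4` in the same way.
`HypA`: let `b'` be a maximum point of `M` on `[a, c]` and `d'` on `[c, e]`; `a < b' < c < d' < e`, `BadP` and `GapB` apply to
`(a, b', c)` (radius `r₁`, point `j₁ > c` with `g j₁ > M b'`, `j₁ ≤ b' + r₁`) and to `(c, d', e)` (radius `r₂`, point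
`i₂ < c` with `g i₂ > M d'`, `d' ≤ i₂ + r₂`).  If `M b' ≥ M d'`: `j₁ > e` (on `[c, e]` `g < M d'`), so
`r₁ ≥ e + 1 - b' ≥ 4` and `N ≥ 10`.  If `M b' < M d'`: `i₂ < a`, so `r₂ ≥ d' - a + 1 ≥ 4`. -/
def Small : Prop := Tan → GapB → BadP → ∀ (N : ℕ) (g M : ℕ → ℝ), N ≤ 9 → IsMax N g M →
  HypA N g M ∧ HypC N g M

/-- the superlevel sets of `g` on `[0, N]` have at most two components -/
def TwoComp (N : ℕ) (g : ℕ → ℝ) : Prop := ∀ a b c d e : ℕ, a < b → b < c → c < d → d < e → e ≤ N →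
  ¬ (g b < g a ∧ g b < g c ∧ g b < g e ∧ g d < g a ∧ g d < g c ∧ g d < g e)

/-- ROW CC2 (medium, 80 lines): like row `CC` (`Pool/Agent/Helper36_TMX/CC.lean`), with the exchange step:
if `a₁ < a₂`: `g a₁ < s` (drop `a₁`, replace `a₁` by `a₁ + 1`) or `s ≤ g a₁`, so `s ≤ g (a₂ - 1)` by the first hypothesis
(replace `a₂` by `a₂ - 1`); if `e₁ < e₂`: `g e₂ < s` (replace `e₂` by `e₂ - 1`) or `s ≤ g e₂`, so `s ≤ g (e₁ + 1)` by the second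
hypothesis (replace `e₁` by `e₁ + 1`).  Induction on `(a₂ + e₂) - (a₁ + e₁)`. -/
def CC2 : Prop := ∀ (N : ℕ) (g : ℕ → ℝ) (s : ℝ) (α β : ℕ), α < β → β ≤ N →
  (∀ i j, i ≤ j → j ≤ α → s ≤ g i → s ≤ g j) → (∀ i j, β ≤ i → i ≤ j → j ≤ N → s ≤ g j → s ≤ g i) →
  ∀ a₁ e₁ a₂ e₂ τ : ℕ, a₁ ≤ α → a₂ ≤ α → β ≤ e₁ → β ≤ e₂ → e₁ ≤ N → e₂ ≤ N →
  0 ≤ ∑ i ∈ Icc a₁ e₁, (g i - s) → 0 ≤ ∑ i ∈ Icc a₂ e₂, (g i - s) → a₁ + e₁ ≤ τ → τ ≤ a₂ + e₂ →
  ∃ a e : ℕ, a ≤ α ∧ β ≤ e ∧ e ≤ N ∧ a + e = τ ∧ 0 ≤ ∑ i ∈ Icc a e, (g i - s)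

/-- ROW TWOA (medium, 130 lines), uses `Tan`, `GapB`, `BadP`, `CC2`: `TwoComp N g` implies `HypA`.  As in `Small` replace
`b`, `d` by maximum points of `M` on `[a, c]`, `[c, e]`; `GapB` for `(a, b, c)`: `r₁`, `i₁ < a` with `g i₁ > M b`,
`b ≤ i₁ + r₁`, `j₁ > c` with `g j₁ > M b`, `j₁ ≤ b + r₁`; for `(c, d, e)`: `r₂`, `i₂ < c`, `j₂ > e` with `g > M d`.
Let `s = min (M b) (M d)`; `g c ≤ M c < s`.  `α` = the largest index `< c` with `s ≤ g α` (exists: `i₁`), `β` = the smallest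
index `> c` with `s ≤ g β` (exists: `j₂`).  If `i ≤ j ≤ α`, `s ≤ g i`, then `s ≤ g j`: otherwise `i < j < α < c < β`
contradicts `TwoComp`.  Mirror on the right.  `b - r₁, d - r₂ ≤ α`, `b + r₁, d + r₂ ≥ β` (because of `i₁, i₂, j₁, j₂`), and
`∑_{[b-r₁, b+r₁]} (g - s) = (2r₁+1)(M b - s) ≥ 0`, the same for `d`.  `CC2` with `τ = 2c` gives `a' + e' = 2c`,
`a' ≤ α < c`, `e' ≤ N` with `∑_{[a', e']} (g - s) ≥ 0`; `Icc a' e' = I N c (c - a')`, so `M c ≥ s`, a contradiction. -/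
def TwoA : Prop := Tan → GapB → BadP → CC2 → ∀ (N : ℕ) (g M : ℕ → ℝ), IsMax N g M → TwoComp N g → HypA N g M

/-- ROW TWOC (easy-medium, 80 lines): `TwoComp N g` implies `HypC`.  `i ∈ [p, p']` is clear.  Let `i < p` and suppose
`g i < g v` for all `v ∈ [p, p']`.  FIRST `M y < M p`: otherwise `M y = M p` (down on `[p, y]`); `Pk p` gives `b ≥ p` with
`M ≤ M p` on `[p, b]` and (`b = N` or `M b < M p`); `M z > M y = M p`, so `b < z` and `M b < M p`; but `M b ≥ M y` (down on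
`[p, y]`, up on `[y, z]`), a contradiction.  Let `i', j` be the points with `g > M z` (`i' < i` because
`i' + r + z < 2z' ≤ i + z + r`; `j > z'`).  `i' < i < p < y < j` contradicts `TwoComp`: `g i < g p`, `g i < g y ≤ M y < M z < g i', g j`,
`g y ≤ M y < M p ≤ g p`.  The case `i > p'` is the mirror image (`i' < z' < p' < i < j`). -/
def TwoC : Prop := ∀ (N : ℕ) (g M : ℕ → ℝ), IsMax N g M → TwoComp N g → HypC N g M

end Pool.Agent.TMX
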