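import Pool.Agent.TMX.Asm
import Pool.Agent.Helper37_EM.Graph

/-!
# Squad TMX: the path graph, from the rows
-/

namespace Pool.Agent.TMX

open Finset
open SimpleGraph (pathGraph)
open Pool.Agent.Helper51_Max
open Pool.Agent.Helper37_EM (var isMax_ext var_ext var_abs_ext ext_sub c_nonneg)

/-- all rows of the squad -/
structure Rows : Prop where
  tan : Tan
  mon : Mon
  cov : Cov
  gapS : GapS
  gapI : GapI
  bgap : BGap
  bv3 : BV3
  t12 : T12
  cc : CC
  uni : Uni
  dec : Dec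
  varS : VarS
  k1 : K1
  pre : Pre
  xb : XB
  gain : Gain
  refl : Refl
  exm : ExM
  hm : HM
  hv : HV
  v3 : V3

/-- `u` has at most two local maxima: no five vertices form a chain down, up, down, up -/
def AtMostTwo {n : ℕ} (u : Fin n → ℝ) : Prop :=
  ∀ a b c d e : Fin n, a < b → b < c → c < d → d < e →
    ¬ (u b < u a ∧ u b < u c ∧ u d < u c ∧ u d < u e)

/-- `u` has at most three local maxima: no seven vertices form a chain down, up, down, up, down, up -/
def AtMostThree {n : ℕ} (u : Fin n → ℝ) : Prop :=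
  ∀ a b c d e p q : Fin n, a < b → b < c → c < d → d < e → e < p → p < q →
    ¬ (u b < u a ∧ u b < u c ∧ u d < u c ∧ u d < u e ∧ u p < u e ∧ u p < u q)

/-- the sharp constant for two maxima on the path graph -/
theorem graph_two (R : Rows) (n : ℕ) (f : Fin n → ℝ) (h2 : AtMostTwo fun v => |f v|) :
    variation (pathGraph n) (maximal (pathGraph n) f) ≤
      (1 - 1 / (n : ℝ)) * variation (pathGraph n) f := by
  rcases n with _ | N
  · rw [variation_zero, variation_zero]; simp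
  obtain ⟨v₀, -, hv₀⟩ := Finset.exists_min_image (univ : Finset (Fin (N + 1))) (fun v => |f v|)
    ⟨0, mem_univ _⟩
  have hm : ∀ v, |f v₀| ≤ |f v| := fun v => hv₀ v (mem_univ _)
  have hM := isMax_ext f |f v₀| hm
  obtain ⟨k, w, l, hb⟩ := R.dec.1 N (Helper51_Max.ext (fun v => |f v| - |f v₀|))
    (fun a b c d e hab hbc hcd hde he h1 h2' h3 h4 => by
      rw [ext_sub _ _ (show a < N + 1 by omega), ext_sub _ _ (show b < N + 1 by omega)] at h1
      rw [ext_sub _ _ (show b < N + 1 by omega), ext_sub _ _ (show c < N + 1 by omega)] at h2'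
      rw [ext_sub _ _ (show d < N + 1 by omega), ext_sub _ _ (show c < N + 1 by omega)] at h3
      rw [ext_sub _ _ (show d < N + 1 by omega), ext_sub _ _ (show e < N + 1 by omega)] at h4
      exact h2 ⟨a, by omega⟩ ⟨b, by omega⟩ ⟨c, by omega⟩ ⟨d, by omega⟩ ⟨e, by omega⟩
        (Fin.lt_def.mpr hab) (Fin.lt_def.mpr hbc) (Fin.lt_def.mpr hcd) (Fin.lt_def.mpr hde)
        ⟨by linarith, by linarith, by linarith, by linarith⟩)
  have hv0 : v₀.val ≤ N := by have := v₀.isLt; omega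
  have h0 : Helper51_Max.ext (fun v => |f v| - |f v₀|) v₀.val = 0 := by
    rw [ext_sub _ _ v₀.isLt]; simp
  have e1 := sharp R.tan R.mon R.cov R.gapS R.gapI R.bgap R.t12 R.cc R.uni R.dec R.varS R.k1 R.pre R.xb
    R.gain R.refl hM hb hv0 h0
  rw [var_ext] at e1
  have e2 := var_abs_ext f |f v₀|
  have hN : (0 : ℝ) ≤ N := Nat.cast_nonneg N
  have e3 := mul_le_mul_of_nonneg_left e2 hN
  have h4 : (1 - 1 / (((N + 1 : ℕ)) : ℝ)) = N / ((N : ℝ) + 1) := by
    push_cast; field_simp; ring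
  rw [h4, div_mul_eq_mul_div, le_div_iff₀ (by linarith)]
  linarith

/-- sums over three values of the maximal function on the path graph -/
theorem graph_v3 (R : Rows) (n : ℕ) (f : Fin n → ℝ) (x₁ y₁ x₂ y₂ x₃ : Fin n) (h1 : x₁ ≤ y₁) (h2 : y₁ ≤ x₂)
    (h3 : x₂ ≤ y₂) (h4 : y₂ ≤ x₃) :
    ∃ p₁ q₁ p₂ q₂ p₃ : Fin n, p₁ ≤ q₁ ∧ q₁ ≤ p₂ ∧ p₂ ≤ q₂ ∧ q₂ ≤ p₃ ∧
      maximal (pathGraph n) f x₁ - maximal (pathGraph n) f y₁ + maximal (pathGraph n) f x₂ -
        maximal (pathGraph n) f y₂ + maximal (pathGraph n) f x₃ ≤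
      |f p₁| - |f q₁| + |f p₂| - |f q₂| + |f p₃| := by
  rcases n with _ | N
  · exact x₁.elim0
  have hM := isMax_ext f 0 (fun v => abs_nonneg _)
  obtain ⟨p₁, q₁, p₂, q₂, p₃, c1, c2, c3, c4, c5, c6⟩ :=
    R.v3 R.bv3 R.dec R.hm R.hv R.exm R.tan R.mon R.cov R.bgap R.gapS R.gapI N _ _ hM
      x₁.val y₁.val x₂.val y₂.val x₃.val (Fin.le_def.mp h1) (Fin.le_def.mp h2) (Fin.le_def.mp h3)
      (Fin.le_def.mp h4) (by have := x₃.isLt; omega)
  refine ⟨⟨p₁, by omega⟩, ⟨q₁, by omega⟩, ⟨p₂, by omega⟩, ⟨q₂, by omega⟩, ⟨p₃, by omega⟩,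
    Fin.le_def.mpr c1, Fin.le_def.mpr c2, Fin.le_def.mpr c3, Fin.le_def.mpr c4, ?_⟩
  rw [ext_sub _ _ x₁.isLt, ext_sub _ _ y₁.isLt, ext_sub _ _ x₂.isLt, ext_sub _ _ y₂.isLt,
    ext_sub _ _ x₃.isLt, ext_sub _ _ (show p₁ < N + 1 by omega), ext_sub _ _ (show q₁ < N + 1 by omega),
    ext_sub _ _ (show p₂ < N + 1 by omega), ext_sub _ _ (show q₂ < N + 1 by omega),
    ext_sub _ _ (show p₃ < N + 1 by omega)] at c6
  simp only [Fin.eta] at c6
  linarith

/-- constant one if the maximal function has at most three local maxima -/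
theorem graph_three (R : Rows) (n : ℕ) (f : Fin n → ℝ) (h3 : AtMostThree (maximal (pathGraph n) f)) :
    variation (pathGraph n) (maximal (pathGraph n) f) ≤ variation (pathGraph n) f := by
  rcases n with _ | N
  · rw [variation_zero, variation_zero]
  have hM := isMax_ext f 0 (fun v => abs_nonneg _)
  have e1 := three R.tan R.mon R.cov R.gapS R.gapI R.bgap R.bv3 R.dec R.hm R.hv R.exm R.v3 R.varS hM
    (fun a b c d e p q hab hbc hcd hde hep hpq hq k1 k2 k3 k4 k5 k6 => by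
      rw [ext_sub _ _ (show a < N + 1 by omega), ext_sub _ _ (show b < N + 1 by omega)] at k1
      rw [ext_sub _ _ (show b < N + 1 by omega), ext_sub _ _ (show c < N + 1 by omega)] at k2
      rw [ext_sub _ _ (show d < N + 1 by omega), ext_sub _ _ (show c < N + 1 by omega)] at k3
      rw [ext_sub _ _ (show d < N + 1 by omega), ext_sub _ _ (show e < N + 1 by omega)] at k4
      rw [ext_sub _ _ (show p < N + 1 by omega), ext_sub _ _ (show e < N + 1 by omega)] at k5
      rw [ext_sub _ _ (show p < N + 1 by omega), ext_sub _ _ (show q < N + 1 by omega)] at k6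
      exact h3 ⟨a, by omega⟩ ⟨b, by omega⟩ ⟨c, by omega⟩ ⟨d, by omega⟩ ⟨e, by omega⟩ ⟨p, by omega⟩
        ⟨q, by omega⟩ (Fin.lt_def.mpr hab) (Fin.lt_def.mpr hbc) (Fin.lt_def.mpr hcd) (Fin.lt_def.mpr hde)
        (Fin.lt_def.mpr hep) (Fin.lt_def.mpr hpq)
        ⟨by linarith, by linarith, by linarith, by linarith, by linarith, by linarith⟩)
  rw [var_ext] at e1
  exact e1.trans (var_abs_ext f 0)

end Pool.Agent.TMX
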