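import Pool.Agent.TMX.Stmts2
import Pool.Agent.TMX.Graph

/-!
# Squad TMX: assembly of the second list
-/

namespace Pool.Agent.TMX

open Finset
open SimpleGraph (pathGraph)
open Pool.Agent.Helper51_Max
open Pool.Agent.Helper37_EM (var var_add g_le isMax_ext var_ext var_abs_ext ext_sub)

/-- the rows of the second list and the rows of the first list used with them -/
structure Rows2 : Prop where
  tan : Tan
  refl : Refl
  gapI : GapI
  dec : Dec
  varS : VarS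
  k1 : K1
  endG : EndG
  reach : Reach
  meanS : MeanS
  varC : VarC
  gapB : GapB
  cmin : CMin
  gainP : GainP
  gain0 : Gain0
  lastK : LastK
  xr : XR
  gain1 : Gain1
  gain2 : Gain2
  fb : FB
  one : One
  a2 : A2
  a3 : A3
  abu : ABu
  ac : AC
  al : AL
  ar : AR

variable {N : ℕ} {g M : ℕ → ℝ}

/-- a bad middle peak, the zero of `g` is not left of `p₁` -/
theorem badR (R : Rows2) (h : IsMax N g M) {i₀ p₁ y z z' p₃ : ℕ} (hi : i₀ ≤ N) (h0 : g i₀ = 0)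
    (hpi : p₁ ≤ i₀) (hp1 : p₁ < y) (hyz : y < z) (hzz : z < z') (hp3 : z' < p₃) (hpN : p₃ ≤ N)
    (hMy : M y < M z) (hMz : M z' < M z) (hbad : ∀ i, y ≤ i → i ≤ z' → g i < M z)
    (hup : ∀ v, y ≤ v → v ≤ z → M v ≤ M z) :
    ((N : ℝ) + 1) * (2 * (g p₁ - M y + M z - M z' + g p₃) - M 0 - M N) ≤ N * var g 0 N := by
  obtain ⟨r, hr⟩ := h.attained z (by omega)
  obtain ⟨G, ⟨i, hi1, hi2, hi3, hi4⟩, ⟨j, hj1, hj2, hj3, hj4⟩⟩ :=
    R.gapB R.tan N g M h y z z' r hyz hzz (by omega) hMy hMz hr hbad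
  have hrN := G.rN
  by_cases hz3 : i₀ ≤ p₃
  · exact R.abu R.reach R.meanS R.varC R.gain0 N g M h i₀ p₁ y z z' r p₃ G hp1 hp3 hpN hpi hz3 h0
  push Not at hz3
  obtain ⟨c, hc1, hc2, hc3, hc4, hc5⟩ := R.cmin N g M h y z z' r G
  rcases lt_or_ge c p₁ with hcp | hcp
  · exact R.al R.reach R.meanS R.varC R.fb N g M h i₀ i c p₁ y z z' r p₃ G hp1 hp3 hpN hz3.le hi h0
      (by omega) hcp hi4 hc1 hc2 hc3 hc4 hc5
  rcases lt_or_ge p₃ c with hcp' | hcp'
  · exact R.ar R.reach R.meanS R.varC N g M h i₀ p₁ y z z' p₃ c j hp1 hyz hzz hp3 hz3.le hi h0 hcp'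
      (by omega) (by omega) hj4 hc3 hc4
  · obtain ⟨w, hw, hmin⟩ := Finset.exists_min_image (Icc p₁ p₃) g ⟨c, by rw [mem_Icc]; exact ⟨hcp, hcp'⟩⟩
    rw [mem_Icc] at hw
    exact R.ac R.reach R.meanS R.varC R.lastK R.gapI R.gainP R.xr R.gain1 R.gain2 N g M h i₀ p₁ w y z z' r
      p₃ G hup hp1 hp3 hpN hz3.le hi h0 hw.1 hw.2 (fun i a b => hmin i (by rw [mem_Icc]; exact ⟨a, b⟩))
      (fun i a b => (hmin c (by rw [mem_Icc]; exact ⟨hcp, hcp'⟩)).trans (hc5 i a b))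

/-- a bad middle peak -/
theorem bad (R : Rows2) (h : IsMax N g M) {i₀ p₁ y z z' p₃ : ℕ} (hi : i₀ ≤ N) (h0 : g i₀ = 0)
    (hp1 : p₁ < y) (hyz : y < z) (hzz : z < z') (hp3 : z' < p₃) (hpN : p₃ ≤ N)
    (hMy : M y < M z) (hMz : M z' < M z) (hbad : ∀ i, y ≤ i → i ≤ z' → g i < M z)
    (hup : ∀ v, y ≤ v → v ≤ z' → M v ≤ M z) :
    ((N : ℝ) + 1) * (2 * (g p₁ - M y + M z - M z' + g p₃) - M 0 - M N) ≤ N * var g 0 N := by
  rcases le_or_gt p₁ i₀ with hc | hc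
  · exact badR R h hi h0 hc hp1 hyz hzz hp3 hpN hMy hMz hbad (fun v a b => hup v a (by omega))
  obtain ⟨r1, -, r3⟩ := R.refl N g M
  have h' := r1 h
  have sub : ∀ x, x ≤ N → N - (N - x) = x := fun x hx => by omega
  have e := badR R h' (i₀ := N - i₀) (p₁ := N - p₃) (y := N - z') (z := N - z) (z' := N - y)
    (p₃ := N - p₁) (by omega) (by rw [sub i₀ hi]; exact h0) (by omega) (by omega) (by omega)
    (by omega) (by omega) (by omega)
    (by rw [sub z' (by omega), sub z (by omega)]; exact hMz)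
    (by rw [sub y (by omega), sub z (by omega)]; exact hMy)
    (fun i a b => by
      try simp only
      rw [sub z (by omega)]
      exact hbad (N - i) (by omega) (by omega))
    (fun v a b => by
      try simp only
      rw [sub z (by omega)]
      exact hup (N - v) (by omega) (by omega))
  try simp only at e
  rw [r3, sub z' (by omega), sub z (by omega), sub y (by omega), sub p₁ (by omega), sub p₃ (by omega),
    Nat.sub_zero, Nat.sub_self] at e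
  have e2 : 2 * (g p₁ - M y + M z - M z' + g p₃) - M 0 - M N =
    2 * (g p₃ - M z' + M z - M y + g p₁) - M N - M 0 := by ring
  rw [e2]
  exact e

theorem good2 (R : Rows2) (h : IsMax N g M) {i₀ p₁ y p₂ : ℕ} (hi : i₀ ≤ N) (h0 : g i₀ = 0)
    (h1 : p₁ < y) (h2 : y < p₂) (h3 : p₂ ≤ N) :
    ((N : ℝ) + 1) * (2 * (g p₁ - M y + g p₂) - M 0 - M N) ≤ N * var g 0 N := by
  rcases le_or_gt p₁ i₀ with hc | hc
  · exact R.a2 R.reach R.meanS R.varC N g M h i₀ p₁ y p₂ h1 h2 h3 hc hi h0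
  obtain ⟨r1, -, r3⟩ := R.refl N g M
  have h' := r1 h
  have sub : ∀ x, x ≤ N → N - (N - x) = x := fun x hx => by omega
  have e := R.a2 R.reach R.meanS R.varC N _ _ h' (N - i₀) (N - p₂) (N - y) (N - p₁) (by omega) (by omega)
    (by omega) (by omega) (by omega) (by rw [sub i₀ hi]; exact h0)
  try simp only at e
  rw [r3, sub y (by omega), sub p₁ (by omega), sub p₂ (by omega), Nat.sub_zero, Nat.sub_self] at e
  have e2 : 2 * (g p₁ - M y + g p₂) - M 0 - M N = 2 * (g p₂ - M y + g p₁) - M N - M 0 := by ring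
  rw [e2]
  exact e

theorem good3 (R : Rows2) (h : IsMax N g M) {i₀ p₁ y₁ p₂ y₂ p₃ : ℕ} (hi : i₀ ≤ N) (h0 : g i₀ = 0)
    (h1 : p₁ < y₁) (h2 : y₁ < p₂) (h3 : p₂ < y₂) (h4 : y₂ < p₃) (h5 : p₃ ≤ N) :
    ((N : ℝ) + 1) * (2 * (g p₁ - M y₁ + g p₂ - M y₂ + g p₃) - M 0 - M N) ≤ N * var g 0 N := by
  rcases le_or_gt p₁ i₀ with hc | hc
  · exact R.a3 R.reach R.meanS R.varC N g M h i₀ p₁ y₁ p₂ y₂ p₃ h1 h2 h3 h4 h5 hc hi h0
  obtain ⟨r1, -, r3⟩ := R.refl N g M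
  have h' := r1 h
  have sub : ∀ x, x ≤ N → N - (N - x) = x := fun x hx => by omega
  have e := R.a3 R.reach R.meanS R.varC N _ _ h' (N - i₀) (N - p₃) (N - y₂) (N - p₂) (N - y₁) (N - p₁)
    (by omega) (by omega) (by omega) (by omega) (by omega) (by omega) (by omega)
    (by rw [sub i₀ hi]; exact h0)
  try simp only at e
  rw [r3, sub y₁ (by omega), sub y₂ (by omega), sub p₁ (by omega), sub p₂ (by omega), sub p₃ (by omega),
    Nat.sub_zero, Nat.sub_self] at e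
  have e2 : 2 * (g p₁ - M y₁ + g p₂ - M y₂ + g p₃) - M 0 - M N =
    2 * (g p₃ - M y₂ + g p₂ - M y₁ + g p₁) - M N - M 0 := by ring
  rw [e2]
  exact e

theorem mono_step {A A' B : ℝ} (e : ((N : ℝ) + 1) * A ≤ B) (h : A' ≤ A) : ((N : ℝ) + 1) * A' ≤ B :=
  (mul_le_mul_of_nonneg_left h (by positivity)).trans e

/-- two peaks -/
theorem two_peaks (R : Rows2) (h : IsMax N g M) {i₀ x y x' : ℕ} (hi : i₀ ≤ N) (h0 : g i₀ = 0)
    (h1 : x ≤ y) (h2 : y ≤ x') (h3 : x' ≤ N) :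
    ((N : ℝ) + 1) * (2 * (M x - M y + M x') - M 0 - M N) ≤ N * var g 0 N := by
  by_cases c1 : M x ≤ M y
  · exact mono_step (R.one R.k1 N g M h x' h3) (by linarith)
  by_cases c2 : M x' ≤ M y
  · exact mono_step (R.one R.k1 N g M h x (by omega)) (by linarith)
  push Not at c1 c2
  have hxy : x < y := lt_of_le_of_ne h1 (by rintro rfl; exact lt_irrefl _ c1)
  have hyx : y < x' := lt_of_le_of_ne h2 (by rintro rfl; exact lt_irrefl _ c2)
  obtain ⟨p₁, hp1, hq1⟩ := (R.endG R.tan N g M h).1 x y hxy (by omega) c1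
  obtain ⟨p₂, hp2, hp2N, hq2⟩ := (R.endG R.tan N g M h).2 x' y hyx h3 c2
  exact mono_step (good2 R h hi h0 hp1 hp2 hp2N) (by linarith)

/-- three peaks -/
theorem three_peaks (R : Rows2) (h : IsMax N g M) {i₀ x₁ y₁ x₂ y₂ x₃ : ℕ} (hi : i₀ ≤ N) (h0 : g i₀ = 0)
    (h1 : x₁ ≤ y₁) (h2 : y₁ ≤ x₂) (h3 : x₂ ≤ y₂) (h4 : y₂ ≤ x₃) (h5 : x₃ ≤ N) :
    ((N : ℝ) + 1) * (2 * (M x₁ - M y₁ + M x₂ - M y₂ + M x₃) - M 0 - M N) ≤ N * var g 0 N := by
  obtain ⟨z, hz, hmax⟩ := Finset.exists_max_image (Icc y₁ y₂) M ⟨x₂, by rw [mem_Icc]; exact ⟨h2, h3⟩⟩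
  rw [mem_Icc] at hz
  have hx2 := hmax x₂ (by rw [mem_Icc]; exact ⟨h2, h3⟩)
  by_cases c1 : M z ≤ M y₁
  · exact mono_step (two_peaks R h hi h0 (show x₁ ≤ y₂ by omega) h4 h5) (by linarith)
  by_cases c2 : M z ≤ M y₂
  · exact mono_step (two_peaks R h hi h0 h1 (show y₁ ≤ x₃ by omega) h5) (by linarith)
  by_cases c3 : M x₁ ≤ M y₁
  · exact mono_step (two_peaks R h hi h0 h3 h4 h5) (by linarith)
  by_cases c4 : M x₃ ≤ M y₂
  · exact mono_step (two_peaks R h hi h0 h1 h2 (by omega)) (by linarith)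
  push Not at c1 c2 c3 c4
  have s1 : y₁ < z := lt_of_le_of_ne hz.1 (by rintro rfl; exact lt_irrefl _ c1)
  have s2 : z < y₂ := lt_of_le_of_ne hz.2 (by rintro rfl; exact lt_irrefl _ c2)
  have s3 : x₁ < y₁ := lt_of_le_of_ne h1 (by rintro rfl; exact lt_irrefl _ c3)
  have s4 : y₂ < x₃ := lt_of_le_of_ne h4 (by rintro rfl; exact lt_irrefl _ c4)
  obtain ⟨p₁, hp1, hq1⟩ := (R.endG R.tan N g M h).1 x₁ y₁ s3 (by omega) c3
  obtain ⟨p₃, hp3, hp3N, hq3⟩ := (R.endG R.tan N g M h).2 x₃ y₂ s4 h5 c4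
  by_cases hg : ∃ p, y₁ ≤ p ∧ p ≤ y₂ ∧ M z ≤ g p
  · obtain ⟨p, ha, hb, hc⟩ := hg
    have t1 : y₁ < p := lt_of_le_of_ne ha (by
      rintro rfl
      have := g_le h (show y₁ ≤ N by omega)
      linarith)
    have t2 : p < y₂ := lt_of_le_of_ne hb (by
      rintro rfl
      have := g_le h (show p ≤ N by omega)
      linarith)
    exact mono_step (good3 R h hi h0 hp1 t1 t2 hp3 hp3N) (by linarith)
  · push Not at hg
    exact mono_step (bad R h hi h0 hp1 s1 s2 hp3 hp3N c1 c2 hg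
      (fun v a b => hmax v (by rw [mem_Icc]; exact ⟨a, b⟩))) (by linarith)

/-- the sharp inequality if `M` has at most three local maxima -/
theorem three_sharp (R : Rows2) (h : IsMax N g M) {i₀ : ℕ} (hi : i₀ ≤ N) (h0 : g i₀ = 0)
    (hno : ∀ x₁ y₁ x₂ y₂ x₃ y₃ x₄ : ℕ, x₁ < y₁ → y₁ < x₂ → x₂ < y₂ → y₂ < x₃ → x₃ < y₃ →
      y₃ < x₄ → x₄ ≤ N → M y₁ < M x₁ → M y₁ < M x₂ → M y₂ < M x₂ → M y₂ < M x₃ → M y₃ < M x₃ →
      M y₃ < M x₄ → False) : ((N : ℝ) + 1) * var M 0 N ≤ N * var g 0 N := by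
  obtain ⟨x₁, y₁, x₂, y₂, x₃, a1, a2, a3, a4, a5, b1, b2, b3, b4, b5, b6⟩ := R.dec.2.2 N M hno
  have v1 := R.varS.1 M 0 x₁ (Nat.zero_le _) b1
  have v2 := R.varS.2.1 M x₁ y₁ a1 b2
  have v3 := R.varS.1 M y₁ x₂ a2 b3
  have v4 := R.varS.2.1 M x₂ y₂ a3 b4
  have v5 := R.varS.1 M y₂ x₃ a4 b5
  have v6 := R.varS.2.1 M x₃ N a5 b6
  have s1 : var M 0 N = var M 0 x₁ + var M x₁ N := var_add (Nat.zero_le _) (by omega)
  have s2 : var M x₁ N = var M x₁ y₁ + var M y₁ N := var_add a1 (by omega)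
  have s3 : var M y₁ N = var M y₁ x₂ + var M x₂ N := var_add a2 (by omega)
  have s4 : var M x₂ N = var M x₂ y₂ + var M y₂ N := var_add a3 (by omega)
  have s5 : var M y₂ N = var M y₂ x₃ + var M x₃ N := var_add a4 (by omega)
  exact mono_step (three_peaks R h hi h0 a1 a2 a3 a4 a5) (by linarith)

/-- the sharp inequality on the path graph if the maximal function has at most three local maxima -/
theorem graph_three_sharp (R : Rows2) (n : ℕ) (f : Fin n → ℝ)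
    (h3 : AtMostThree (maximal (pathGraph n) f)) :
    variation (pathGraph n) (maximal (pathGraph n) f) ≤
      (1 - 1 / (n : ℝ)) * variation (pathGraph n) f := by
  rcases n with _ | N
  · rw [variation_zero, variation_zero]; simp
  obtain ⟨v₀, -, hv₀⟩ := Finset.exists_min_image (univ : Finset (Fin (N + 1))) (fun v => |f v|)
    ⟨0, mem_univ _⟩
  have hm : ∀ v, |f v₀| ≤ |f v| := fun v => hv₀ v (mem_univ _)
  have hM := isMax_ext f |f v₀| hm
  have hv0 : v₀.val ≤ N := by have := v₀.isLt; omega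
  have h0 : Helper51_Max.ext (fun v => |f v| - |f v₀|) v₀.val = 0 := by
    rw [ext_sub _ _ v₀.isLt]; simp
  have e1 := three_sharp R hM hv0 h0
    (fun a b c d e p q hab hbc hcd hde hep hpq hq k1 k2 k3 k4 k5 k6 => by
      rw [ext_sub _ _ (show a < N + 1 by omega), ext_sub _ _ (show b < N + 1 by omega)] at k1
      rw [ext_sub _ _ (show b < N + 1 by omega), ext_sub _ _ (show c < N + 1 by omega)] at k2
      rw [ext_sub _ _ (show d < N + 1 by omega), ext_sub _ _ (show c < N + 1 by omega)] at k3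
      rw [ext_sub _ _ (show d < N + 1 by omega), ext_sub _ _ (show e < N + 1 by omega)] at k4
      rw [ext_sub _ _ (show p < N + 1 by omega), ext_sub _ _ (show e < N + 1 by omega)] at k5
      rw [ext_sub _ _ (show p < N + 1 by omega), ext_sub _ _ (show q < N + 1 by omega)] at k6
      exact h3 ⟨a, by omega⟩ ⟨b, by omega⟩ ⟨c, by omega⟩ ⟨d, by omega⟩ ⟨e, by omega⟩ ⟨p, by omega⟩
        ⟨q, by omega⟩ (Fin.lt_def.mpr hab) (Fin.lt_def.mpr hbc) (Fin.lt_def.mpr hcd) (Fin.lt_def.mpr hde)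
        (Fin.lt_def.mpr hep) (Fin.lt_def.mpr hpq)
        ⟨by linarith, by linarith, by linarith, by linarith, by linarith, by linarith⟩)
  rw [var_ext] at e1
  have e2 := var_abs_ext f |f v₀|
  have hN : (0 : ℝ) ≤ N := Nat.cast_nonneg N
  have e3 := mul_le_mul_of_nonneg_left e2 hN
  have h4 : (1 - 1 / (((N + 1 : ℕ)) : ℝ)) = N / ((N : ℝ) + 1) := by
    push_cast; field_simp; ring
  rw [h4, div_mul_eq_mul_div, le_div_iff₀ (by linarith)]
  linarith

/-- the inequality for seven vertices, every `f` -/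
theorem graph_six (R : Rows2) (N : ℕ) (f : Fin (N + 1) → ℝ) (x₁ y₁ x₂ y₂ x₃ : Fin (N + 1))
    (h1 : x₁ ≤ y₁) (h2 : y₁ ≤ x₂) (h3 : x₂ ≤ y₂) (h4 : y₂ ≤ x₃) :
    2 * (maximal (pathGraph (N + 1)) f x₁ - maximal (pathGraph (N + 1)) f y₁ +
        maximal (pathGraph (N + 1)) f x₂ - maximal (pathGraph (N + 1)) f y₂ +
        maximal (pathGraph (N + 1)) f x₃) -
      maximal (pathGraph (N + 1)) f 0 - maximal (pathGraph (N + 1)) f (Fin.last N) ≤
      (1 - 1 / ((N + 1 : ℕ) : ℝ)) * variation (pathGraph (N + 1)) f := by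
  obtain ⟨v₀, -, hv₀⟩ := Finset.exists_min_image (univ : Finset (Fin (N + 1))) (fun v => |f v|)
    ⟨0, mem_univ _⟩
  have hm : ∀ v, |f v₀| ≤ |f v| := fun v => hv₀ v (mem_univ _)
  have hM := isMax_ext f |f v₀| hm
  have hv0 : v₀.val ≤ N := by have := v₀.isLt; omega
  have h0 : Helper51_Max.ext (fun v => |f v| - |f v₀|) v₀.val = 0 := by
    rw [ext_sub _ _ v₀.isLt]; simp
  have e1 := three_peaks R hM hv0 h0 (Fin.le_def.mp h1) (Fin.le_def.mp h2) (Fin.le_def.mp h3)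
    (Fin.le_def.mp h4) (show x₃.val ≤ N by have := x₃.isLt; omega)
  rw [ext_sub _ _ x₁.isLt, ext_sub _ _ y₁.isLt, ext_sub _ _ x₂.isLt, ext_sub _ _ y₂.isLt,
    ext_sub _ _ x₃.isLt, ext_sub _ _ (Nat.succ_pos N), ext_sub _ _ (Nat.lt_succ_self N)] at e1
  simp only [Fin.eta] at e1
  have e2 := var_abs_ext f |f v₀|
  have hN : (0 : ℝ) ≤ N := Nat.cast_nonneg N
  have e3 := mul_le_mul_of_nonneg_left e2 hN
  have h4 : (1 - 1 / (((N + 1 : ℕ)) : ℝ)) = N / ((N : ℝ) + 1) := by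
    push_cast; field_simp; ring
  have a0 : (⟨0, Nat.succ_pos N⟩ : Fin (N + 1)) = 0 := rfl
  have aN : (⟨N, Nat.lt_succ_self N⟩ : Fin (N + 1)) = Fin.last N := rfl
  rw [a0, aN] at e1
  rw [h4, div_mul_eq_mul_div, le_div_iff₀ (by linarith)]
  nlinarith

end Pool.Agent.TMX
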