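import Pool.Agent.TMX.Stmts3
import Pool.Agent.TMX.Asm2

/-!
# Squad TMX: assembly of the third list
-/

namespace Pool.Agent.TMX

open Finset
open SimpleGraph (pathGraph)
open Pool.Agent.Helper51_Max
open Pool.Agent.Helper37_EM (var var_add g_le isMax_ext var_ext var_abs_ext ext_sub)

/-- the rows used for the general reduction -/
structure Rows3 : Prop where
  tan : Tan
  refl : Refl
  gapI : GapI
  dec : Dec
  varS : VarS
  k1 : K1
  endG : EndG
  reach : Reach
  meanS : MeanS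
  gapB : GapB
  gainP : GainP
  gain0 : Gain0
  lastK : LastK
  gain1 : Gain1
  vb : VB
  pex : PEx
  gpl : GPl
  xr2 : XR2
  gain3 : Gain3
  gbad : GBad
  badP : BadP
  gshape : GShape
  vm : VM
  dind : DInd
  fin1 : Fin1
  fin2 : Fin2
  refl2 : Refl2
  small : Small
  cc2 : CC2
  twoA : TwoA
  twoC : TwoC

variable {N : ℕ} {g M : ℕ → ℝ}

theorem gapOK (R : Rows3) (h : IsMax N g M) (hA : HypA N g M) (hC : HypC N g M) {p p' : ℕ}
    (hG : Gap N g M p p') : GapOK N g M p p' := by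
  have hp'N : p' ≤ N := hG.right.1
  rcases R.gshape R.dec R.varS R.tan R.gapB R.badP N g M h p p' hG (hA p p' hG) with
    ⟨v, h1, h2, h3⟩ | ⟨y, z, z', r, G, h1, h2, d1, u1, d2, u2, hQ, hi, hj⟩
  · exact R.gpl R.reach R.meanS N g M h p p' v h1 h2 hp'N h3
  · exact R.gbad R.gapI R.gainP R.gain0 R.lastK R.xr2 R.gain1 R.gain3 N g M h p p' y z z' r G h1 h2 hp'N
      (fun v a b => u1 v z a b le_rfl) hQ (hC p p' y z z' r hG G h1 h2 d1 u1 d2 u2 hi hj)

/-- the general sharp inequality -/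
theorem general_sharp (R : Rows3) (h : IsMax N g M) (hA : HypA N g M) (hC : HypC N g M)
    (hA' : HypA N (fun i => g (N - i)) (fun i => M (N - i)))
    (hC' : HypC N (fun i => g (N - i)) (fun i => M (N - i))) {i₀ : ℕ} (hi : i₀ ≤ N) (h0 : g i₀ = 0) :
    ((N : ℝ) + 1) * var M 0 N ≤ N * var g 0 N := by
  classical
  obtain ⟨pf, pl, h1, h2, h3, h4, h5, h6⟩ := R.pex R.tan R.endG R.k1 N g M h
  have hD := R.dind R.vm R.vb R.reach N g M h (fun p p' hG => gapOK R h hA hC hG) pf h1 h4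
    (fun p hp => (h6 p hp).1)
  by_cases c1 : pl ≤ i₀
  · exact R.fin1 R.meanS N g M h pl i₀ h2 h5 c1 hi h0 (hD pl h2)
  push Not at c1
  have h' : IsMax N (fun i => g (N - i)) (fun i => M (N - i)) := (R.refl N g M).1 h
  obtain ⟨pf', pl', h1', h2', h3', h4', h5', h6'⟩ := R.pex R.tan R.endG R.k1 N _ _ h'
  have hD' := R.dind R.vm R.vb R.reach N _ _ h' (fun p p' hG => gapOK R h' hA' hC' hG) pf' h1' h4'
    (fun p hp => (h6' p hp).1)
  obtain ⟨r1, r2, r3, r4⟩ := R.refl2 N g M
  have r3M := (R.refl2 N M M).2.2.1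
  have hpfN : pf ≤ N := h1.1
  have sub : ∀ x, x ≤ N → N - (N - x) = x := fun x hx => by omega
  by_cases c2 : i₀ ≤ pf
  · have hk := r1 pf h1
    have hDn : Dn (fun i => M (N - i)) (N - pf) N := by
      intro i j hi' hij hj
      exact h4 (N - j) (N - i) (Nat.zero_le _) (by omega) (by omega)
    have e := R.fin1 R.meanS N _ _ h' (N - pf) (N - i₀) hk hDn (by omega) (by omega)
      (by show g (N - (N - i₀)) = 0; rw [sub i₀ hi]; exact h0) (hD' _ hk)
    rw [(R.refl N g M).2.2, (R.refl N M M).2.2] at e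
    exact e
  push Not at c2
  obtain ⟨p, hp, hpmax⟩ := Finset.exists_max_image ((range (N + 1)).filter (fun p => Pk N g M p ∧ p < i₀))
    (fun p => p) ⟨pf, by rw [mem_filter, mem_range]; exact ⟨by omega, h1, c2⟩⟩
  obtain ⟨q, hq, hqmin⟩ := Finset.exists_min_image ((range (N + 1)).filter (fun p => Pk N g M p ∧ i₀ ≤ p))
    (fun p => p) ⟨pl, by rw [mem_filter, mem_range]; exact ⟨by have := h2.1; omega, h2, c1.le⟩⟩
  rw [mem_filter, mem_range] at hp hq
  have hG : Gap N g M p q := by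
    refine ⟨hp.2.1, hq.2.1, by omega, ?_⟩
    intro v hv1 hv2 hv
    rcases lt_or_ge v i₀ with hc | hc
    · have := hpmax v (by rw [mem_filter, mem_range]; exact ⟨by omega, hv, hc⟩)
      omega
    · have := hqmin v (by rw [mem_filter, mem_range]; exact ⟨by omega, hv, hc⟩)
      omega
  have e1 := hD p hp.2.1
  have e2 := hD' (N - q) (r1 q hq.2.1)
  rw [r3 q (by omega), r3M q (by omega), r4 q (by omega)] at e2
  exact R.fin2 N g M h p q i₀ hG (gapOK R h hA hC hG) hp.2.2.le hq.2.2 h0 e1 e2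

theorem twoComp_refl (h : TwoComp N g) : TwoComp N (fun i => g (N - i)) := by
  intro a b c d e hab hbc hcd hde he ⟨k1, k2, k3, k4, k5, k6⟩
  exact h (N - e) (N - d) (N - c) (N - b) (N - a) (by omega) (by omega) (by omega) (by omega) (by omega)
    ⟨k6, k5, k4, k3, k2, k1⟩

theorem twoComp_sharp (R : Rows3) (h : IsMax N g M) (hT : TwoComp N g) {i₀ : ℕ} (hi : i₀ ≤ N)
    (h0 : g i₀ = 0) : ((N : ℝ) + 1) * var M 0 N ≤ N * var g 0 N := by
  have h' : IsMax N (fun i => g (N - i)) (fun i => M (N - i)) := (R.refl N g M).1 h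
  exact general_sharp R h (R.twoA R.tan R.gapB R.badP R.cc2 N g M h hT) (R.twoC N g M h hT)
    (R.twoA R.tan R.gapB R.badP R.cc2 N _ _ h' (twoComp_refl hT)) (R.twoC N _ _ h' (twoComp_refl hT)) hi h0

theorem small_sharp (R : Rows3) (h : IsMax N g M) (hN : N ≤ 9) {i₀ : ℕ} (hi : i₀ ≤ N)
    (h0 : g i₀ = 0) : ((N : ℝ) + 1) * var M 0 N ≤ N * var g 0 N := by
  have h' : IsMax N (fun i => g (N - i)) (fun i => M (N - i)) := (R.refl N g M).1 h
  obtain ⟨a, b⟩ := R.small R.tan R.gapB R.badP N g M hN h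
  obtain ⟨c, d⟩ := R.small R.tan R.gapB R.badP N _ _ hN h'
  exact general_sharp R h a b c d hi h0

/-- every superlevel set of `u` has at most two components -/
def TwoComponents {n : ℕ} (u : Fin n → ℝ) : Prop :=
  ∀ (s : ℝ) (a b c d e : Fin n), a < b → b < c → c < d → d < e →
    ¬ (s < u a ∧ u b ≤ s ∧ s < u c ∧ u d ≤ s ∧ s < u e)

/-- transfer of a sharp inequality to the path graph -/
theorem graph_of (N : ℕ) (f : Fin (N + 1) → ℝ)
    (H : ∀ m : ℝ, (∀ v, m ≤ |f v|) → ∀ i₀ : ℕ, i₀ ≤ N → Helper51_Max.ext (fun v => |f v| - m) i₀ = 0 →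
      ((N : ℝ) + 1) * var (Helper51_Max.ext (fun v => maximal (pathGraph (N + 1)) f v - m)) 0 N ≤
        N * var (Helper51_Max.ext (fun v => |f v| - m)) 0 N) :
    variation (pathGraph (N + 1)) (maximal (pathGraph (N + 1)) f) ≤
      (1 - 1 / ((N + 1 : ℕ) : ℝ)) * variation (pathGraph (N + 1)) f := by
  obtain ⟨v₀, -, hv₀⟩ := Finset.exists_min_image (univ : Finset (Fin (N + 1))) (fun v => |f v|)
    ⟨0, mem_univ _⟩
  have hm : ∀ v, |f v₀| ≤ |f v| := fun v => hv₀ v (mem_univ _)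
  have hv0 : v₀.val ≤ N := by have := v₀.isLt; omega
  have h0 : Helper51_Max.ext (fun v => |f v| - |f v₀|) v₀.val = 0 := by
    rw [ext_sub _ _ v₀.isLt]; simp
  have e1 := H |f v₀| hm v₀.val hv0 h0
  rw [var_ext] at e1
  have e2 := var_abs_ext f |f v₀|
  have hN : (0 : ℝ) ≤ N := Nat.cast_nonneg N
  have e3 := mul_le_mul_of_nonneg_left e2 hN
  have h4 : (1 - 1 / (((N + 1 : ℕ)) : ℝ)) = N / ((N : ℝ) + 1) := by
    push_cast; field_simp; ring
  rw [h4, div_mul_eq_mul_div, le_div_iff₀ (by linarith)]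
  linarith

/-- the sharp constant for all functions on paths with at most ten vertices -/
theorem graph_small (R : Rows3) (n : ℕ) (hn : n ≤ 10) (f : Fin n → ℝ) :
    variation (pathGraph n) (maximal (pathGraph n) f) ≤
      (1 - 1 / (n : ℝ)) * variation (pathGraph n) f := by
  rcases n with _ | N
  · rw [variation_zero, variation_zero]; simp
  exact graph_of N f (fun m hm i₀ hi h0 => small_sharp R (isMax_ext f m hm) (by omega) hi h0)

/-- the sharp constant for functions whose superlevel sets have at most two components -/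
theorem graph_twoComp (R : Rows3) (n : ℕ) (f : Fin n → ℝ) (h2 : TwoComponents fun v => |f v|) :
    variation (pathGraph n) (maximal (pathGraph n) f) ≤
      (1 - 1 / (n : ℝ)) * variation (pathGraph n) f := by
  rcases n with _ | N
  · rw [variation_zero, variation_zero]; simp
  refine graph_of N f (fun m hm i₀ hi h0 => twoComp_sharp R (isMax_ext f m hm) ?_ hi h0)
  intro a b c d e hab hbc hcd hde he ⟨k1, k2, k3, k4, k5, k6⟩
  rw [ext_sub _ _ (show b < N + 1 by omega), ext_sub _ _ (show a < N + 1 by omega)] at k1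
  rw [ext_sub _ _ (show b < N + 1 by omega), ext_sub _ _ (show c < N + 1 by omega)] at k2
  rw [ext_sub _ _ (show b < N + 1 by omega), ext_sub _ _ (show e < N + 1 by omega)] at k3
  rw [ext_sub _ _ (show d < N + 1 by omega), ext_sub _ _ (show a < N + 1 by omega)] at k4
  rw [ext_sub _ _ (show d < N + 1 by omega), ext_sub _ _ (show c < N + 1 by omega)] at k5
  rw [ext_sub _ _ (show d < N + 1 by omega), ext_sub _ _ (show e < N + 1 by omega)] at k6
  exact h2 (max |f ⟨b, by omega⟩| |f ⟨d, by omega⟩|) ⟨a, by omega⟩ ⟨b, by omega⟩ ⟨c, by omega⟩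
    ⟨d, by omega⟩ ⟨e, by omega⟩ (Fin.lt_def.mpr hab) (Fin.lt_def.mpr hbc) (Fin.lt_def.mpr hcd)
    (Fin.lt_def.mpr hde) ⟨max_lt (by linarith) (by linarith), le_max_left _ _,
      max_lt (by linarith) (by linarith), le_max_right _ _, max_lt (by linarith) (by linarith)⟩

end Pool.Agent.TMX
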