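import Pool.Agent.TMX.Stmts4
import Pool.Agent.TMX.Asm3

/-!
# Squad TMX: assembly of the fourth list
-/

namespace Pool.Agent.TMX

open Finset
open SimpleGraph (pathGraph)
open Pool.Agent.Helper51_Max
open Pool.Agent.Helper37_EM (var var_add g_le isMax_ext var_ext var_abs_ext ext_sub)

/-- the rows used for one detached maximum -/
structure Rows4 : Prop where
  r3 : Rows3
  cmin : CMin
  chb : ChB
  chr : ChR
  chd : ChD
  chf : ChF
  chm : ChM
  vpl : VPl
  xr3 : XR3
  gain1b : Gain1b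
  gain3b : Gain3b
  geoR : GeoR
  vbadL : VBadL
  vbad : VBad
  nc : NC
  trr : TrR
  oneA : OneA

variable {N : ℕ} {g M : ℕ → ℝ}

theorem gap_order {p p' s t : ℕ} (G : Gap N g M p p') (H : Gap N g M s t) (hne : p ≠ s) :
    p' ≤ s ∨ t ≤ p := by
  rcases lt_or_gt_of_ne hne with h | h
  · left
    by_contra hc
    push Not at hc
    exact G.none s h hc H.left
  · right
    by_contra hc
    push Not at hc
    exact H.none p h hc G.left

theorem gap_right {p p' t : ℕ} (G : Gap N g M p p') (H : Gap N g M p t) : p' = t := by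
  rcases lt_trichotomy p' t with h | h | h
  · exact absurd G.right (H.none p' G.lt h)
  · exact h
  · exact absurd H.right (G.none t H.lt h)


/-- one detached maximum, the low point `c` is not left of the gap -/
theorem oneR (R : Rows4) (h : IsMax N g M) (one : OneDet N g M) {s₀ t₀ y z y' r c : ℕ}
    (G : Gap N g M s₀ t₀) (geo : Geo N g M y z y' r) (hy : s₀ ≤ y) (hy' : y' ≤ t₀)
    (top : ∀ v, y ≤ v → v ≤ y' → M v ≤ M z) (hQ : Qv g M s₀ t₀ = M y + M y' - M z)
    (c1 : 2 * y' ≤ c + z + r) (c2 : c + z ≤ 2 * y + r) (cy : g c ≤ M y) (cy' : g c ≤ M y')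
    (cmin : ∀ i, 2 * y' ≤ i + z + r → i + z ≤ 2 * y + r → g c ≤ g i)
    (hj : ∃ j, j ≤ z + r ∧ y' < j ∧ 2 * y + r < j + z ∧ M z < g j) (hsc : s₀ ≤ c)
    {i₀ : ℕ} (hi : i₀ ≤ N) (h0 : g i₀ = 0) : ((N : ℝ) + 1) * var M 0 N ≤ N * var g 0 N := by
  obtain ⟨pf, pl, h1, h2, h3, h4, h5, h6⟩ := R.r3.pex R.r3.tan R.r3.endG R.r3.k1 N g M h
  have hA := R.oneA R.r3.badP N g M h one
  have hplN : pl ≤ N := h2.1
  have ht₀N : t₀ ≤ N := G.right.1
  have bump1 : ∀ i, y ≤ i → i ≤ y' → M i ≤ M z ∧ g i < M z := fun i a b =>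
    ⟨top i a b, R.r3.badP N g M h s₀ t₀ y z y' G hy geo.yz geo.zz hy' geo.My geo.Mz top i a b⟩
  have plain : ∀ p p', Gap N g M p p' → p ≠ s₀ → ∃ v, p ≤ v ∧ v ≤ p' ∧ Qv g M p p' = M v := by
    intro p p' G' hne
    rcases R.r3.gshape R.r3.dec R.r3.varS R.r3.tan R.r3.gapB R.r3.badP N g M h p p' G' (hA p p' G') with
      hv | ⟨y₂, z₂, z₂', r₂, geo₂, k1, k2, d1, u1, d2, u2, -, -, -⟩
    · exact hv
    · exfalso
      have top₂ : ∀ v, y₂ ≤ v → v ≤ z₂' → M v ≤ M z₂ := by
        intro v a b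
        rcases le_total v z₂ with hc | hc
        · exact u1 v z₂ a hc le_rfl
        · exact d2 z₂ v le_rfl hc b
      have bump2 : ∀ i, y₂ ≤ i → i ≤ z₂' → M i ≤ M z₂ ∧ g i < M z₂ := fun i a b =>
        ⟨top₂ i a b, R.r3.badP N g M h p p' y₂ z₂ z₂' G' k1 geo₂.yz geo₂.zz k2 geo₂.My geo₂.Mz top₂ i a b⟩
      have hp'N : p' ≤ N := G'.right.1
      rcases gap_order G' G hne with hc | hc
      · exact one y₂ z₂ z₂' y z y' geo₂.yz geo₂.zz (by omega) geo.yz geo.zz (by omega) geo₂.My geo₂.Mz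
          geo.My geo.Mz bump2 bump1
      · exact one y z y' y₂ z₂ z₂' geo.yz geo.zz (by omega) geo₂.yz geo₂.zz (by omega) geo.My geo.Mz
          geo₂.My geo₂.Mz bump1 bump2
  have hvarM : var M 0 N + M 0 + M N = g pf + var M pf pl + g pl := by
    have v1 := R.r3.varS.1 M 0 pf (Nat.zero_le _) h4
    have v2 := R.r3.varS.2.1 M pl N hplN h5
    have s1 : var M 0 N = var M 0 pf + var M pf N := var_add (Nat.zero_le _) (h3.trans hplN)
    have s2 : var M pf N = var M pf pl + var M pl N := var_add h3 hplN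
    have e1 : M pf = g pf := le_antisymm h1.2.1 (g_le h h1.1)
    have e2 : M pl = g pl := le_antisymm h2.2.1 (g_le h h2.1)
    linarith
  have key : ∃ q T, q ≤ N ∧ Ch N g pf q T ∧ g pf + T + g q = var M 0 N + M 0 + M N := by
    rcases le_or_gt c t₀ with hc | hc
    · refine ⟨pl, var M pf pl, hplN, ?_, hvarM.symm⟩
      refine R.chm R.chb N g M h pf pl h1 h2 h3 (fun p p' G' _ hp' => ?_)
      by_cases hps : p = s₀
      · subst hps
        have e := gap_right G' G
        subst e
        rw [hQ]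
        exact R.vbad R.vbadL R.geoR R.r3.refl R.r3.gapI R.r3.gainP R.r3.gain0 R.r3.lastK R.xr3 R.gain1b
          R.gain3b N g M h y z y' r c y y' p p'
          ⟨geo, top, c1, c2, cy, cy', cmin, geo, le_rfl, le_rfl, hsc, hc, ht₀N, Or.inl rfl, Or.inl rfl⟩
      · obtain ⟨v, a, b, e⟩ := plain p p' G' hps
        rw [e]
        exact R.vpl R.r3.reach R.r3.meanS N g M h p p' v (M v) a b G'.right.1 le_rfl
    · obtain ⟨j, j1, j2, j3, j4⟩ := hj
      exact R.trr R.chb R.chm R.r3.varS R.r3.reach R.r3.meanS R.vpl R.vbad R.nc R.vbadL R.geoR R.r3.refl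
        R.r3.gapI R.r3.gainP R.r3.gain0 R.r3.lastK R.xr3 R.gain1b R.gain3b N g M h pf pl s₀ t₀ y z y' r c j
        h1 h2 h4 h5 h6 G plain geo hy hy' top hQ c1 c2 cy cy' cmin hc j1 j2 j3 j4
  obtain ⟨q, T, hq, hch, hT⟩ := key
  have e := R.chf R.chb R.chr R.chd R.r3.vb R.r3.reach R.r3.meanS R.r3.refl R.r3.refl2 N g M h i₀ hi h0
    pf q T hch hq
  rw [hT] at e
  have e2 : var M 0 N + M 0 + M N - M 0 - M N = var M 0 N := by ring
  rwa [e2] at e

theorem oneDet_refl (one : OneDet N g M) : OneDet N (fun i => g (N - i)) (fun i => M (N - i)) := by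
  intro a b c a' b' c' h1 h2 h3 h4 h5 h6 k1 k2 k3 k4 k5 k6
  refine one (N - c') (N - b') (N - a') (N - c) (N - b) (N - a) (by omega) (by omega) (by omega) (by omega)
    (by omega) (by omega) k4 k3 k2 k1 ?_ ?_
  · intro i hi1 hi2
    have e := k6 (N - i) (by omega) (by omega)
    simp only [show N - (N - i) = i by omega] at e
    exact e
  · intro i hi1 hi2
    have e := k5 (N - i) (by omega) (by omega)
    simp only [show N - (N - i) = i by omega] at e
    exact e

/-- the sharp inequality if `M` has at most one detached local maximum -/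
theorem oneDet_sharp (R : Rows4) (h : IsMax N g M) (one : OneDet N g M) {i₀ : ℕ} (hi : i₀ ≤ N)
    (h0 : g i₀ = 0) : ((N : ℝ) + 1) * var M 0 N ≤ N * var g 0 N := by
  have hA := R.oneA R.r3.badP N g M h one
  by_cases hb : ∃ s₀ t₀, Gap N g M s₀ t₀ ∧ ∃ y z z' r, Geo N g M y z z' r ∧ s₀ ≤ y ∧ z' ≤ t₀ ∧
      Dn M s₀ y ∧ Up M y z ∧ Dn M z z' ∧ Up M z' t₀ ∧ Qv g M s₀ t₀ = M y + M z' - M z ∧
      (∃ i, z ≤ i + r ∧ i < y ∧ i + r + z < 2 * z' ∧ M z < g i) ∧
      (∃ j, j ≤ z + r ∧ z' < j ∧ 2 * y + r < j + z ∧ M z < g j)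
  · obtain ⟨s₀, t₀, G, y, z, y', r, geo, k1, k2, d1, u1, d2, u2, hQ, hi', hj'⟩ := hb
    have top : ∀ v, y ≤ v → v ≤ y' → M v ≤ M z := by
      intro v a b
      rcases le_total v z with hc | hc
      · exact u1 v z a hc le_rfl
      · exact d2 z v le_rfl hc b
    obtain ⟨c, c1, c2, c3, c4, c5⟩ := R.cmin N g M h y z y' r geo
    rcases le_or_gt s₀ c with hc | hc
    · exact oneR R h one G geo k1 k2 top hQ c1 c2 c3 c4 c5 hj' hc hi h0
    · have h' : IsMax N (fun i => g (N - i)) (fun i => M (N - i)) := (R.r3.refl N g M).1 h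
      have ht₀N : t₀ ≤ N := G.right.1
      have hyz := geo.yz
      have hzz := geo.zz
      have hst := G.lt
      have hrz := geo.rz
      have hrN := geo.rN
      have sub : ∀ x, x ≤ N → N - (N - x) = x := fun x hx => by omega
      have G' := (R.r3.refl2 N g M).2.1 s₀ t₀ G
      have hv := (R.r3.refl2 N M M).2.2.1
      obtain ⟨i, i1, i2, i3, i4⟩ := hi'
      have e := oneR R h' (oneDet_refl one) (s₀ := N - t₀) (t₀ := N - s₀) (y := N - y') (z := N - z)
        (y' := N - y) (r := r) (c := N - c) (i₀ := N - i₀) G' (R.geoR N g M y z y' r geo) (by omega)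
        (by omega)
        (fun v a b => by
          show M (N - v) ≤ M (N - (N - z))
          rw [sub z (by omega)]
          exact top (N - v) (by omega) (by omega))
        (by
          unfold Qv at hQ ⊢
          have e1 : var (fun i => M (N - i)) 0 (N - s₀) =
              var (fun i => M (N - i)) 0 (N - t₀) + var (fun i => M (N - i)) (N - t₀) (N - s₀) :=
            var_add (Nat.zero_le _) (by omega)
          rw [hv s₀ (by omega), hv t₀ (by omega)] at e1
          have e2 : var M s₀ N = var M s₀ t₀ + var M t₀ N := var_add (by omega) (by omega)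
          show (g (N - (N - t₀)) + g (N - (N - s₀)) - var (fun i => M (N - i)) (N - t₀) (N - s₀)) / 2 =
            M (N - (N - y')) + M (N - (N - y)) - M (N - (N - z))
          rw [sub t₀ ht₀N, sub s₀ (by omega), sub y' (by omega), sub y (by omega), sub z (by omega)]
          linarith)
        (by omega) (by omega)
        (by show g (N - (N - c)) ≤ M (N - (N - y')); rw [sub c (by omega), sub y' (by omega)]; exact c4)
        (by show g (N - (N - c)) ≤ M (N - (N - y)); rw [sub c (by omega), sub y (by omega)]; exact c3)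
        (fun k a b => by
          show g (N - (N - c)) ≤ g (N - k)
          rw [sub c (by omega)]
          exact c5 (N - k) (by omega) (by omega))
        ⟨N - i, by omega, by omega, by omega, by
          show M (N - (N - z)) < g (N - (N - i))
          rw [sub z (by omega), sub i (by omega)]
          exact i4⟩
        (by omega) (by omega) (by show g (N - (N - i₀)) = 0; rw [sub i₀ hi]; exact h0)
      rw [(R.r3.refl N g M).2.2, (R.r3.refl N M M).2.2] at e
      exact e
  · obtain ⟨pf, pl, h1, h2, h3, h4, h5, h6⟩ := R.r3.pex R.r3.tan R.r3.endG R.r3.k1 N g M h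
    have hplN : pl ≤ N := h2.1
    have hch : Ch N g pf pl (var M pf pl) := by
      refine R.chm R.chb N g M h pf pl h1 h2 h3 (fun p p' G' _ hp' => ?_)
      rcases R.r3.gshape R.r3.dec R.r3.varS R.r3.tan R.r3.gapB R.r3.badP N g M h p p' G' (hA p p' G') with
        ⟨v, a, b, e⟩ | hbad
      · rw [e]
        exact R.vpl R.r3.reach R.r3.meanS N g M h p p' v (M v) a b G'.right.1 le_rfl
      · exact absurd ⟨p, p', G', hbad⟩ hb
    have e := R.chf R.chb R.chr R.chd R.r3.vb R.r3.reach R.r3.meanS R.r3.refl R.r3.refl2 N g M h i₀ hi h0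
      pf pl _ hch hplN
    have v1 := R.r3.varS.1 M 0 pf (Nat.zero_le _) h4
    have v2 := R.r3.varS.2.1 M pl N hplN h5
    have s1 : var M 0 N = var M 0 pf + var M pf N := var_add (Nat.zero_le _) (h3.trans hplN)
    have s2 : var M pf N = var M pf pl + var M pl N := var_add h3 hplN
    have e1 : M pf = g pf := le_antisymm h1.2.1 (g_le h h1.1)
    have e2 : M pl = g pl := le_antisymm h2.2.1 (g_le h h2.1)
    have e3 : g pf + var M pf pl + g pl - M 0 - M N = var M 0 N := by linarith
    rwa [e3] at e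

/-- a detached local maximum of `Mf`: `Mf` has its maximum over the interval `[a, c]` at the inner vertex `b`, it is
smaller at `a` and at `c`, and `|f| < Mf b` on `[a, c]` -/
def Detached {n : ℕ} (f : Fin n → ℝ) (a b c : Fin n) : Prop :=
  a < b ∧ b < c ∧ maximal (pathGraph n) f a < maximal (pathGraph n) f b ∧
    maximal (pathGraph n) f c < maximal (pathGraph n) f b ∧
    ∀ v, a ≤ v → v ≤ c → maximal (pathGraph n) f v ≤ maximal (pathGraph n) f b ∧
      |f v| < maximal (pathGraph n) f b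

/-- `Mf` has at most one detached local maximum -/
def OneDetached {n : ℕ} (f : Fin n → ℝ) : Prop :=
  ∀ a b c a' b' c' : Fin n, Detached f a b c → Detached f a' b' c' → ¬ c ≤ a'

/-- the sharp constant if `Mf` has at most one detached local maximum -/
theorem graph_oneDet (R : Rows4) (n : ℕ) (f : Fin n → ℝ) (h1 : OneDetached f) :
    variation (pathGraph n) (maximal (pathGraph n) f) ≤
      (1 - 1 / (n : ℝ)) * variation (pathGraph n) f := by
  rcases n with _ | N
  · rw [variation_zero, variation_zero]; simp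
  refine graph_of N f (fun m hm i₀ hi h0 => oneDet_sharp R (isMax_ext f m hm) ?_ hi h0)
  intro a b c a' b' c' k1 k2 k3 k4 k5 k6 q1 q2 q3 q4 q5 q6
  have hg : ∀ i (hi : i < N + 1), Helper51_Max.ext (fun v => |f v| - m) i = |f ⟨i, hi⟩| - m :=
    fun i hi => ext_sub (fun v => |f v|) m hi
  have hM : ∀ i (hi : i < N + 1), Helper51_Max.ext (fun v => maximal (pathGraph (N + 1)) f v - m) i =
      maximal (pathGraph (N + 1)) f ⟨i, hi⟩ - m :=
    fun i hi => ext_sub (fun v => maximal (pathGraph (N + 1)) f v) m hi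
  rw [hM a (by omega), hM b (by omega)] at q1
  rw [hM c (by omega), hM b (by omega)] at q2
  rw [hM a' (by omega), hM b' (by omega)] at q3
  rw [hM c' (by omega), hM b' (by omega)] at q4
  refine h1 ⟨a, by omega⟩ ⟨b, by omega⟩ ⟨c, by omega⟩ ⟨a', by omega⟩ ⟨b', by omega⟩ ⟨c', by omega⟩
    ⟨Fin.lt_def.mpr k1, Fin.lt_def.mpr k2, by linarith, by linarith, fun v hv1 hv2 => ?_⟩
    ⟨Fin.lt_def.mpr k4, Fin.lt_def.mpr k5, by linarith, by linarith, fun v hv1 hv2 => ?_⟩
    (Fin.le_def.mpr k3)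
  · have e := q5 v.val (Fin.le_def.mp hv1) (Fin.le_def.mp hv2)
    rw [hM v.val v.isLt, hM b (by omega), hg v.val v.isLt] at e
    simp only [Fin.eta] at e
    exact ⟨by linarith [e.1], by linarith [e.2]⟩
  · have e := q6 v.val (Fin.le_def.mp hv1) (Fin.le_def.mp hv2)
    rw [hM v.val v.isLt, hM b' (by omega), hg v.val v.isLt] at e
    simp only [Fin.eta] at e
    exact ⟨by linarith [e.1], by linarith [e.2]⟩

end Pool.Agent.TMX
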