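import Pool.Agent.TMX.Asm2
import Pool.Agent.TMX.Asm4
import Pool.Agent.Helper11_TMX.ChF
import Pool.Agent.Helper12_TMX.EndG
import Pool.Agent.Helper12_TMX.GeoR
import Pool.Agent.Helper16_TMX.GShape
import Pool.Agent.Helper16_TMX.TwoC
import Pool.Agent.Helper16_TMX.VarS
import Pool.Agent.Helper16_TMX.XR3
import Pool.Agent.Helper21_TMX.Tan
import Pool.Agent.Helper23_TMX.Gain0
import Pool.Agent.Helper24_TMX.FB
import Pool.Agent.Helper24_TMX.PEx
import Pool.Agent.Helper25_TMX.Gain1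
import Pool.Agent.Helper25_TMX.GainP
import Pool.Agent.Helper26_TMX.Gain2
import Pool.Agent.Helper27_TMX.ChB
import Pool.Agent.Helper27_TMX.VarC
import Pool.Agent.Helper28_TMX.GPl
import Pool.Agent.Helper29_TMX.Gain1b
import Pool.Agent.Helper30_TMX.ChD
import Pool.Agent.Helper32_TMX.A2
import Pool.Agent.Helper39_TMX.XR2
import Pool.Agent.Helper40_TMX.DInd
import Pool.Agent.Helper40_TMX.VB
import Pool.Agent.Helper43_TMX.VPl
import Pool.Agent.Helper47_TMX.NC
import Pool.Agent.Helper48_TMX.TwoA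
import Pool.Agent.Helper49_TMX.ABu
import Pool.Agent.Helper49_TMX.BadP
import Pool.Agent.Helper49_TMX.CC2
import Pool.Agent.Helper49_TMX.Fin
import Pool.Agent.Helper49_TMX.GapI
import Pool.Agent.Helper49_TMX.Refl2
import Pool.Agent.Helper50_TMX.AR
import Pool.Agent.Helper50_TMX.Gain3
import Pool.Agent.Helper50_TMX.XR
import Pool.Agent.Helper54_TMX.Reach
import Pool.Agent.Helper57_TMX.AC
import Pool.Agent.Helper57_TMX.GBad
import Pool.Agent.Helper58_TMX.Dec
import Pool.Agent.Helper5_TMX.VBadL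
import Pool.Agent.Helper60_TMX.GapB
import Pool.Agent.Helper62_TMX.A3
import Pool.Agent.Helper65_TMX.Refl
import Pool.Agent.Helper66_TMX.ChM
import Pool.Agent.Helper70_TMX.AL
import Pool.Agent.Helper70_TMX.ChR
import Pool.Agent.Helper70_TMX.LastK
import Pool.Agent.Helper70_TMX.One
import Pool.Agent.Helper70_TMX.Small
import Pool.Agent.Helper77_TMX.Gain3b
import Pool.Agent.Helper81_TMX.MeanS
import Pool.Agent.Helper81_TMX.VBad
import Pool.Agent.Helper85_TMX.K1
import Pool.Agent.Helper89_TMX.TrR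
import Pool.Agent.Helper8_TMX.CMin
import Pool.Agent.Helper8_TMX.OneA
import Pool.Agent.Helper95_TMX.VM

/-!
# Squad TMX: all rows of the lists 2, 3 and 4
-/

namespace Pool.Agent.TMX

theorem rows2 : Rows2 :=
  ⟨H21.tan, H65.refl, H49.gapI, H58.dec, H16.varS, H85.k1, H12.endG, H54.reach, H81.meanS,
    H27.varC, H60.gapB, H8.cMin, H25.gainP, H23.gain0, H70.lastK, H50.xr, H25.gain1, H26.gain2,
    H24.fb, H70.one, H32.a2, H62.a3, H49.aBu, H57.ac, H70.al, H50.ar⟩

theorem rows3 : Rows3 :=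
  ⟨H21.tan, H65.refl, H49.gapI, H58.dec, H16.varS, H85.k1, H12.endG, H54.reach, H81.meanS,
    H60.gapB, H25.gainP, H23.gain0, H70.lastK, H25.gain1, H40.vB, H24.pEx, H28.gPl, H39.xr2,
    H50G3.gain3, H57.gBad, H49.badP, H16.gShape, H95.vm, H40.dInd, H49.fin1, H49.fin2, H49.refl2,
    H70.small, H49.cc2, H48.twoA, H16.twoC⟩

theorem rows4 : Rows4 :=
  ⟨rows3, H8.cMin, H27.chB, H70.chR, H30.chD, H11.chF, H66.chM, H43.vPl, H16.xr3, H29.gain1b,
    H77Gain3b.gain3b, H12.geoR, H5.vBadL, H81.vBad, H47.nc, H89.trR, H8.oneA⟩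

end Pool.Agent.TMX
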