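import Pool.Agent.TMX.Stmts

/-!
# Squad TMX: assembly from the rows
-/

namespace Pool.Agent.TMX

open Finset
open Pool.Agent.Helper51_Max (I IsMax)
open Pool.Agent.Helper37_EM (var var_add abs_le_var g_le main_equal_minima)

variable {N : ℕ} {g M : ℕ → ℝ} {k w l : ℕ}

/-- the case of a maximal function with one maximum -/
theorem one_max (hV : VarS) (hK : K1) (h : IsMax N g M) {κ : ℕ} (hκ : κ ≤ N) (hu : Up M 0 κ)
    (hd : Dn M κ N) (hm : M κ ≤ g κ) : ((N : ℝ) + 1) * var M 0 N ≤ N * var g 0 N := by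
  obtain ⟨i₁, hi₁, hmin₁⟩ := Finset.exists_min_image (Icc 0 κ) g ⟨0, by simp⟩
  obtain ⟨i₂, hi₂, hmin₂⟩ := Finset.exists_min_image (Icc κ N) g ⟨κ, by simp [hκ]⟩
  rw [mem_Icc] at hi₁ hi₂
  obtain ⟨k1, k2, -, -⟩ := hK N g M h
  have e1 := k1 κ (g i₁) hκ (fun i hi => hmin₁ i (by simp [hi]))
  have e2 := k2 κ (g i₂) hκ (fun i hi hi' => hmin₂ i (by rw [mem_Icc]; exact ⟨hi, hi'⟩))
  have v1 : var M 0 κ = M κ - M 0 := hV.1 M 0 κ (Nat.zero_le _) hu
  have v2 : var M κ N = M κ - M N := hV.2.1 M κ N hκ hd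
  have v3 : var M 0 N = var M 0 κ + var M κ N := (var_add (Nat.zero_le _) hκ)
  have w1 : var g 0 N = var g 0 i₁ + var g i₁ N := (var_add (Nat.zero_le _) (hi₁.2.trans hκ))
  have w2 : var g i₁ N = var g i₁ κ + var g κ N := (var_add hi₁.2 hκ)
  have w3 : var g κ N = var g κ i₂ + var g i₂ N := (var_add hi₂.1 hi₂.2)
  have a1 := abs_le_var g hi₁.2
  have a2 := abs_le_var g hi₂.1
  have a3 := (abs_nonneg _).trans (abs_le_var g (Nat.zero_le i₁))
  have a4 := (abs_nonneg _).trans (abs_le_var g hi₂.2)
  have b1 := neg_abs_le (g i₁ - g κ)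
  have b2 := le_abs_self (g κ - g i₂)
  have hN : (0 : ℝ) ≤ N := Nat.cast_nonneg N
  have c1 : 2 * g κ - g i₁ - g i₂ ≤ var g 0 N := by linarith
  have c2 := mul_le_mul_of_nonneg_left c1 hN
  have c3 : ((N : ℝ) + 1) * M κ ≤ ((N : ℝ) + 1) * g κ := mul_le_mul_of_nonneg_left hm (by linarith)
  rw [v3, v1, v2]
  linarith

/-- the value of the variation of a function with at most two local maxima -/
theorem var_bi (hV : VarS) (hb : Bi N g k w l) :
    var g 0 N = 2 * g k + 2 * g l - 2 * g w - g 0 - g N := by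
  have v1 := hV.1 g 0 k (Nat.zero_le _) hb.up1
  have v2 := hV.2.1 g k w hb.kw hb.dn1
  have v3 := hV.1 g w l hb.wl hb.up2
  have v4 := hV.2.1 g l N hb.lN hb.dn2
  have s1 : var g 0 N = var g 0 k + var g k N := var_add (Nat.zero_le _) (hb.kw.trans (hb.wl.trans hb.lN))
  have s2 : var g k N = var g k w + var g w N := var_add hb.kw (hb.wl.trans hb.lN)
  have s3 : var g w N = var g w l + var g l N := var_add hb.wl hb.lN
  linarith

theorem Bi.le_mid (hb : Bi N g k w l) {i : ℕ} (h1 : k ≤ i) (h2 : i ≤ l) : g w ≤ g i := by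
  rcases le_total i w with h | h
  · exact hb.dn1 i w h1 h le_rfl
  · exact hb.up2 w i le_rfl h h2

/-- the sharp inequality if `g` vanishes at the right end -/
theorem sharpR (hTan : Tan) (hMon : Mon) (hCov : Cov) (hGS : GapS) (hGI : GapI) (hBG : BGap) (hT12 : T12)
    (hCC : CC) (hUni : Uni) (hDec : Dec) (hV : VarS) (hK : K1) (hPre : Pre) (hXB : XB) (hGain : Gain)
    (h : IsMax N g M) (hb : Bi N g k w l) (hN0 : g N = 0) :
    ((N : ℝ) + 1) * var M 0 N ≤ N * var g 0 N := by
  have hkl : k ≤ l := hb.kw.trans hb.wl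
  have hkN : k ≤ N := hkl.trans hb.lN
  have hmonL : Up M 0 k := (hMon hTan N g M h).1 k hkN hb.up1
  have hmonR : Dn M l N := (hMon hTan N g M h).2 l hb.dn2
  obtain ⟨cov1, cov2⟩ := hCov hTan N g M k w l h hb
  obtain ⟨-, -, -, k4⟩ := hK N g M h
  have hgk := g_le h hkN
  have hgl := g_le h hb.lN
  have hmax : ∀ i, i ≤ N → g i ≤ max (g k) (g l) := by
    intro i hi
    rcases le_total i k with h1 | h1
    · exact le_max_of_le_left (hb.up1 i k (Nat.zero_le _) h1 le_rfl)
    · rcases le_total i w with h2 | h2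
      · exact le_max_of_le_left (hb.dn1 k i le_rfl h1 h2)
      · rcases le_total i l with h3 | h3
        · exact le_max_of_le_right (hb.up2 i l h2 h3 le_rfl)
        · exact le_max_of_le_right (hb.dn2 l i le_rfl h3 hi)
  -- a covered maximum on the left
  by_cases hA : g k < M k
  · have hup : Up M k l := by
      intro i j hi hij hj
      have e1 := cov1 k i hi (hij.trans hj) hA
      exact cov1 i j hij hj (hA.trans_le e1)
    have hup' : Up M 0 l := by
      intro i j _ hij hj
      rcases le_total j k with h1 | h1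
      · exact hmonL i j (Nat.zero_le _) hij h1
      · rcases le_total i k with h2 | h2
        · exact (hmonL i k (Nat.zero_le _) h2 le_rfl).trans (hup k j le_rfl h1 hj)
        · exact hup i j h2 hij hj
    refine one_max hV hK h hb.lN hup' hmonR ?_
    have e1 := k4 l (max (g k) (g l)) hb.lN hmax
    have e2 := hup k l le_rfl hkl le_rfl
    rcases le_total (g k) (g l) with h1 | h1
    · rwa [max_eq_right h1] at e1
    · rw [max_eq_left h1] at e1; linarith
  by_cases hA' : g l < M l
  · have hdn : Dn M k l := by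
      intro i j hi hij hj
      have e1 := cov2 l j (hi.trans hij) hj hb.lN hA'
      exact cov2 j i hi hij (hj.trans hb.lN) (hA'.trans_le e1)
    have hdn' : Dn M k N := by
      intro i j hi hij hj
      rcases le_total j l with h1 | h1
      · exact hdn i j hi hij h1
      · rcases le_total i l with h2 | h2
        · exact (hmonR l j le_rfl h1 hj).trans (hdn i l hi h2 le_rfl)
        · exact hmonR i j h2 hij hj
    refine one_max hV hK h hkN hmonL hdn' ?_
    have e1 := k4 k (max (g k) (g l)) hkN hmax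
    have e2 := hdn k l le_rfl hkl le_rfl
    rcases le_total (g k) (g l) with h1 | h1
    · rw [max_eq_right h1] at e1; linarith
    · rwa [max_eq_left h1] at e1
  push Not at hA hA'
  have hMk : M k = g k := le_antisymm hA hgk
  have hMl : M l = g l := le_antisymm hA' hgl
  -- degenerate cases: only one maximum
  have hwk := hb.dn1 k w le_rfl hb.kw le_rfl
  have hwl := hb.up2 w l le_rfl hb.wl le_rfl
  by_cases hD : g k ≤ g w
  · have hup : Up g 0 l := by
      intro i j _ hij hj
      rcases le_total j k with h1 | h1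
      · exact hb.up1 i j (Nat.zero_le _) hij h1
      · rcases le_total j w with h2 | h2
        · have e1 : g w ≤ g j := hb.dn1 j w h1 h2 le_rfl
          rcases le_total i k with h3 | h3
          · have := hb.up1 i k (Nat.zero_le _) h3 le_rfl; linarith
          · have := hb.dn1 k i le_rfl h3 (hij.trans h2); linarith
        · have e1 : g w ≤ g j := hb.up2 w j le_rfl h2 hj
          rcases le_total i k with h3 | h3
          · have := hb.up1 i k (Nat.zero_le _) h3 le_rfl; linarith
          · rcases le_total i w with h4 | h4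
            · have := hb.dn1 k i le_rfl h3 h4; linarith
            · exact hb.up2 i j h4 hij hj
    exact one_max hV hK h hb.lN ((hMon hTan N g M h).1 l hb.lN hup) hmonR hA'
  by_cases hD' : g l ≤ g w
  · have hdn : Dn g k N := by
      intro i j hi hij hj
      rcases le_total i l with h1 | h1
      · rcases le_total w i with h2 | h2
        · have e1 : g w ≤ g i := hb.up2 w i le_rfl h2 h1
          rcases le_total j l with h3 | h3
          · have := hb.up2 j l (h2.trans hij) h3 le_rfl; linarith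
          · have := hb.dn2 l j le_rfl h3 hj; linarith
        · have e1 : g w ≤ g i := hb.dn1 i w hi h2 le_rfl
          rcases le_total j l with h3 | h3
          · rcases le_total j w with h4 | h4
            · exact hb.dn1 i j hi hij h4
            · have := hb.up2 j l h4 h3 le_rfl; linarith
          · have := hb.dn2 l j le_rfl h3 hj; linarith
      · exact hb.dn2 i j h1 hij hj
    exact one_max hV hK h hkN hmonL ((hMon hTan N g M h).2 k hdn) hA
  push Not at hD hD'
  have hkw : k < w := lt_of_le_of_ne hb.kw (by rintro rfl; exact lt_irrefl _ hD)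
  have hwl' : w < l := lt_of_le_of_ne hb.wl (by rintro rfl; exact lt_irrefl _ hD')
  -- the shape of `M` between `k` and `l`
  obtain ⟨y, z, z', hky, hyz, hzz, hzl, d1, u1, d2, u2⟩ := hDec.2.1 k l M hkl
    (fun a b c d e ha hab hbc hcd hde he h1 h2 h3 h4 =>
      hUni hTan hGS hT12 hCC N g M k w l h hb a b c d e ha hab hbc hcd hde he h1 h2 h3 h4)
  have hzN : z ≤ N := hzz.trans (hzl.trans hb.lN)
  have varM : var M 0 N = 2 * g k + 2 * g l + 2 * M z - 2 * M y - 2 * M z' - M 0 - M N := by
    have v1 := hV.1 M 0 k (Nat.zero_le _) hmonL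
    have v2 := hV.2.1 M k y hky d1
    have v3 := hV.1 M y z hyz u1
    have v4 := hV.2.1 M z z' hzz d2
    have v5 := hV.1 M z' l hzl u2
    have v6 := hV.2.1 M l N hb.lN hmonR
    have s1 : var M 0 N = var M 0 k + var M k N := var_add (Nat.zero_le _) hkN
    have s2 : var M k N = var M k y + var M y N := var_add hky (hyz.trans hzN)
    have s3 : var M y N = var M y z + var M z N := var_add hyz hzN
    have s4 : var M z N = var M z z' + var M z' N := var_add hzz (hzl.trans hb.lN)
    have s5 : var M z' N = var M z' l + var M l N := var_add hzl hb.lN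
    rw [hMk] at v1 v2
    rw [hMl] at v5 v6
    linarith
  have varg := var_bi hV hb
  have hgy : g w ≤ M y := (hb.le_mid hky (hyz.trans (hzz.trans hzl))).trans
    (g_le h (hyz.trans hzN))
  have hgz' : g w ≤ M z' := (hb.le_mid (hky.trans (hyz.trans hzz)) hzl).trans
    (g_le h (hzl.trans hb.lN))
  obtain ⟨p1, p2, p3, p4⟩ := hPre N g M k w l h hb hkw hwl'
  have hg0 := h.nonneg 0
  have hgw := h.nonneg w
  have hgln := h.nonneg l
  have hNn : (0 : ℝ) ≤ N := Nat.cast_nonneg N
  have hNp : (0 : ℝ) < (N : ℝ) + 1 := by linarith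
  -- the gain is nonnegative
  have hgain0 : 0 ≤ M y + M z' - M z - g w := by
    by_cases c1 : M z ≤ M y
    · linarith
    by_cases c2 : M z ≤ M z'
    · linarith
    push Not at c1 c2
    have hyz' : y < z := lt_of_le_of_ne hyz (by rintro rfl; exact lt_irrefl _ c1)
    have hzz' : z < z' := lt_of_le_of_ne hzz (by rintro rfl; exact lt_irrefl _ c2)
    have := hBG hTan hGS hGI N g M k w l h hb y z z' hky hyz' hzz' hzl c1 c2
    linarith
  have key : 2 * g k + 2 * g l - 2 * g w - g 0 ≤
      ((N : ℝ) + 1) * (2 * (M y + M z' - M z - g w) + (M 0 - g 0) + M N) := by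
    by_cases c0 : g 0 ≤ g w
    · have e1 := p1 c0
      have e2 := mul_nonneg hNp.le hgain0
      nlinarith
    · push Not at c0
      have hall : ∀ i, i ≤ l → g w ≤ g i := by
        intro i hi
        rcases le_total i k with h1 | h1
        · exact c0.le.trans (hb.up1 0 i le_rfl (Nat.zero_le _) h1)
        · exact hb.le_mid h1 hi
      have e3 : g l - 2 * g w ≤ 2 * ((N : ℝ) + 1) * (M y + M z' - M z - g w) := by
        by_cases c1 : M z ≤ M y
        · have e4 := p4 (g w) hall z' hzl
          have e5 := mul_le_mul_of_nonneg_left (show M z' - g w ≤ M y + M z' - M z - g w by linarith)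
            hNp.le
          nlinarith
        by_cases c2 : M z ≤ M z'
        · have e4 := p4 (g w) hall y (hyz.trans (hzz.trans hzl))
          have e5 := mul_le_mul_of_nonneg_left (show M y - g w ≤ M y + M z' - M z - g w by linarith)
            hNp.le
          nlinarith
        push Not at c1 c2
        have hyz' : y < z := lt_of_le_of_ne hyz (by rintro rfl; exact lt_irrefl _ c1)
        have hzz' : z < z' := lt_of_le_of_ne hzz (by rintro rfl; exact lt_irrefl _ c2)
        obtain ⟨r, hr⟩ := h.attained z hzN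
        exact hGain hTan hGS hGI hT12 hXB hBG N g M k w l h hb hgw hall y z z' r hky hyz' hzz' hzl c1 c2
          (u1 (z - 1) z (by omega) (by omega) le_rfl) (d2 z (z + 1) le_rfl (by omega) (by omega)) hr
      nlinarith
  rw [varM, varg, hN0]
  nlinarith

/-- the sharp inequality for functions with at most two local maxima and minimum `0` -/
theorem sharp (hTan : Tan) (hMon : Mon) (hCov : Cov) (hGS : GapS) (hGI : GapI) (hBG : BGap) (hT12 : T12)
    (hCC : CC) (hUni : Uni) (hDec : Dec) (hV : VarS) (hK : K1) (hPre : Pre) (hXB : XB) (hGain : Gain)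
    (hRef : Refl) (h : IsMax N g M) (hb : Bi N g k w l) {i₀ : ℕ} (hi₀ : i₀ ≤ N) (h0 : g i₀ = 0) :
    ((N : ℝ) + 1) * var M 0 N ≤ N * var g 0 N := by
  have hkl : k ≤ l := hb.kw.trans hb.wl
  have hNn : (0 : ℝ) ≤ N := Nat.cast_nonneg N
  have hNp : (0 : ℝ) < (N : ℝ) + 1 := by linarith
  by_cases hw : g w = 0
  · have e1 := main_equal_minima h (by
      intro i j m hij hjm hm h1 h2
      have hkj : k < j := by
        by_contra hc
        push Not at hc
        exact absurd (hb.up1 i j (Nat.zero_le _) hij.le hc) (not_le.mpr h1)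
      have hjl : j < l := by
        by_contra hc
        push Not at hc
        exact absurd (hb.dn2 j m hc hjm.le hm) (not_le.mpr h2)
      refine ⟨w, ?_, ?_, hw⟩
      · by_contra hc
        push Not at hc
        exact absurd (hb.up2 i j hc hij.le hjl.le) (not_le.mpr h1)
      · by_contra hc
        push Not at hc
        exact absurd (hb.dn1 j m hkj.le hjm.le hc) (not_le.mpr h2))
    have e2 := mul_le_mul_of_nonneg_left e1 hNp.le
    have e3 : ((N : ℝ) + 1) * ((N / ((N : ℝ) + 1)) * var g 0 N) = N * var g 0 N := by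
      field_simp
    rwa [e3] at e2
  have hwp : 0 < g w := lt_of_le_of_ne (h.nonneg w) (Ne.symm hw)
  have hor : g 0 = 0 ∨ g N = 0 := by
    rcases le_total i₀ k with h1 | h1
    · left
      have := hb.up1 0 i₀ le_rfl (Nat.zero_le _) h1
      have := h.nonneg 0
      linarith
    · rcases le_total i₀ l with h2 | h2
      · have := hb.le_mid h1 h2
        linarith
      · right
        have := hb.dn2 i₀ N h2 hi₀ le_rfl
        have := h.nonneg N
        linarith
  rcases hor with h1 | h1
  · obtain ⟨r1, r2, r3⟩ := hRef N g M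
    have h' := r1 h
    have hb' := r2 k w l hb
    have e1 := sharpR hTan hMon hCov hGS hGI hBG hT12 hCC hUni hDec hV hK hPre hXB hGain h' hb' (by simp [h1])
    rw [r3, (hRef N M M).2.2] at e1
    exact e1
  · exact sharpR hTan hMon hCov hGS hGI hBG hT12 hCC hUni hDec hV hK hPre hXB hGain h hb h1

/-- constant `1` if `M` has at most three local maxima -/
theorem three (hTan : Tan) (hMon : Mon) (hCov : Cov) (hGS : GapS) (hGI : GapI) (hBG : BGap) (hBV3 : BV3)
    (hDec : Dec) (hHM : HM) (hHV : HV) (hEx : ExM) (hV3 : V3) (hV : VarS) (h : IsMax N g M)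
    (hno : ∀ x₁ y₁ x₂ y₂ x₃ y₃ x₄ : ℕ, x₁ < y₁ → y₁ < x₂ → x₂ < y₂ → y₂ < x₃ → x₃ < y₃ →
      y₃ < x₄ → x₄ ≤ N → M y₁ < M x₁ → M y₁ < M x₂ → M y₂ < M x₂ → M y₂ < M x₃ → M y₃ < M x₃ →
      M y₃ < M x₄ → False) : var M 0 N ≤ var g 0 N := by
  obtain ⟨x₁, y₁, x₂, y₂, x₃, a1, a2, a3, a4, a5, b1, b2, b3, b4, b5, b6⟩ := hDec.2.2 N M hno
  obtain ⟨p₁, q₁, p₂, q₂, p₃, c1, c2, c3, c4, c5, c6⟩ :=
    hV3 hBV3 hDec hHM hHV hEx hTan hMon hCov hBG hGS hGI N g M h x₁ y₁ x₂ y₂ x₃ a1 a2 a3 a4 a5
  have d := hV.2.2 N g p₁ q₁ p₂ q₂ p₃ c1 c2 c3 c4 c5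
  have v1 := hV.1 M 0 x₁ (Nat.zero_le _) b1
  have v2 := hV.2.1 M x₁ y₁ a1 b2
  have v3 := hV.1 M y₁ x₂ a2 b3
  have v4 := hV.2.1 M x₂ y₂ a3 b4
  have v5 := hV.1 M y₂ x₃ a4 b5
  have v6 := hV.2.1 M x₃ N a5 b6
  have s1 : var M 0 N = var M 0 x₁ + var M x₁ N := var_add (Nat.zero_le _) (by omega)
  have s2 : var M x₁ N = var M x₁ y₁ + var M y₁ N := var_add a1 (by omega)
  have s3 : var M y₁ N = var M y₁ x₂ + var M x₂ N := var_add a2 (by omega)
  have s4 : var M x₂ N = var M x₂ y₂ + var M y₂ N := var_add a3 (by omega)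
  have s5 : var M y₂ N = var M y₂ x₃ + var M x₃ N := var_add a4 (by omega)
  have e0 := g_le h (Nat.zero_le N)
  have eN := g_le h (le_refl N)
  linarith

end Pool.Agent.TMX
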