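import Pool.Agent.Helper37_EM.Peaks

/-!
# Squad TMX (MP_b61ad0_an): the sharp constant `1 - 1/n` for functions with at most two local maxima

Everything lives on the path `{0, …, N}` (`n = N + 1` vertices).  From the landed files:

* `I N v r = Icc (v - r) (min (v + r) N)` is the ball (`Helper51_Max.I`, truncated subtraction),
  `card_I : (I N v r).card = min (v + r) N + 1 - (v - r)`, `card_I_pos`;
* `IsMax N g M` (`Helper51_Max.IsMax`): `nonneg : ∀ i, 0 ≤ g i`,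
  `le : ∀ v ≤ N, ∀ r, ∑ i ∈ I N v r, g i ≤ M v * ((I N v r).card : ℝ)`,
  `attained : ∀ v ≤ N, ∃ r, M v * ((I N v r).card : ℝ) = ∑ i ∈ I N v r, g i`;
* `Helper37_EM.g_le : IsMax N g M → v ≤ N → g v ≤ M v`, `Helper37_EM.card_pos'`;
* `Helper37_EM.var u a b = ∑ i ∈ Ico a b, |u i - u (i + 1)|` with `var_anti`, `var_mono`, `var_add`,
  `abs_le_var`.

Every row is a `def` (a `Prop`) with a complete proof in its docstring; a row file proves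
`theorem name : Stmt`.  Rows use other rows only as hypotheses (or by importing the row file, if it is
on main).  `M z * card = ∑` is the equation of an OPTIMAL ball of `z`; write `h = M z`, `l = 2 r + 1`.
-/

namespace Pool.Agent.TMX

open Finset
open Pool.Agent.Helper51_Max (I IsMax)
open Pool.Agent.Helper37_EM (var)

/-- `u` is nondecreasing on `[a, b]` -/
def Up (u : ℕ → ℝ) (a b : ℕ) : Prop := ∀ i j, a ≤ i → i ≤ j → j ≤ b → u i ≤ u j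

/-- `u` is nonincreasing on `[a, b]` -/
def Dn (u : ℕ → ℝ) (a b : ℕ) : Prop := ∀ i j, a ≤ i → i ≤ j → j ≤ b → u j ≤ u i

/-- `g` has at most two local maxima on `{0, …, N}`: up to `k`, down to `w`, up to `l`, down -/
structure Bi (N : ℕ) (g : ℕ → ℝ) (k w l : ℕ) : Prop where
  kw : k ≤ w
  wl : w ≤ l
  lN : l ≤ N
  up1 : Up g 0 k
  dn1 : Dn g k w
  up2 : Up g w l
  dn2 : Dn g l N

/-- ROW TAN (easy, 60 lines), tangent balls.  `TanR`: let `I N z r` be an optimal ball of `z`, `z ≤ z' ≤ z + r`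
and `M z' < M z`.  Put `ρ = r - (z' - z)`.  Then `I N z' ρ` is the set of the `i ∈ I N z r` with
`2 z' ≤ i + r + z` (the right ends agree, `z' + ρ = z + r`; omega).  If `g i ≤ M z` for all the other
elements of `I N z r`, then `∑_{I N z' ρ} g = M z |I N z r| - ∑_{others} g ≥ M z |I N z' ρ|`, and `le` gives
`M z ≤ M z'`, a contradiction.  `TanL` is the mirror image. -/
def Tan : Prop := ∀ (N : ℕ) (g M : ℕ → ℝ), IsMax N g M →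
  (∀ z z' r : ℕ, z ≤ z' → z' ≤ N → z' ≤ z + r →
    M z * ((I N z r).card : ℝ) = ∑ i ∈ I N z r, g i → M z' < M z →
    ∃ i ∈ I N z r, i + r + z < 2 * z' ∧ M z < g i) ∧
  (∀ z z' r : ℕ, z' ≤ z → z ≤ N → z ≤ z' + r →
    M z * ((I N z r).card : ℝ) = ∑ i ∈ I N z r, g i → M z' < M z →
    ∃ i ∈ I N z r, 2 * z' + r < i + z ∧ M z < g i)

/-- ROW MON (easy, 40 lines), uses `Tan`.  If `g` is nondecreasing on `[0, k]`, so is `M`: let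
`z ≤ z' ≤ k` and `M z' < M z`, `I N z r` optimal for `z`.  If `z' ≤ z + r`, `TanR` gives `i` with `M z < g i` and
`i + r + z < 2 z'`, so `i < z' ≤ k` and `g i ≤ g z' ≤ M z' < M z`, a contradiction.  If `z + r < z'`, all
`i ∈ I N z r` are `< z'`, so `g i ≤ g z' ≤ M z'` and the average `M z ≤ M z'`.  Mirror image on `[l, N]`. -/
def Mon : Prop := Tan → ∀ (N : ℕ) (g M : ℕ → ℝ), IsMax N g M →
  (∀ k ≤ N, Up g 0 k → Up M 0 k) ∧ (∀ l, Dn g l N → Dn M l N)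

/-- ROW COV (easy, 60 lines), uses `Tan`.  First part: `p ≤ y ≤ l` and `M p > g k` imply `M p ≤ M y`.
Suppose `M y < M p`, let `I N p r` be optimal for `p`.  On `[0, w]` we have `g ≤ g k < M p`.  If `y ≤ p + r`,
`TanR` (with `z = p`, `z' = y`) gives `i` with `M p < g i` and `i + r + p < 2 y`, so `i < y`; since `g i > g k`,
`w < i`, and `g i ≤ g y ≤ M y < M p` by `up2`, a contradiction.  If `p + r < y`, all `i ∈ I N p r` are `< y`;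
if all had `g i < M p` the average would be `< M p`, so some `g i ≥ M p > g k`, `w < i < y ≤ l`, and
`g i ≤ g y ≤ M y < M p`.  Second part: mirror image. -/
def Cov : Prop := Tan → ∀ (N : ℕ) (g M : ℕ → ℝ) (k w l : ℕ), IsMax N g M → Bi N g k w l →
  (∀ p y, p ≤ y → y ≤ l → g k < M p → M p ≤ M y) ∧
  (∀ q y, k ≤ y → y ≤ q → q ≤ N → g l < M q → M q ≤ M y)

/-- ROW GAPS (medium, 120 lines), uses `Tan`.  `y < z < z' ≤ N`, `M y < M z`, `M z' < M z`, `I N z r` optimal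
for `z`, and `g ≤ max (M y) (M z')` on `[y, z']`.  Then
(a) `r < z` and `z + r < N` (the ball touches no end of the path): if `z ≤ r`, the ball of `y` with
radius `z + r - y` is the same set `Icc 0 (min (z+r) N)`, so `M z ≤ M y`; if `N ≤ z + r`, the ball of `z'` with
radius `z' + r - z` is the same set (left end `z - r`), so `M z ≤ M z'`.
(b) `z' ≤ z + r`: otherwise all elements of the ball which are `> y` lie in `(y, z')` and have `g < M z`.  If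
`z ≤ y + r`, `TanL` (`z' := y`) gives `i` in the ball with `2 y + r < i + z`, so `y < i`, and `M z < g i`, a
contradiction.  If `y + r < z`, the whole ball is in `(y, z')` and its average is `< M z`.  Mirror image:
`z ≤ y + r`.
(c) `TanR` at `z'` gives `i` in the ball with `i + r + z < 2 z'` and `M z < g i`; then `i < z'`, and `i < y` because
`g ≤ max (M y) (M z') < M z` on `[y, z']`.  Mirror image: some `j` in the ball with `z' < j`,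
`2 y + r < j + z`, `M z < g j`.
(d) `z' ≤ y + r`: otherwise the ball `[z-r, z+r]` is the disjoint union of `T = [z-r, 2y-(z-r)] = I N y (y-(z-r))`,
`T' = [2z'-(z+r), z+r] = I N z' (z+r-z')` and a set `V` (possibly empty) contained in `[y, z']`, where
`g ≤ max (M y) (M z')`; so `M z (2r+1) = ∑_T + ∑_V + ∑_T' ≤ max (M y) (M z') (2r+1) < M z (2r+1)`. -/
def GapS : Prop := Tan → ∀ (N : ℕ) (g M : ℕ → ℝ), IsMax N g M → ∀ y z z' r : ℕ, y < z → z < z' → z' ≤ N →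
  M y < M z → M z' < M z → M z * ((I N z r).card : ℝ) = ∑ i ∈ I N z r, g i →
  (∀ i, y ≤ i → i ≤ z' → g i ≤ max (M y) (M z')) →
  r < z ∧ z + r < N ∧ z ≤ y + r ∧ z' ≤ z + r ∧ z' ≤ y + r ∧
    (∃ i, z ≤ i + r ∧ i < y ∧ i + r + z < 2 * z' ∧ M z < g i) ∧
    (∃ j, j ≤ z + r ∧ z' < j ∧ 2 * y + r < j + z ∧ M z < g j)

/-- ROW GAPI (easy-medium, 70 lines).  `I N z r = [z-r, z+r]` optimal and full (`r < z`, `z + r < N`),
`y < z < z'`, `z ≤ y + r`, `z' ≤ z + r`, `z' ≤ y + r`.  `T = [z-r, 2y+r-z] = I N y (y+r-z)` has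
`2(y+r-z)+1` elements, `T' = [2z'-z-r, z+r] = I N z' (z+r-z')` has `2(z+r-z')+1` elements, and they cover
`[z-r, z+r]`; `C = T ∩ T' = [2z'-z-r, 2y+r-z]` has `|T| + |T'| - (2r+1)` elements (possibly `0`).  If `u ≤ g` on
`C`: `|T| M y + |T'| M z' ≥ ∑_T g + ∑_T' g = ∑_{[z-r,z+r]} g + ∑_C g ≥ (2r+1) M z + |C| u`, which is the claim. -/
def GapI : Prop := ∀ (N : ℕ) (g M : ℕ → ℝ), IsMax N g M → ∀ (y z z' r : ℕ) (u : ℝ), y < z → z < z' →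
  r < z → z + r < N → z ≤ y + r → z' ≤ z + r → z' ≤ y + r →
  M z * ((I N z r).card : ℝ) = ∑ i ∈ I N z r, g i →
  (∀ i, 2 * z' ≤ i + z + r → i + z ≤ 2 * y + r → u ≤ g i) →
  (2 * (r : ℝ) + 1) * (M z - u) ≤
    (2 * ((y : ℝ) + r - z) + 1) * (M y - u) + (2 * ((z : ℝ) + r - z') + 1) * (M z' - u)

/-- ROW BGAP (easy-medium, 70 lines), uses `GapS`, `GapI`.  `Bi N g k w l`, `k ≤ y < z < z' ≤ l`,
`M y < M z`, `M z' < M z`.  On `[y, z']`: `g ≤ max (g y) (g z') ≤ max (M y) (M z')` (down to `w`, then up).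
`GapS` applies; let `i, j` be its points (c).  With `u = g w`: `u ≤ g` on `[i, j]`: on `[0, k]` because
`g ≥ g i > M z > M y ≥ g y ≥ g w` there (only right of `i`), on `[k, l]` because `g w` is the minimum, on `[l, N]`
because `g ≥ g j > g w` left of `j`.  The set `C` of `GapI` is contained in `[i, j]` (`i + r + z < 2 z'` and
`2 y + r < j + z`).  So `GapI` gives the first inequality with `u = g w`; since `M y, M z' ≥ g w` and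
`2(y+r-z)+1 ≤ 2r+1`, `2(z+r-z')+1 ≤ 2r+1`, the second one follows (`M z + g w ≤ M y + M z'`). -/
def BGap : Prop := Tan → GapS → GapI → ∀ (N : ℕ) (g M : ℕ → ℝ) (k w l : ℕ), IsMax N g M → Bi N g k w l →
  ∀ y z z' : ℕ, k ≤ y → y < z → z < z' → z' ≤ l → M y < M z → M z' < M z → M z + g w ≤ M y + M z'

/-- ROW BV3 (medium, 110 lines), uses `Mon`, `Cov`, `BGap`.  `V₃` for two maxima: for
`x₁ ≤ y₁ ≤ x₂ ≤ y₂ ≤ x₃ ≤ N`, `M x₁ - M y₁ + M x₂ - M y₂ + M x₃ ≤ g k + g l - g w`.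
FIRST two peaks: for `p ≤ y ≤ q ≤ N`: `M p - M y + M q ≤ g k + g l - g w` (**).  `M ≤ max (g k) (g l) ≤ g k + g l - g w`
everywhere (`g w ≤ g k, g l`; the average of `g` is `≤ max g`).  If `y ≤ k`: `M p ≤ M y` (`Mon`), so `≤ M q`.  If `l ≤ y`:
`M q ≤ M y`.  If `k ≤ y ≤ l`: if `g k < M p`, `Cov` gives `M p ≤ M y`; if `g l < M q`, `Cov` gives `M q ≤ M y`;
otherwise `M p ≤ g k`, `M q ≤ g l`, `M y ≥ g y ≥ g w`.
THREE peaks: if `y₁ ≤ k` then `M x₁ ≤ M y₁`, and (**) for `x₂, y₂, x₃`; if `l ≤ y₂` then `M x₃ ≤ M y₂`, and (**) for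
`x₁, y₁, x₂`.  So let `k < y₁ ≤ y₂ < l`.  If `g k < M x₁`, `Cov` gives `M x₁ ≤ M y₁`, (**); if `g l < M x₃`, `Cov` gives
`M x₃ ≤ M y₂`, (**).  So `M x₁ ≤ g k`, `M x₃ ≤ g l`, and we need `M x₂ + g w ≤ M y₁ + M y₂`: if
`M x₂ ≤ M y₁` or `M x₂ ≤ M y₂` this follows from `g w ≤ M y₁, M y₂`; otherwise `y₁ < x₂ < y₂` and it is `BGap`. -/
def BV3 : Prop := Tan → Mon → Cov → BGap → GapS → GapI → ∀ (N : ℕ) (g M : ℕ → ℝ) (k w l : ℕ), IsMax N g M →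
  Bi N g k w l → ∀ x₁ y₁ x₂ y₂ x₃ : ℕ, x₁ ≤ y₁ → y₁ ≤ x₂ → x₂ ≤ y₂ → y₂ ≤ x₃ → x₃ ≤ N →
  M x₁ - M y₁ + M x₂ - M y₂ + M x₃ ≤ g k + g l - g w

/-- ROW T12 (easy-medium, 70 lines), uses `GapS`.  `Bi N g k w l`, `k ≤ y < z < z' ≤ l`, `M y < M z`,
`M z' < M z`, `z` a local maximum of `M` (`M (z-1) ≤ M z`, `M (z+1) ≤ M z`), `I N z r` optimal.  Then
`z ≤ k + 1 + r` (left end `z - r ≤ k + 1`) and `l ≤ z + r + 1` (right end `≥ l - 1`).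
PROOF.  `g ≤ max (g y) (g z') ≤ max (M y) (M z')` on `[y, z']`, so `GapS` applies; let `i` be its point (c):
`z - r ≤ i < y`, `M z < g i`.  Suppose `k + 2 ≤ z - r =: a`.  Since `k ≤ i < y` and `g i > M z > M y ≥ g y`, `i < w`
(otherwise `g i ≤ g y` by `up2`), so `g (a-1), g (a-2) ≥ g a ≥ g i > M z` by `dn1` (`a - 2 ≥ k`).  The ball of `z - 1`
with radius `r + 1` is `[a-2, z+r]` (full, `z + r < N`), its sum is `(2r+1) M z + g (a-1) + g (a-2) > (2r+3) M z`, so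
`M (z-1) > M z`, a contradiction.  Mirror image for the right end. -/
def T12 : Prop := Tan → GapS → ∀ (N : ℕ) (g M : ℕ → ℝ) (k w l : ℕ), IsMax N g M → Bi N g k w l →
  ∀ y z z' r : ℕ, k ≤ y → y < z → z < z' → z' ≤ l → M y < M z → M z' < M z →
  M (z - 1) ≤ M z → M (z + 1) ≤ M z → M z * ((I N z r).card : ℝ) = ∑ i ∈ I N z r, g i →
  z ≤ k + 1 + r ∧ l ≤ z + r + 1

/-- ROW CC (medium, 80 lines), concave pairs.  `Up g 0 k`, `Dn g l N`, `k ≤ l`,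
`F a e = ∑ i ∈ Icc a e, (g i - s)`.  Let `a₁, a₂ ≤ k + 1`, `l ≤ e₁ + 1`, `l ≤ e₂ + 1`, `e₁, e₂ ≤ N`, `a₁ ≤ e₁ + 1`,
`a₂ ≤ e₂ + 1`, `F a₁ e₁ ≥ 0`, `F a₂ e₂ ≥ 0` and `a₁ + e₁ ≤ τ ≤ a₂ + e₂`.  Then there are `a ≤ k + 1` and `e` with
`l ≤ e + 1`, `e ≤ N`, `a + e = τ`, `F a e ≥ 0`.  PROOF by induction on `(a₂ + e₂) - (a₁ + e₁)`: if `τ` is one of
the two sums we are done.  Otherwise `a₁ < a₂` or `e₁ < e₂`.  If `a₁ < a₂`: `F (a₁+1) e₁ = F a₁ e₁ - (g a₁ - s)` and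
`F (a₂-1) e₂ = F a₂ e₂ + (g (a₂-1) - s)`, and `g a₁ ≤ g (a₂-1)` (`a₁ ≤ a₂ - 1 ≤ k`), so `g a₁ ≤ s` or
`s ≤ g (a₂-1)`: replace `a₁` by `a₁ + 1` or `a₂` by `a₂ - 1`.  If `e₁ < e₂`: the same with `g (e₁+1) ≥ g e₂`
(`l ≤ e₁ + 1`): `s ≤ g (e₁+1)` (replace `e₁` by `e₁ + 1`) or `g e₂ < s` (replace `e₂` by `e₂ - 1`).  (Keep
`a ≤ e + 1` so that `Icc` behaves; it is automatic in the cases `a ≤ k + 1 ≤ l + 1`, except that `e` may be `l - 1` and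
`a = k + 1 = l + 1`; to avoid this assume `k < l`.) -/
def CC : Prop := ∀ (N : ℕ) (g : ℕ → ℝ) (s : ℝ) (k l : ℕ), k < l → l ≤ N → Up g 0 k → Dn g l N →
  ∀ a₁ e₁ a₂ e₂ τ : ℕ, a₁ ≤ k + 1 → a₂ ≤ k + 1 → l ≤ e₁ + 1 → l ≤ e₂ + 1 → e₁ ≤ N → e₂ ≤ N →
  0 ≤ ∑ i ∈ Icc a₁ e₁, (g i - s) → 0 ≤ ∑ i ∈ Icc a₂ e₂, (g i - s) → a₁ + e₁ ≤ τ → τ ≤ a₂ + e₂ →
  ∃ a e : ℕ, a ≤ k + 1 ∧ l ≤ e + 1 ∧ e ≤ N ∧ a + e = τ ∧ 0 ≤ ∑ i ∈ Icc a e, (g i - s)

/-- ROW UNI (medium, 90 lines), uses `GapS`, `T12`, `CC`: at most one wide peak.  There are no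
`k ≤ y₀ < z₁ < y₁ < z₂ < y₂ ≤ l` with `M y₀ < M z₁ > M y₁ < M z₂ > M y₂`.  PROOF.  Replace `z₁` by a point of `(y₀, y₁)`
at which `M` is maximal on `[y₀, y₁]` and `z₂` in the same way: then `M (z ± 1) ≤ M z`.  Let `I N z₁ r₁`, `I N z₂ r₂`
be optimal; both are full (`GapS`, where `g ≤ max (g y) (g z') ≤ max (M y) (M z')` on `[y, z']`), `aᵢ = zᵢ - rᵢ ≤ k + 1`,
`eᵢ = zᵢ + rᵢ ≥ l - 1` (`T12`), `aᵢ + eᵢ = 2 zᵢ`.  Let `s = min (M z₁) (M z₂)`; `∑_{[aᵢ,eᵢ]} (g - s) ≥ 0`.  `CC` with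
`τ = 2 y₁` gives `a + e = 2 y₁`, `a ≤ k + 1 ≤ y₁`, `e ≤ N`, so `Icc a e = I N y₁ (y₁ - a)` and `M y₁ ≥ s`, a
contradiction. -/
def Uni : Prop := Tan → GapS → T12 → CC → ∀ (N : ℕ) (g M : ℕ → ℝ) (k w l : ℕ), IsMax N g M → Bi N g k w l →
  ∀ y₀ z₁ y₁ z₂ y₂ : ℕ, k ≤ y₀ → y₀ < z₁ → z₁ < y₁ → y₁ < z₂ → z₂ < y₂ → y₂ ≤ l →
  M y₀ < M z₁ → M y₁ < M z₁ → M y₁ < M z₂ → M y₂ < M z₂ → False

/-- ROW DEC (medium, 140 lines), decomposition into monotone pieces.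
(1) no `a < b < c < d < e ≤ N` with `u b < u a`, `u b < u c`, `u d < u c`, `u d < u e`: then `Bi N u k w l` for some
`k, w, l`.
(2) on `[p, q]` no `a < b < c < d < e` with `u a < u b > u c < u d > u e`: then `u` is down-up-down-up on `[p, q]`.
(3) no seven points `u x₁ > u y₁ < u x₂ > u y₂ < u x₃ > u y₃ < u x₄`: then up-down-up-down-up-down.
PROOF (one step).  Call a chain of length `m` a sequence of `m` strict steps with alternating signs.  If there is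
no chain of length `m + 1` on `[p, q]` which STARTS WITH A STEP DOWN, let `c` be the largest index such that `u` is
nondecreasing on `[p, c]`.  If `c < q` then `u (c+1) < u c`, and there is no chain of length `m` on `[c, q]` which
starts with a step up: let `x₀ < x₁ < …` be one and let `v` be a point of `[c, x₁]` at which `u` is minimal; then
`u v ≤ u (c+1) < u c` and `u v ≤ u x₀ < u x₁`, so `c < v < x₁` and `c, v, x₁, …` is a chain of length `m + 1` which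
starts with a step down.  Mirror image (`u ↦ -u`) for the other sign.  Iterate; no chain of length `1`
starting down means nondecreasing. -/
def Dec : Prop :=
  (∀ (N : ℕ) (u : ℕ → ℝ), (∀ a b c d e : ℕ, a < b → b < c → c < d → d < e → e ≤ N →
      u b < u a → u b < u c → u d < u c → u d < u e → False) → ∃ k w l, Bi N u k w l) ∧
  (∀ (p q : ℕ) (u : ℕ → ℝ), p ≤ q → (∀ a b c d e : ℕ, p ≤ a → a < b → b < c → c < d → d < e → e ≤ q →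
      u a < u b → u c < u b → u c < u d → u e < u d → False) →
    ∃ y z z', p ≤ y ∧ y ≤ z ∧ z ≤ z' ∧ z' ≤ q ∧ Dn u p y ∧ Up u y z ∧ Dn u z z' ∧ Up u z' q) ∧
  (∀ (N : ℕ) (u : ℕ → ℝ), (∀ x₁ y₁ x₂ y₂ x₃ y₃ x₄ : ℕ, x₁ < y₁ → y₁ < x₂ → x₂ < y₂ → y₂ < x₃ → x₃ < y₃ →
      y₃ < x₄ → x₄ ≤ N → u y₁ < u x₁ → u y₁ < u x₂ → u y₂ < u x₂ → u y₂ < u x₃ → u y₃ < u x₃ →
      u y₃ < u x₄ → False) →
    ∃ x₁ y₁ x₂ y₂ x₃, x₁ ≤ y₁ ∧ y₁ ≤ x₂ ∧ x₂ ≤ y₂ ∧ y₂ ≤ x₃ ∧ x₃ ≤ N ∧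
      Up u 0 x₁ ∧ Dn u x₁ y₁ ∧ Up u y₁ x₂ ∧ Dn u x₂ y₂ ∧ Up u y₂ x₃ ∧ Dn u x₃ N)

/-- ROW VAR (easy, 50 lines).  Variation of monotone pieces (from `var_mono`, `var_anti`, `var_add`) and the
triangle inequality `var u 0 N ≥ 2 (u x₁ - u y₁ + u x₂ - u y₂ + u x₃) - u 0 - u N` (`abs_le_var` on the six
intervals). -/
def VarS : Prop :=
  (∀ (u : ℕ → ℝ) (a b : ℕ), a ≤ b → Up u a b → var u a b = u b - u a) ∧
  (∀ (u : ℕ → ℝ) (a b : ℕ), a ≤ b → Dn u a b → var u a b = u a - u b) ∧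
  (∀ (N : ℕ) (u : ℕ → ℝ) (x₁ y₁ x₂ y₂ x₃ : ℕ), x₁ ≤ y₁ → y₁ ≤ x₂ → x₂ ≤ y₂ → y₂ ≤ x₃ → x₃ ≤ N →
    2 * (u x₁ - u y₁ + u x₂ - u y₂ + u x₃) - u 0 - u N ≤ var u 0 N)

/-- ROW K1 (easy-medium, 80 lines).  Let `k ≤ N`.  (1) `μ ≤ g` on `[0, k]` implies
`(N+1) (g k - M 0) ≤ N (g k - μ)`: the ball `I N 0 k = [0, k]` gives `M 0 (k+1) ≥ ∑_{[0,k]} g ≥ g k + k μ`, so
`(M 0 - μ)(k+1) ≥ g k - μ ≥ 0`, hence `(M 0 - μ)(N+1) ≥ g k - μ`.  (2) Mirror image: `μ ≤ g` on `[k, N]` implies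
`(N+1) (g k - M N) ≤ N (g k - μ)` (ball `I N N (N-k) = [k, N]`).
(3) (the whole path as a ball, radius `N`) `∑_{i ∈ range (N+1)} g i ≤ M v (N+1)` for `v ≤ N`.
(4) `M v ≤ C` if `g ≤ C` on `[0, N]`, `v ≤ N`. -/
def K1 : Prop := ∀ (N : ℕ) (g M : ℕ → ℝ), IsMax N g M →
  (∀ (k : ℕ) (μ : ℝ), k ≤ N → (∀ i, i ≤ k → μ ≤ g i) → ((N : ℝ) + 1) * (g k - M 0) ≤ N * (g k - μ)) ∧
  (∀ (k : ℕ) (μ : ℝ), k ≤ N → (∀ i, k ≤ i → i ≤ N → μ ≤ g i) → ((N : ℝ) + 1) * (g k - M N) ≤ N * (g k - μ)) ∧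
  (∀ v, v ≤ N → ∑ i ∈ range (N + 1), g i ≤ M v * ((N : ℝ) + 1)) ∧
  (∀ (v : ℕ) (C : ℝ), v ≤ N → (∀ i, i ≤ N → g i ≤ C) → M v ≤ C)

/-- ROW PRE (easy-medium, 70 lines), prefixes.  `Bi N g k w l`, `k < w < l`.
(1) if `g 0 ≤ g w`: `g k + g l - 2 g 0 ≤ (N+1) (M 0 - g 0)`: all of `g` on `[0, l]` is `≥ g 0` (up to `k`; `≥ g w` on
`[k, l]`), the ball `I N 0 l = [0, l]` gives `(M 0 - g 0)(l+1) ≥ ∑_{[0,l]} (g - g 0) ≥ (g k - g 0) + (g l - g 0) ≥ 0`.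
(2) `g k - g 0 ≤ (N+1) (M 0 - g 0)` (ball `[0, k]`).
(3) `g k + g l ≤ (N+1) M N` (ball `I N N N = [0, N]`, `g ≥ 0`, `k ≠ l`).
(4) if `u ≤ g` on `[0, l]`: `g l - u ≤ (N+1) (M y - u)` for every `y ≤ l`: the ball `I N y (l - y) = [max 0 (2y-l), l]` is
contained in `[0, l]` and contains `l`, so `(M y - u) card ≥ g l - u ≥ 0` and `card ≤ N + 1`. -/
def Pre : Prop := ∀ (N : ℕ) (g M : ℕ → ℝ) (k w l : ℕ), IsMax N g M → Bi N g k w l → k < w → w < l →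
  (g 0 ≤ g w → g k + g l - 2 * g 0 ≤ ((N : ℝ) + 1) * (M 0 - g 0)) ∧
  g k - g 0 ≤ ((N : ℝ) + 1) * (M 0 - g 0) ∧
  g k + g l ≤ ((N : ℝ) + 1) * M N ∧
  (∀ u : ℝ, (∀ i, i ≤ l → u ≤ g i) → ∀ y, y ≤ l → g l - u ≤ ((N : ℝ) + 1) * (M y - u))

/-- ROW XB (medium, 110 lines), uses `GapS`, `T12`: the mass of the right tangent ball.  `Bi N g k w l`,
`k ≤ y < z < z' ≤ l`, `M y < M z`, `M z' < M z`, `M (z-1) ≤ M z`, `M (z+1) ≤ M z`, `I N z r` optimal, `u = g w`,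
`u ≤ g` on `[0, l]`, and `0 ≤ u`.  Let `e = z + r`, `T' = [2z'-e, e]`.  Then
`g l - 2 u ≤ ∑_{T'} (g i - u)`.  PROOF.  `GapS`: `r < z`, `e < N`, `z ≤ y + r`, `z' ≤ e`, `z' ≤ y + r`; `T12`: `l ≤ e + 1`.
(i) `g (e-1) + g e ≥ 2 M z`: the ball of `z - 1` with radius `r - 1` is `[z-r, e-2]`, its sum
`(2r+1) M z - g (e-1) - g e` is `≤ (2r-1) M (z-1) ≤ (2r-1) M z`.
(a) `l ≤ e - 1`: `g (e-1) ≥ g e` (`dn2`), so `g (e-1) ≥ M z > u` and `g ≥ g (e-1) > u` on `[l, e-1]`; all terms of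
`∑_{T'} (g - u)` with `i ≤ e - 1` are `≥ 0`, the term `i = l` is `g l - u`, the term `i = e` is `≥ -u`.
(b) `l = e`: all terms are `≥ 0` and the term `i = l` is `g l - u`.
(c) `l = e + 1`: `g l = g (e+1) ≤ 2 M z`, because the ball of `z` with radius `r + 1` has sum
`(2r+1) M z + g (z-r-1) + g (e+1) ≤ (2r+3) M z` and `g ≥ 0`.  Let `d = z - y ≥ 1`.  The ball `I N y (r-d) = [z-r, e-2d]` has
sum `≤ (2r+1-2d) M y ≤ (2r+1-2d) M z`, so `∑_{i ∈ (e-2d, e]} g ≥ 2d M z`; these `2d` elements lie in `T'`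
(`2(e - z') ≥ 2d` because `z' ≤ y + r`), all other terms of `∑_{T'} (g - u)` are `≥ 0` (`i ≤ e < l`), so the sum is
`≥ 2d (M z - u) ≥ 2 M z - 2 u ≥ g l - 2u`. -/
def XB : Prop := Tan → GapS → T12 → ∀ (N : ℕ) (g M : ℕ → ℝ) (k w l : ℕ), IsMax N g M → Bi N g k w l →
  0 ≤ g w → (∀ i, i ≤ l → g w ≤ g i) → ∀ y z z' r : ℕ, k ≤ y → y < z → z < z' → z' ≤ l → M y < M z → M z' < M z →
  M (z - 1) ≤ M z → M (z + 1) ≤ M z → M z * ((I N z r).card : ℝ) = ∑ i ∈ I N z r, g i →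
  g l - 2 * g w ≤ ∑ i ∈ Icc (2 * z' - (z + r)) (z + r), (g i - g w)

/-- ROW GAIN (medium, 90 lines), uses `GapS`, `GapI`, `XB`.  Same hypotheses as `XB`.  Claim:
`g l - 2 u ≤ 2 (N+1) (M y + M z' - M z - u)`, `u = g w`.  PROOF.  `q = 2r + 1`, `d = z - y`, `e = z + r`,
`G = ∑_{[z-r,e]} (g - u) = q (M z - u)`, `X = ∑_{T'} (g - u)`, `T' = [2z'-e, e] = I N z' (e - z')`.
(F1) the ball `I N y (r+d) = [max 0 (z-r-2d), e]` contains `[z-r, e]`; on the additional part (left of `z - r ≤ k + 1`)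
`g ≥ u`, so `(q + 2d)(M y - u) ≥ card (M y - u) ≥ G` (`M y ≥ u`).
(F2) the ball `I N y (r-d) = T = [z-r, e-2d]`: `(q - 2d)(M y - u) ≥ ∑_T (g - u) ≥ G - X` because `T ∪ T' = [z-r, e]` and
`g ≥ u` on `T ∩ T'` (contained in `[i, j]` of `GapS` (c), where `g ≥ u`: on `[0, l]` by hypothesis, on `[l, j]` by
`dn2` and `g j > M z > u`).
(F3) `q (M z' - u) ≥ |T'| (M z' - u) ≥ X` (`M z' ≥ u`).
(F1) + (F2) + 2 (F3): `2q (M y + M z' - 2u) ≥ 2G - X + 2X`, that is `2q (M y + M z' - M z - u) ≥ X ≥ g l - 2u` (`XB`).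
Finally `M y + M z' - M z - u ≥ 0` (`BGap`) and `q ≤ N + 1`. -/
def Gain : Prop := Tan → GapS → GapI → T12 → XB → BGap → ∀ (N : ℕ) (g M : ℕ → ℝ) (k w l : ℕ), IsMax N g M →
  Bi N g k w l → 0 ≤ g w → (∀ i, i ≤ l → g w ≤ g i) → ∀ y z z' r : ℕ, k ≤ y → y < z → z < z' → z' ≤ l →
  M y < M z → M z' < M z → M (z - 1) ≤ M z → M (z + 1) ≤ M z →
  M z * ((I N z r).card : ℝ) = ∑ i ∈ I N z r, g i →
  g l - 2 * g w ≤ 2 * ((N : ℝ) + 1) * (M y + M z' - M z - g w)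

/-- ROW REFL (easy, 70 lines).  Reflection `i ↦ N - i` of the path: `IsMax`, `Bi` and `var` are invariant.
(`I N (N - v) r` is the image of `I N v r`; for `i > N` the value is `g 0 ≥ 0`.) -/
def Refl : Prop := ∀ (N : ℕ) (g M : ℕ → ℝ),
  (IsMax N g M → IsMax N (fun i => g (N - i)) (fun i => M (N - i))) ∧
  (∀ k w l, Bi N g k w l → Bi N (fun i => g (N - i)) (N - l) (N - w) (N - k)) ∧
  var (fun i => g (N - i)) 0 N = var g 0 N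

/-- ROW EXM (easy-medium, 70 lines).  (1) every `T : ℕ → ℝ` with `T ≥ 0` has a maximal function:
`M v = sup_{r ≤ N} (∑_{I N v r} T) / card` (for `r > N` the ball is the one with radius `N` if `v ≤ N`).
(2) comparison: `T ≤ g ≤ T + ε` on `[0, N]` implies `M_T ≤ M_g ≤ M_T + ε` there (use `attained` for one function and
`le` for the other). -/
def ExM : Prop :=
  (∀ (N : ℕ) (T : ℕ → ℝ), (∀ i, 0 ≤ T i) → ∃ M, IsMax N T M) ∧
  (∀ (N : ℕ) (g M T D : ℕ → ℝ) (ε : ℝ), IsMax N g M → IsMax N T D →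
    (∀ i, i ≤ N → T i ≤ g i ∧ g i ≤ T i + ε) → ∀ v, v ≤ N → D v ≤ M v ∧ M v ≤ D v + ε)

/-- `u` has three maxima of depth `ε` on `[0, N]` -/
def Deep (N : ℕ) (u : ℕ → ℝ) (ε : ℝ) : Prop := ∃ a b c d e : ℕ, a < b ∧ b < c ∧ c < d ∧ d < e ∧ e ≤ N ∧
  ε ≤ u a - u b ∧ ε ≤ u c - u b ∧ ε ≤ u c - u d ∧ ε ≤ u e - u d

/-- ROW HM (medium-strong, 160 lines), the h-maxima transform.  Let `g ≥ 0`, `ε > 0`, `Deep N g ε` and not
`Deep N g ε'` for any `ε' > ε`.  Put `T x = max_{y ≤ N} min (g y - ε) (min_{i between x and y} g i)` for `x ≤ N`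
(and `T x = 0` for `x > N`).
(1) `T ≤ g ≤ T + ε` on `[0, N]` (take `y = x`; the inner minimum is `≤ g x`), `T ≥ 0` (take `y` with `g y ≥ ε`:
`g a ≥ ε + g b ≥ ε`).
(2) MAXIMISERS.  For `x ≤ N` let `Y ≤ N` attain the maximum: `g Y ≥ T x + ε`, and `T v ≥ T x` for all `v` between `x` and
`Y` (the same `Y`, fewer points).  (3) VALLEYS.  If `x < w`, `T w < T x` and `Y` is the maximiser of `x`, then `Y < w`
(by (2), `w` is not between `x` and `Y`, and `x < w`), and there is `W` with `Y ≤ W ≤ w` and `g W ≤ T w`: otherwise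
`min (g Y - ε) (min_{[Y,w]} g) > T w`, against the definition of `T w`; moreover `Y < W` because
`g Y ≥ T x + ε > T w`.  Mirror image for `w < x`.
(4) `T` has no `a < b < c < d < e ≤ N` with `T b < T a, T c` and `T d < T c, T e`: let `A, C, E` be the maximisers of
`a, c, e` and `B, D` the valleys with `g B ≤ T b`, `A < B ≤ b`, `g D ≤ T d`, `C < D ≤ d` (from the left neighbours); then
`A < B < C < D < E` (`b < C` and `d < E` by the mirror image of (3)) and all four differences are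
`≥ T(·) + ε - T(·) > ε`, so `Deep N g ε'` for some `ε' > ε`. -/
def HM : Prop := ∀ (N : ℕ) (g : ℕ → ℝ) (ε : ℝ), (∀ i, 0 ≤ g i) → 0 < ε → Deep N g ε →
  (∀ ε', ε < ε' → ¬ Deep N g ε') → ∃ T : ℕ → ℝ, (∀ i, 0 ≤ T i) ∧ (∀ i, i ≤ N → T i ≤ g i ∧ g i ≤ T i + ε) ∧
    (∀ x, x ≤ N → ∃ Y, Y ≤ N ∧ T x + ε ≤ g Y ∧ ∀ v, (x ≤ v ∧ v ≤ Y ∨ Y ≤ v ∧ v ≤ x) → T x ≤ T v) ∧
    (∀ Y w, Y ≤ w → w ≤ N → T w + ε < g Y → ∃ W, Y ≤ W ∧ W ≤ w ∧ g W ≤ T w) ∧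
    (∀ a b c d e : ℕ, a < b → b < c → c < d → d < e → e ≤ N → T b < T a → T b < T c → T d < T c → T d < T e → False)

/-- ROW HV (medium, 110 lines).  Let `T` be as in `HM` (properties as hypotheses) and `Bi N T k w l`.  Claim: there
are `x₁ ≤ y₁ ≤ x₂ ≤ y₂ ≤ x₃ ≤ N` with `T k + T l - T w + 3 ε ≤ g x₁ - g y₁ + g x₂ - g y₂ + g x₃`.
PROOF.  Let `a < b < c < d < e` be a `Deep N g ε` chain.
(A) ONE PEAK: for every `P ≤ N` there is an alternation with value `≥ g P + 2 ε`: `P ≤ b`: `(P, b, c, d, e)`;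
`b ≤ P ≤ d`: `(a, b, P, d, e)`; `d ≤ P`: `(a, b, c, d, P)`.
(B) TWO PEAKS: for `P ≤ W ≤ Q ≤ N` there is an alternation with value `≥ g P - g W + g Q + ε`: if `b ≤ P`:
`(a, b, P, W, Q)`.  If `P ≤ b`, `c ≤ W`: `(P, b, c, W, Q)`.  If `W ≤ c`, `d ≤ Q`: `(P, W, c, d, Q)`.  If `Q ≤ d`:
`(P, W, Q, d, e)`.  One of the four cases holds: not (`b ≤ P`) gives `P < b`; not the second gives `W < c`; not the third
gives `Q < d`.
CONCLUSION.  If `T w = T k` or `T w = T l` (they are `≤`), the left side is `T l + 3ε` or `T k + 3ε`: take the maximiser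
`P` of `l` (or `k`), `g P ≥ T l + ε`, and (A).  Otherwise `k < w < l`; let `P`, `Q` be the maximisers of `k` and `l`;
`P < w` (`w` is not between `k` and `P` because `T w < T k`), `w < Q`, and `W ∈ [P, w]` with `g W ≤ T w`
(`T w + ε < T k + ε ≤ g P`).  (B) gives `≥ g P - g W + g Q + ε ≥ T k - T w + T l + 3 ε`. -/
def HV : Prop := ∀ (N : ℕ) (g T : ℕ → ℝ) (ε : ℝ) (k w l : ℕ), 0 < ε → Deep N g ε →
  (∀ x, x ≤ N → ∃ Y, Y ≤ N ∧ T x + ε ≤ g Y ∧ ∀ v, (x ≤ v ∧ v ≤ Y ∨ Y ≤ v ∧ v ≤ x) → T x ≤ T v) →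
  (∀ Y w, Y ≤ w → w ≤ N → T w + ε < g Y → ∃ W, Y ≤ W ∧ W ≤ w ∧ g W ≤ T w) → Bi N T k w l →
  ∃ x₁ y₁ x₂ y₂ x₃ : ℕ, x₁ ≤ y₁ ∧ y₁ ≤ x₂ ∧ x₂ ≤ y₂ ∧ y₂ ≤ x₃ ∧ x₃ ≤ N ∧
    T k + T l - T w + 3 * ε ≤ g x₁ - g y₁ + g x₂ - g y₂ + g x₃

/-- ROW V3 (easy-medium, 70 lines): for EVERY `g` the sum of three values of `M` minus two values between them is
at most the same for `g`.  PROOF.  If `g` has no strict chain (no `Deep N g ε` with `ε > 0`), `Dec` (1) gives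
`Bi N g k w l` and `BV3` gives the claim with `(k, w, l, l, l)` (`g k - g w + g l - g l + g l`).  Otherwise let `ε` be the
maximum of the `ε` with `Deep N g ε` (finitely many 5-tuples; the maximum of the minimum of the four
differences), `T` from `HM`, `Bi N T k w l` (`Dec` (1)), `D` its maximal function (`ExM` (1)).  By `ExM` (2)
`M x₁ - M y₁ + … ≤ D x₁ + ε - D y₁ + D x₂ + ε - D y₂ + D x₃ + ε ≤ T k + T l - T w + 3 ε` (`BV3` for `T`), and `HV`. -/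
def V3 : Prop := BV3 → Dec → HM → HV → ExM → Tan → Mon → Cov → BGap → GapS → GapI →
  ∀ (N : ℕ) (g M : ℕ → ℝ), IsMax N g M →
  ∀ x₁ y₁ x₂ y₂ x₃ : ℕ, x₁ ≤ y₁ → y₁ ≤ x₂ → x₂ ≤ y₂ → y₂ ≤ x₃ → x₃ ≤ N →
  ∃ p₁ q₁ p₂ q₂ p₃ : ℕ, p₁ ≤ q₁ ∧ q₁ ≤ p₂ ∧ p₂ ≤ q₂ ∧ q₂ ≤ p₃ ∧ p₃ ≤ N ∧
    M x₁ - M y₁ + M x₂ - M y₂ + M x₃ ≤ g p₁ - g q₁ + g p₂ - g q₂ + g p₃

end Pool.Agent.TMX
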