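import Pool.Agent.TMX.Stmts

/-!
# Squad TMX, second list (MP_b61ad0_an): the sharp constant if `M f` has at most three local maxima

Target (assembly, helper83): for EVERY `g ≥ 0` with minimum `0` on `[0, N]` and all
`x₁ ≤ y₁ ≤ x₂ ≤ y₂ ≤ x₃ ≤ N`:
`(N+1) (2 (M x₁ - M y₁ + M x₂ - M y₂ + M x₃) - M 0 - M N) ≤ N var g 0 N`.

Notation used in the docstrings: `n = N + 1`; a middle peak `z` of `M` with valleys `y < z < z'` is BAD if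
`g < M z` on `[y, z']`.  Its optimal ball is `B = [a, e]`, `a = z - r`, `e = z + r`, `l = 2r+1` elements;
`d = z - y`, `d' = z' - z`; `T = [a, 2y-a] = I N y (r-d)` (`l - 2d` elements),
`T' = [2z'-e, e] = I N z' (r-d')` (`l - 2d'` elements), `C = T ∩ T' = [2z'-e, 2y-a]` (i.e. the `i` with
`2z' ≤ i+z+r` and `i+z ≤ 2y+r`; `l - 2d - 2d' ≥ 1` elements), `L = B \ T' = [a, 2z'-e)` (`2d'` elements),
`R = B \ T = (2y-a, e]` (`2d` elements), `T ∪ T' = B`.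
-/

namespace Pool.Agent.TMX

open Finset
open Pool.Agent.Helper51_Max (I IsMax)
open Pool.Agent.Helper37_EM (var)

/-- geometry of a bad peak `z` between the valleys `y` and `z'` -/
structure Geo (N : ℕ) (g M : ℕ → ℝ) (y z z' r : ℕ) : Prop where
  yz : y < z
  zz : z < z'
  rz : r < z
  rN : z + r < N
  hy : z ≤ y + r
  hz : z' ≤ z + r
  hC : z' ≤ y + r
  opt : M z * ((I N z r).card : ℝ) = ∑ i ∈ I N z r, g i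
  My : M y < M z
  Mz : M z' < M z

/-- ROW ENDG (easy, 50 lines), uses `Tan`.  `x < y ≤ N`, `M y < M x`: let `I N x r` be optimal.  If `y ≤ x + r`,
`Tan` (first part, `z = x`, `z' = y`) gives `i` with `M x < g i` and `i + r + x < 2 y ≤ y + x + r`, so `i < y`.
Otherwise all `i` in the ball are `≤ x + r < y` and their average is `M x`, so one has `M x ≤ g i`.  Mirror. -/
def EndG : Prop := Tan → ∀ (N : ℕ) (g M : ℕ → ℝ), IsMax N g M →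
  (∀ x y : ℕ, x < y → y ≤ N → M y < M x → ∃ p, p < y ∧ M x ≤ g p) ∧
  (∀ x y : ℕ, y < x → x ≤ N → M y < M x → ∃ p, y < p ∧ p ≤ N ∧ M x ≤ g p)

/-- ROW REACH (easy, 100 lines).  (1) `0 ≤ ∑_{ball} (g - μ) ≤ (M v - μ) card` (`IsMax.le`), so `M v - μ ≥ 0`, and
`card ≤ N + 1`.  (2) the ball `I N v (q - v) = [2v-q (truncated), q]` is contained in `[0, q]` and contains `q`; all
its terms `g i - μ` are `≥ 0`; (1).  (3), (4): the same ball with right end `q₂` (`q₃`), it contains all points of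
`[v, q₂]`.  (5) the ball `I N N (N - q) = [q, N]`. -/
def Reach : Prop := ∀ (N : ℕ) (g M : ℕ → ℝ), IsMax N g M →
  (∀ (v r : ℕ) (μ : ℝ), v ≤ N → 0 ≤ ∑ i ∈ I N v r, (g i - μ) →
    ∑ i ∈ I N v r, (g i - μ) ≤ ((N : ℝ) + 1) * (M v - μ)) ∧
  (∀ (v q : ℕ) (μ : ℝ), v ≤ q → q ≤ N → (∀ i, i ≤ q → μ ≤ g i) → g q - μ ≤ ((N : ℝ) + 1) * (M v - μ)) ∧
  (∀ (v q₁ q₂ : ℕ) (μ : ℝ), v ≤ q₁ → q₁ < q₂ → q₂ ≤ N → (∀ i, i ≤ q₂ → μ ≤ g i) →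
    (g q₁ - μ) + (g q₂ - μ) ≤ ((N : ℝ) + 1) * (M v - μ)) ∧
  (∀ (v q₁ q₂ q₃ : ℕ) (μ : ℝ), v ≤ q₁ → q₁ < q₂ → q₂ < q₃ → q₃ ≤ N → (∀ i, i ≤ q₃ → μ ≤ g i) →
    (g q₁ - μ) + (g q₂ - μ) + (g q₃ - μ) ≤ ((N : ℝ) + 1) * (M v - μ)) ∧
  (∀ (q : ℕ) (μ : ℝ), q ≤ N → (∀ i, q ≤ i → i ≤ N → μ ≤ g i) → g q - μ ≤ ((N : ℝ) + 1) * (M N - μ))

/-- ROW MEANS (easy, 40 lines): the whole path is a ball (radius `N`), `g ≥ 0`. -/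
def MeanS : Prop := ∀ (N : ℕ) (g M : ℕ → ℝ), IsMax N g M →
  (∀ v, v ≤ N → ∑ i ∈ range (N + 1), g i ≤ ((N : ℝ) + 1) * M v) ∧
  (∀ p q : ℕ, p < q → q ≤ N → g p + g q ≤ ∑ i ∈ range (N + 1), g i) ∧
  (∀ p q s : ℕ, p < q → q < s → s ≤ N → g p + g q + g s ≤ ∑ i ∈ range (N + 1), g i)

/-- ROW VARC (easy, 50 lines): `var g 0 N ≥` the sum of the absolute differences along
`α ≤ p₁ ≤ w₁ ≤ p₂ ≤ w₂ ≤ p₃ ≤ ω` (`var_add`, `abs_le_var`, `var ≥ 0`). -/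
def VarC : Prop := ∀ (N : ℕ) (g : ℕ → ℝ),
  (∀ α p₁ w₁ p₂ ω : ℕ, α ≤ p₁ → p₁ ≤ w₁ → w₁ ≤ p₂ → p₂ ≤ ω → ω ≤ N →
    2 * (g p₁ - g w₁ + g p₂) - g α - g ω ≤ var g 0 N) ∧
  (∀ α p₁ w₁ p₂ w₂ p₃ ω : ℕ, α ≤ p₁ → p₁ ≤ w₁ → w₁ ≤ p₂ → p₂ ≤ w₂ → w₂ ≤ p₃ → p₃ ≤ ω → ω ≤ N →
    2 * (g p₁ - g w₁ + g p₂ - g w₂ + g p₃) - g α - g ω ≤ var g 0 N)

/-- ROW GAPB (easy: the proof of row `GapS`, file `Pool/Agent/Helper77_TMX/GapS.lean`, with `g < M z` on `[y, z']`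
in place of `g ≤ max (M y) (M z')`), uses `Tan`.  (a) `r < z`, `z + r < N`: a ball of `z` which touches a wall is
also a ball of `y` (left wall) or of `z'` (right wall).  (b) `z' ≤ z + r`: otherwise all elements of the ball which
are `≥ y` lie in `[y, z']`; if `z ≤ y + r`, `Tan` (second part at `y`) gives an element `> M z` right of `y`, a
contradiction; if `y + r < z`, the whole ball lies in `(y, z')` and its average is `< M z`.  Mirror: `z ≤ y + r`.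
(c) `Tan` at `z'` and at `y`.  (d) `z' ≤ y + r`: otherwise `[a, e]` is the disjoint union of `T`, `T'` and a set
`V ⊆ [y, z']`, so `M z l = ∑_T + ∑_V + ∑_T' ≤ M y |T| + M z |V| + M z' |T'| < M z l`. -/
def GapB : Prop := Tan → ∀ (N : ℕ) (g M : ℕ → ℝ), IsMax N g M → ∀ y z z' r : ℕ, y < z → z < z' → z' ≤ N →
  M y < M z → M z' < M z → M z * ((I N z r).card : ℝ) = ∑ i ∈ I N z r, g i →
  (∀ i, y ≤ i → i ≤ z' → g i < M z) →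
  Geo N g M y z z' r ∧
    (∃ i, z ≤ i + r ∧ i < y ∧ i + r + z < 2 * z' ∧ M z < g i) ∧
    (∃ j, j ≤ z + r ∧ z' < j ∧ 2 * y + r < j + z ∧ M z < g j)

/-- ROW CMIN (easy-medium, 80 lines).  `c` = a minimum point of `g` on `C` (nonempty, `hC`).  `∑_R g ≥ M z |R|`
because `∑_B g = M z l` and `∑_T g ≤ M y |T| ≤ M z |T|`.  Then `|C| g c + |R| M z ≤ ∑_C g + ∑_R g = ∑_{T'} g ≤ M z' |T'| =
M z' (|C| + |R|)` and `M z > M z'` give `g c ≤ M z'`.  Mirror: `g c ≤ M y`. -/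
def CMin : Prop := ∀ (N : ℕ) (g M : ℕ → ℝ), IsMax N g M → ∀ y z z' r : ℕ, Geo N g M y z z' r →
  ∃ c, 2 * z' ≤ c + z + r ∧ c + z ≤ 2 * y + r ∧ g c ≤ M y ∧ g c ≤ M z' ∧
    ∀ i, 2 * z' ≤ i + z + r → i + z ≤ 2 * y + r → g c ≤ g i

/-- ROW GAINP (easy, 30 lines), uses `GapI`: with `M y, M z' ≥ u` and `2(y+r-z)+1, 2(z+r-z')+1 ≤ 2r+1` the
inequality of `GapI` gives `(2r+1)(M z - u) ≤ (2r+1)(M y - u) + (2r+1)(M z' - u)`. -/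
def GainP : Prop := GapI → ∀ (N : ℕ) (g M : ℕ → ℝ), IsMax N g M → ∀ (y z z' r : ℕ) (u : ℝ),
  Geo N g M y z z' r → (∀ i, 2 * z' ≤ i + z + r → i + z ≤ 2 * y + r → u ≤ g i) → u ≤ M y → u ≤ M z' →
  M z + u ≤ M y + M z'

/-- ROW GAIN0 (easy-medium, 80 lines).  `S = ∑_{[0,N]} g`.  `S ≤ n M y`, `S ≤ n M z'` (whole path); the ball
`I N y (r+d) = [max 0 (2y-e), e]` contains `B` and has at most `l + 2d` elements, so `l M z ≤ (l+2d) M y`; the ball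
`I N z' (r+d') = [a, min (2z'-a) N]` gives `l M z ≤ (l+2d') M z'`.  A quarter of the first and three quarters of the second:
`M y + M z' ≥ S/(2n) + (3/4) M z (l/(l+2d) + l/(l+2d'))`, and `l/(l+2d) + l/(l+2d') ≥ 4/3` because `2d + 2d' ≤ l`
(`d + d' ≤ r` is `hC`): `1/(1+α) + 1/(1+β) ≥ 4/(2+α+β)`. -/
def Gain0 : Prop := ∀ (N : ℕ) (g M : ℕ → ℝ), IsMax N g M → ∀ y z z' r : ℕ, Geo N g M y z z' r →
  ∑ i ∈ range (N + 1), g i ≤ 2 * ((N : ℝ) + 1) * (M y + M z' - M z)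

/-- ROW LASTK (easy, 50 lines).  Let `k ≤ z - y`.  The ball `I N (z-k) (r-k) = [a, e-2k]` has `l - 2k` elements and sum
`≤ (l-2k) M (z-k) ≤ (l-2k) M z`; subtract from `∑_B g = l M z`. -/
def LastK : Prop := ∀ (N : ℕ) (g M : ℕ → ℝ), IsMax N g M → ∀ y z z' r : ℕ, Geo N g M y z z' r →
  (∀ v, y ≤ v → v ≤ z → M v ≤ M z) → ∀ k : ℕ, y + k ≤ z →
  2 * (k : ℝ) * M z ≤ ∑ i ∈ Ioc (z + r - 2 * k) (z + r), g i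

/-- ROW XR (medium, 100 lines), uses `LastK`: the mass of `T' = [2z'-e, e]`, `z' < p ≤ e`, `u ≤ g` on `[0, p]` and on
`C`, `0 ≤ u ≤ M z`.  If `u ≤ g` on `[0, e]`: all terms of `∑_{T'} (g - u)` are `≥ 0` and the term `i = p` is `g p - u`.
Otherwise let `c'` be the LEAST index in `(p, e]` with `g c' < u`.  `c'` is not in `C`, so `2y + r < c' + z`, i.e.
`e - c' < 2d`.  If `e - c' = 2k` (`k ≤ d`): `LastK` gives `∑_{(c', e]} g ≥ 2k M z ≥ 2k u`, so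
`∑_{(c', e]} (g - u) ≥ 0`, and `g c' - u ≥ -u`; all terms with `i < c'` are `≥ 0` and the term `i = p` is `g p - u`.
If `e - c' = 2k - 1` (`k ≤ d`): `LastK` gives `∑_{[c', e]} (g - u) ≥ 0`, all terms with `i < c'` are `≥ 0`. -/
def XR : Prop := LastK → ∀ (N : ℕ) (g M : ℕ → ℝ), IsMax N g M → ∀ y z z' r : ℕ, Geo N g M y z z' r →
  (∀ v, y ≤ v → v ≤ z → M v ≤ M z) → ∀ (u : ℝ) (p : ℕ), 0 ≤ u → u ≤ M z → z' < p → p ≤ z + r →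
  (∀ i, i ≤ p → u ≤ g i) → (∀ i, 2 * z' ≤ i + z + r → i + z ≤ 2 * y + r → u ≤ g i) →
  g p - 2 * u ≤ ∑ i ∈ Icc (2 * z' - (z + r)) (z + r), (g i - u)

/-- ROW GAIN1 (medium, 100 lines), uses `GainP`, `GapI`.  `u ≤ g` on `[0, y]` and on `C`, `u ≤ M y, M z'`;
`G = ∑_B (g - u) = l (M z - u)`, `X = ∑_{T'} (g - u)`.
(F1) `I N y (r+d) = [max 0 (2y-e), e]` contains `B`, the additional part is contained in `[0, a) ⊆ [0, y]`, where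
`g ≥ u`: `(l + 2d)(M y - u) ≥ card (M y - u) ≥ G`.  (F2) `I N y (r-d) = T`: `(l - 2d)(M y - u) ≥ ∑_T (g - u) ≥ G - X`
(`T ∪ T' = B`, `∑_C (g - u) ≥ 0`).  (F3) `(l - 2d')(M z' - u) ≥ X`.  (F1) + (F2) + 2 (F3) and `M z' ≥ u`:
`2l (M y - u) + 2l (M z' - u) ≥ 2G + X`, i.e. `2l (M y + M z' - M z - u) ≥ X`.  Finally
`M y + M z' - M z - u ≥ 0` (`GainP`) and `l ≤ N + 1`.  (See `Pool/Agent/Helper75_TMX/Gain.lean`.) -/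
def Gain1 : Prop := GainP → GapI → ∀ (N : ℕ) (g M : ℕ → ℝ), IsMax N g M → ∀ (y z z' r : ℕ) (u : ℝ),
  Geo N g M y z z' r → (∀ i, i ≤ y → u ≤ g i) →
  (∀ i, 2 * z' ≤ i + z + r → i + z ≤ 2 * y + r → u ≤ g i) → u ≤ M y → u ≤ M z' →
  ∑ i ∈ Icc (2 * z' - (z + r)) (z + r), (g i - u) ≤ 2 * ((N : ℝ) + 1) * (M y + M z' - M z - u)

/-- ROW GAIN2 (medium-strong, 150 lines).  `e < p ≤ N` and `u ≤ g` on `[0, p]` (so `M v ≥ g v ≥ u` for `v ≤ p`).  Put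
`m = M y - u`, `m' = M z' - u`, `τ = g p - u ≥ 0`, `G = l (M z - u)`, `X = ∑_{T'} (g - u) ≥ 0`, `q =` the number of elements
of `P = I N z' (p - z') = [max 0 (2z'-p), p]`; `q ≤ 2 (p - z') + 1` and `q ≤ N + 1`.  All of this is in `[0, p]`.
(F1) `(l+2d) m ≥ G` and (F2) `(l-2d) m ≥ G - X` as in `Gain1`; (F3') `q m' ≥ X + τ` (`T' ⊆ P`, `p ∈ P \ T'`).
CASE `q ≤ 2l`: claim `m + m' - G/l ≥ τ/q` (then `2(N+1)(m + m' - G/l) ≥ 2τ ≥ τ`).  If `X l (l+2d) ≥ 2 d q G`, use (F1):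
`m - G/l ≥ G/(l+2d) - G/l = -2dG/(l(l+2d)) ≥ -X/q`.  Otherwise `X l (l+2d) < 2 d q G`, use (F2):
`m - G/l + X/q ≥ (G-X)/(l-2d) - G/l + X/q`, which is `≥ 0` iff `2 d q G ≥ l X (q - l + 2d)`; this holds if
`q ≤ l - 2d`, and otherwise `l X (q-l+2d) ≤ l X (l+2d)` (as `q ≤ 2l`) `< 2 d q G`.
CASE `q > 2l`: then `p - z' ≥ l`, so `z' + r + d' ≤ z' + 2r < p` and `I N z' (r+d') = [a, e+2d']` is contained in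
`[0, p]`: `(l+2d') m' ≥ G`, and (F1) `(l+2d) m ≥ G`; `τ ≤ (N+1) m` and `τ ≤ (N+1) m'` (balls of `y`, `z'` with right
end `p`).  A quarter of the last two and three quarters of the first two:
`m + m' ≥ τ/(2(N+1)) + (3/4) G (1/(l+2d) + 1/(l+2d')) ≥ τ/(2(N+1)) + G/l` (`2d + 2d' ≤ l`, as in `Gain0`). -/
def Gain2 : Prop := ∀ (N : ℕ) (g M : ℕ → ℝ), IsMax N g M → ∀ (y z z' r : ℕ) (u : ℝ) (p : ℕ),
  Geo N g M y z z' r → z + r < p → p ≤ N → (∀ i, i ≤ p → u ≤ g i) →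
  g p - u ≤ 2 * ((N : ℝ) + 1) * (M y + M z' - M z - u)

/-- ROW FB (easy-medium, 60 lines).  `p ∈ C`, `v ≤ g` on `C`, `v ≤ M z`.  `∑_R g ≥ |R| M z` (see `CMin`), so
`∑_{T'} (g - v) = ∑_C (g - v) + ∑_R (g - v) ≥ (g p - v) + |R| (M z - v) ≥ g p - v ≥ 0`, and
`(M z' - v) |T'| ≥ ∑_{T'} (g - v)`, `|T'| ≤ N + 1`. -/
def FB : Prop := ∀ (N : ℕ) (g M : ℕ → ℝ), IsMax N g M → ∀ (y z z' r : ℕ) (v : ℝ) (p : ℕ),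
  Geo N g M y z z' r → v ≤ M z → (∀ i, 2 * z' ≤ i + z + r → i + z ≤ 2 * y + r → v ≤ g i) →
  2 * z' ≤ p + z + r → p + z ≤ 2 * y + r → g p - v ≤ ((N : ℝ) + 1) * (M z' - v)

/-- ROW ONE (easy, 60 lines), uses `K1`, `VarC` or `abs_le_var`: `(N+1)(2 M x - M 0 - M N) ≤ N var g 0 N` for every
`x ≤ N`.  Let `κ ≤ N` be a maximum point of `g`; `M x ≤ g κ` (`K1` (4)).  Then as in `one_max` of
`Pool/Agent/TMX/Asm.lean`: `i₁`, `i₂` minimum points of `g` on `[0, κ]`, `[κ, N]`,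
`(N+1)(g κ - M 0) ≤ N (g κ - g i₁)`, `(N+1)(g κ - M N) ≤ N (g κ - g i₂)` (`K1` (1), (2)) and
`2 g κ - g i₁ - g i₂ ≤ var g 0 N`. -/
def One : Prop := K1 → ∀ (N : ℕ) (g M : ℕ → ℝ), IsMax N g M → ∀ x, x ≤ N →
  ((N : ℝ) + 1) * (2 * M x - M 0 - M N) ≤ N * var g 0 N

/-- ROW A2 (medium, 90 lines), uses `Reach`, `MeanS`, `VarC`.  `p₁ < y < p₂ ≤ N`, the zero `i₀ ≥ p₁` of `g`.
In every case we give `α ≤ p₁ ≤ w ≤ p₂ ≤ ω` and `W = 2 (g p₁ - g w + g p₂) - g α - g ω ≤ var g 0 N`, and show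
`W ≤ n (W - V)`, `V = 2 (g p₁ - M y + g p₂) - M 0 - M N`, `W - V = 2 (M y - g w) + (M 0 - g α) + (M N - g ω)`; then
`n V ≤ (n - 1) W ≤ N var g 0 N`.  `S = ∑_{range (N+1)} g ≤ n M v`.
(i) `i₀ ≤ p₂`: `α = 0`, `w = i₀`, `ω = N`: `2 n M y ≥ 2 S ≥ 2 (g p₁ + g p₂) ≥ W` (`M 0 ≥ g 0`, `M N ≥ g N`).
(ii) `p₂ ≤ i₀`: `α`, `w` minimum points on `[0, p₁]`, `[p₁, p₂]`, `ω = i₀`; `a = g α`, `u = g w ≤ g y ≤ M y`;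
`n M N ≥ S ≥ g p₁ + g p₂`.  If `a ≤ u`: `Reach` (3) with `v = 0`, `μ = a`: `n (M 0 - a) ≥ g p₁ + g p₂ - 2 a`, total
`≥ 2 g p₁ + 2 g p₂ - 2 a ≥ W` (`a ≤ 2u`).  If `u < a`: `Reach` (2): `n (M 0 - a) ≥ g p₁ - a` (`v = 0`),
`n (M y - u) ≥ g p₂ - u` (`v = y`, `u ≤ g` on `[0, p₂]`); total `≥ (g p₁ + g p₂) + (g p₁ - a) + 2 (g p₂ - u) ≥ W`. -/
def A2 : Prop := Reach → MeanS → VarC → ∀ (N : ℕ) (g M : ℕ → ℝ), IsMax N g M → ∀ i₀ p₁ y p₂ : ℕ,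
  p₁ < y → y < p₂ → p₂ ≤ N → p₁ ≤ i₀ → i₀ ≤ N → g i₀ = 0 →
  ((N : ℝ) + 1) * (2 * (g p₁ - M y + g p₂) - M 0 - M N) ≤ N * var g 0 N

/-- ROW A3 (medium, 130 lines), uses `Reach`, `MeanS`, `VarC`.  `p₁ < y₁ < p₂ < y₂ < p₃ ≤ N`, zero `i₀ ≥ p₁`.  As
in `A2`: `W = 2 (g p₁ - g w₁ + g p₂ - g w₂ + g p₃) - g α - g ω ≤ var g 0 N` and
`W - V = 2 (M y₁ - g w₁) + 2 (M y₂ - g w₂) + (M 0 - g α) + (M N - g ω)`; show `W ≤ n (W - V)`.  `Σ = g p₁ + g p₂ + g p₃ ≤ S`.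
(i) `i₀ ≤ p₂`: `α = 0`, `w₁ = i₀`, `w₂ = y₂`, `ω = N`: `2 n M y₁ ≥ 2 S ≥ 2 Σ ≥ W` (the other terms are `≥ 0`).
(ii) `p₂ ≤ i₀ ≤ p₃`: the same with `w₁ = y₁`, `w₂ = i₀`.
(iii) `p₃ ≤ i₀`: `α, w₁, w₂` minimum points on `[0, p₁], [p₁, p₂], [p₂, p₃]`, values `a, u₁, u₂` (`u₁ ≤ M y₁`,
`u₂ ≤ M y₂`), `ω = i₀`, `n M N ≥ S ≥ Σ`; needed: the rest `≥ Σ - 2u₁ - 2u₂ - a`.
`a ≤ u₁, a ≤ u₂`: `Reach` (4), `v = 0`: `n (M 0 - a) ≥ Σ - 3a`.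
`a ≤ u₁, u₂ < a`: `Reach` (3), `v = 0`: `n (M 0 - a) ≥ g p₁ + g p₂ - 2a`; (2), `v = y₂`: `n (M y₂ - u₂) ≥ g p₃ - u₂`.
`u₁ < a, u₁ ≤ u₂`: (2), `v = 0`: `n (M 0 - a) ≥ g p₁ - a`; (3), `v = y₁`: `n (M y₁ - u₁) ≥ g p₂ + g p₃ - 2u₁`.
`u₂ < u₁ < a`: `n (M 0 - a) ≥ g p₁ - a`, `n (M y₁ - u₁) ≥ g p₂ - u₁`, `n (M y₂ - u₂) ≥ g p₃ - u₂` (all (2)). -/
def A3 : Prop := Reach → MeanS → VarC → ∀ (N : ℕ) (g M : ℕ → ℝ), IsMax N g M → ∀ i₀ p₁ y₁ p₂ y₂ p₃ : ℕ,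
  p₁ < y₁ → y₁ < p₂ → p₂ < y₂ → y₂ < p₃ → p₃ ≤ N → p₁ ≤ i₀ → i₀ ≤ N → g i₀ = 0 →
  ((N : ℝ) + 1) * (2 * (g p₁ - M y₁ + g p₂ - M y₂ + g p₃) - M 0 - M N) ≤ N * var g 0 N

/-- ROW ABU (easy-medium, 60 lines), uses `Reach`, `MeanS`, `VarC`, `Gain0`: bad peak, the zero is between `p₁` and
`p₃`.  `α`, `ω` minimum points of `g` on `[0, p₁]`, `[p₃, N]`, `W = 2 (g p₁ - g i₀ + g p₃) - g α - g ω ≤ var g 0 N`,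
`W - V = 2 (M y + M z' - M z) + (M 0 - g α) + (M N - g ω)`; `2n (M y + M z' - M z) ≥ S ≥ g p₁ + g p₃` (`Gain0`),
`n (M 0 - g α) ≥ g p₁ - g α` (`Reach` (2), `v = 0`), `n (M N - g ω) ≥ g p₃ - g ω` (`Reach` (5)).  Sum `= W`. -/
def ABu : Prop := Reach → MeanS → VarC → Gain0 → ∀ (N : ℕ) (g M : ℕ → ℝ), IsMax N g M →
  ∀ i₀ p₁ y z z' r p₃ : ℕ, Geo N g M y z z' r → p₁ < y → z' < p₃ → p₃ ≤ N → p₁ ≤ i₀ → i₀ ≤ p₃ → g i₀ = 0 →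
  ((N : ℝ) + 1) * (2 * (g p₁ - M y + M z - M z' + g p₃) - M 0 - M N) ≤ N * var g 0 N

/-- ROW AC (medium, 90 lines), uses `Reach`, `MeanS`, `VarC`, `GainP`, `XR`, `Gain1`, `Gain2`: bad peak, zero
`i₀ ≥ p₃`, `w` a minimum point of `g` on `[p₁, p₃]` and `g ≥ u = g w` on `C`.  `α` a minimum point on `[0, p₁]`,
`a = g α`, `W = 2 (g p₁ - u + g p₃) - a - 0 ≤ var g 0 N` (`ω = i₀`), `W - V = 2 (M y + M z' - M z - u) + (M 0 - a) + M N`;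
`u ≤ g y ≤ M y`, `u ≤ g z' ≤ M z'`, `u ≤ g z ≤ M z`; `M y + M z' - M z - u ≥ 0` (`GainP`); `n M N ≥ S ≥ g p₁ + g p₃`.
`a ≤ u`: `Reach` (3), `v = 0`: `n (M 0 - a) ≥ g p₁ + g p₃ - 2a`.  `u < a`: then `u ≤ g` on `[0, p₃]`;
`n (M 0 - a) ≥ g p₁ - a`, and `2n (M y + M z' - M z - u) ≥ g p₃ - 2u`: if `p₃ ≤ z + r` by `XR` and `Gain1`, if
`z + r < p₃` by `Gain2` (and `u ≥ 0`).  Sum `≥ W`. -/
def AC : Prop := Reach → MeanS → VarC → LastK → GapI → GainP → XR → Gain1 → Gain2 →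
  ∀ (N : ℕ) (g M : ℕ → ℝ), IsMax N g M → ∀ i₀ p₁ w y z z' r p₃ : ℕ, Geo N g M y z z' r →
  (∀ v, y ≤ v → v ≤ z → M v ≤ M z) → p₁ < y → z' < p₃ → p₃ ≤ N → p₃ ≤ i₀ → i₀ ≤ N → g i₀ = 0 →
  p₁ ≤ w → w ≤ p₃ → (∀ i, p₁ ≤ i → i ≤ p₃ → g w ≤ g i) →
  (∀ i, 2 * z' ≤ i + z + r → i + z ≤ 2 * y + r → g w ≤ g i) →
  ((N : ℝ) + 1) * (2 * (g p₁ - M y + M z - M z' + g p₃) - M 0 - M N) ≤ N * var g 0 N

/-- ROW AL (medium, 130 lines), uses `Reach`, `MeanS`, `VarC`, `FB`: bad peak, `i < c < p₁`, `g i > M z`, `c ∈ C` a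
minimum point of `g` on `C`, `g c ≤ M y, M z'`, zero `i₀ ≥ p₃`.  `α`, `w₁`, `w` minimum points of `g` on `[0, i]`,
`[i, p₁]`, `[p₁, p₃]`, values `a`, `v`, `u`; `v ≤ g c`, so `v ≤ M y, M z'`, `v ≤ g` on `C`; `u ≤ M y, M z'`.
`W = 2 (g i - v + g p₁ - u + g p₃) - a - 0 ≤ var g 0 N`,
`W - V = 2 (g i - M z) + 2 (M y - u) + 2 (M z' - v) + (M 0 - a) + M N`, `Σ = g i + g p₁ + g p₃`, `n M N ≥ S ≥ Σ`; needed: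
the rest `≥ Σ - 2u - 2v - a`.  `a ≤ u, v`: `Reach` (4) with `0`, `(i, p₁, p₃)`.
`v < a`, `v ≤ u`: `n (M z' - v) ≥ g p₁ - v` (`FB`; `p₁ ∈ C` because `c < p₁ < y`) and `n (M z' - v) ≥ g p₃ - v`
(`Reach` (2), `v ≤ g` on `[0, p₃]`), sum of the two; `n (M 0 - a) ≥ g i - a`.
Otherwise `u < v`, `u < a`: `n (M y - u) ≥ g p₃ - u` (`Reach` (2)); if `v < a`: `n (M z' - v) ≥ g p₁ - v` (`FB`) and
`n (M 0 - a) ≥ g i - a`; if `a ≤ v`: `n (M 0 - a) ≥ g i + g p₁ - 2a` (`Reach` (3)). -/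
def AL : Prop := Reach → MeanS → VarC → FB → ∀ (N : ℕ) (g M : ℕ → ℝ), IsMax N g M →
  ∀ i₀ i c p₁ y z z' r p₃ : ℕ, Geo N g M y z z' r → p₁ < y → z' < p₃ → p₃ ≤ N → p₃ ≤ i₀ → i₀ ≤ N → g i₀ = 0 →
  i < c → c < p₁ → M z < g i → 2 * z' ≤ c + z + r → c + z ≤ 2 * y + r → g c ≤ M y → g c ≤ M z' →
  (∀ i, 2 * z' ≤ i + z + r → i + z ≤ 2 * y + r → g c ≤ g i) →
  ((N : ℝ) + 1) * (2 * (g p₁ - M y + M z - M z' + g p₃) - M 0 - M N) ≤ N * var g 0 N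

/-- ROW AR (medium, 110 lines), uses `Reach`, `MeanS`, `VarC`: `p₃ < c < j ≤ N`, `g j > M z`, `g c ≤ M y, M z'`, zero
`i₀ ≥ p₃`.  `α`, `w`, `w₁` minimum points of `g` on `[0, p₁]`, `[p₁, p₃]`, `[p₃, j]`, values `a`, `u`, `v`; `u ≤ M y, M z'`
(`y, z' ∈ [p₁, p₃]`), `v ≤ g c ≤ M y, M z'`, `Σ = g p₁ + g p₃ + g j ≤ S`.
(i) `i₀ ≤ j`: take `w₁ = i₀`, `ω = N` (`v = 0`): `W = 2 (g p₁ - u + g p₃ - 0 + g j) - a - g N`,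
`W - V ≥ 2 (M y - 0) + 2 (M z' - u) + …`, `2 n M y ≥ 2 S ≥ 2Σ ≥ W`.
(ii) `j ≤ i₀`: `ω = i₀`, `W = 2 (Σ - u - v) - a`, `W - V = 2 (g j - M z) + 2 (M y + M z' - u - v) + (M 0 - a) + M N`,
`n M N ≥ Σ`; needed: the rest `≥ Σ - 2u - 2v - a`.  `a ≤ u, v`: `Reach` (4), `0`, `(p₁, p₃, j)`.  Otherwise `μ = min u v < a`,
`μ ≤ g` on `[0, j]`: `n (M z' - μ) ≥ g p₃ + g j - 2μ` (`Reach` (3), `v = z'`), `M y + M z' - u - v ≥ M z' - μ` (`M y ≥ u, v`),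
`n (M 0 - a) ≥ g p₁ - a`; total `≥ g p₁ + 2 g p₃ + 2 g j - 4μ - a ≥ Σ - 2u - 2v - a`. -/
def AR : Prop := Reach → MeanS → VarC → ∀ (N : ℕ) (g M : ℕ → ℝ), IsMax N g M →
  ∀ i₀ p₁ y z z' p₃ c j : ℕ, p₁ < y → y < z → z < z' → z' < p₃ → p₃ ≤ i₀ → i₀ ≤ N → g i₀ = 0 →
  p₃ < c → c < j → j ≤ N → M z < g j → g c ≤ M y → g c ≤ M z' →
  ((N : ℝ) + 1) * (2 * (g p₁ - M y + M z - M z' + g p₃) - M 0 - M N) ≤ N * var g 0 N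

end Pool.Agent.TMX
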