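import Pool.Agent.TMX.Stmts3

/-!
# Squad TMX, fourth list (MP_b61ad0_an): at most one detached local maximum

Target (assembly, helper83): the sharp inequality `(N+1) var M 0 N ≤ N var g 0 N` if `M` has AT MOST ONE detached
(bad) local maximum and any number of attached ones.  The gap of the bad peak may take its floor `g c` from another
gap; then the numbers `Q` of the two gaps are exchanged (chains with assigned numbers).
Notation of `Stmts2`: `B = [a, e]`, `a = z - r`, `e = z + r`, `l = 2r+1`, `C`, `T`, `T'`, `L`, `R`.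
-/

namespace Pool.Agent.TMX

open Finset
open Pool.Agent.Helper51_Max (I IsMax)
open Pool.Agent.Helper37_EM (var)

/-- the inequalities for the part `[p, p']` of a chain, with the number `Q` assigned to it -/
structure VG (N : ℕ) (g : ℕ → ℝ) (p p' : ℕ) (Q : ℝ) : Prop where
  i : ∀ u : ℝ, (∀ i, p ≤ i → i ≤ p' → u ≤ g i) → u ≤ Q
  ii : ∀ (u : ℝ) (q : ℕ), 0 ≤ u → p' ≤ q → q ≤ N → (∀ i, i ≤ q → u ≤ g i) →
    ∑ i ∈ Icc p' q, (g i - u) ≤ 2 * ((N : ℝ) + 1) * (Q - u) + u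
  ii' : ∀ (u : ℝ) (q : ℕ), 0 ≤ u → q ≤ p → (∀ i, q ≤ i → i ≤ N → u ≤ g i) →
    ∑ i ∈ Icc q p, (g i - u) ≤ 2 * ((N : ℝ) + 1) * (Q - u) + u
  iii : ∑ i ∈ range (N + 1), g i ≤ 2 * ((N : ℝ) + 1) * Q

/-- chains `p = p_0 < p_1 < … < p_k = q` with assigned numbers `Q_j`; the last argument is
`∑_j (g p_j + g p_{j+1} - 2 Q_j)` -/
inductive Ch (N : ℕ) (g : ℕ → ℝ) : ℕ → ℕ → ℝ → Prop
  | nil (p : ℕ) : Ch N g p p 0
  | cons (p p' q : ℕ) (Q T : ℝ) : p < p' → VG N g p p' Q → Ch N g p' q T →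
      Ch N g p q ((g p + g p' - 2 * Q) + T)

/-- ROW CHB (medium, 90 lines): basic facts, all by induction over the chain.  (3): `u = g w` with `w` a minimum
point of `g` on `[p, p']`: `g p + g p' - 2Q ≤ (g p - g w) + (g p' - g w) ≤ var g p p'` (`VG.i`, `abs_le_var`, `var_add`).
(4): if `w ≤ p'` (first gap), `s = p`, `t = p'`, `T₁ = 0`; otherwise induction. -/
def ChB : Prop := ∀ (N : ℕ) (g : ℕ → ℝ),
  (∀ p q s T₁ T₂, Ch N g p q T₁ → Ch N g q s T₂ → Ch N g p s (T₁ + T₂)) ∧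
  (∀ p q T, Ch N g p q T → p ≤ q) ∧
  (∀ p q T, Ch N g p q T → T ≤ var g p q) ∧
  (∀ p q T w, Ch N g p q T → p < w → w ≤ q → ∃ s t Q T₁ T₂, Ch N g p s T₁ ∧ s < w ∧ w ≤ t ∧
    VG N g s t Q ∧ Ch N g t q T₂ ∧ T = T₁ + (g s + g t - 2 * Q) + T₂) ∧
  (∀ p p' Q, p < p' → VG N g p p' Q → Ch N g p p' (g p + g p' - 2 * Q))

/-- ROW CHR (medium, 90 lines), uses `ChB`: reflection.  First `VG N g p p' Q → VG N g' (N-p') (N-p) Q` for
`p ≤ p' ≤ N`, `g' i = g (N - i)` (`ii` and `ii'` are exchanged, `q ↦ N - q`; `sum_range_reflect` for `iii`).  Then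
induction over the chain (`ChB` (1), (5)). -/
def ChR : Prop := ChB → ∀ (N : ℕ) (g : ℕ → ℝ) (p q : ℕ) (T : ℝ), q ≤ N → Ch N g p q T →
  Ch N (fun i => g (N - i)) (N - q) (N - p) T

/-- ROW CHD (medium-strong, 130 lines), uses `VB`, `Reach`, `ChB`: the proof of row `DInd`
(`Pool/Agent/Helper40_TMX/DInd.lean`) for chains.  Strong induction on `q`; `w` a minimum point of `g` on `[0, q]`,
`μ = g w ≥ 0`, `n = N + 1`.
CASE `w ≤ p`: `T ≤ var g p q` (`ChB` (3)), `n (M 0 - μ) ≥ ∑_{i ≤ q} (g i - μ)` (`Reach` (1), ball `I N 0 q`),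
`var g p q ≤ ∑_{[p,q)} (g-μ) + ∑_{(p,q]} (g-μ)` (`VB`), `var g 0 q ≥ (g p - μ) + var g p q`; so
`n ((g p - M 0) + T) ≤ n (g p - μ) - ∑_{i≤q} (g i - μ) + n var g p q ≤ N var g 0 q + ∑_{i<q} g i`.
CASE `p < w`: `ChB` (4) gives `s < w ≤ t`; induction hypothesis for the chain from `p` to `s` (`s < q`), `T₂ ≤ var g t q`,
`VG.ii` with `u = μ` and right end `q`; with `A = g s + g t - 2μ ≤ var g s t`, `B = var g t q`:
`n ((g s + g t - 2Q) + T₂) ≤ n A - 2n (Q - μ) + n B ≤ N (A + B) + A + B - ∑_{[t,q]} (g-μ) + μ ≤ N var g s q + ∑_{[s,q)} g`. -/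
def ChD : Prop := VB → Reach → ChB → ∀ (N : ℕ) (g M : ℕ → ℝ), IsMax N g M → ∀ (p q : ℕ) (T : ℝ),
  Ch N g p q T → q ≤ N → ((N : ℝ) + 1) * ((g p - M 0) + T) ≤ N * var g 0 q + ∑ i ∈ range q, g i

/-- ROW CHF (medium, 130 lines), uses `ChB`, `ChR`, `ChD`, `MeanS`, `Refl`, `Refl2` (variation and sums of the
reflected function).  `S = ∑_{range (N+1)} g`.
`q ≤ i₀`: `ChD`; `n M N ≥ S`; `var g 0 N ≥ var g 0 q + g q`; `∑_{i<q} g + g q ≤ S`.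
`i₀ ≤ p`: the mirror image: `ChR` and `ChD` for the reflected functions give
`n (T + (g q - M N)) ≤ N var g p N + ∑_{p<i≤N} g`; `n M 0 ≥ S`; `var g 0 N ≥ g p + var g p N`.
`p < i₀ < q`: `ChB` (4) with `w = i₀`: `s < i₀ ≤ t`; `ChD` for the chain from `p` to `s`, the mirror image for the chain from
`t` to `q`; `n (g s + g t - 2Q) ≤ n (g s + g t) - S` (`VG.iii`), `var g s t ≥ g s + g t`,
`∑_{i<s} g + g s + g t + ∑_{i>t} g ≤ S`. -/
def ChF : Prop := ChB → ChR → ChD → VB → Reach → MeanS → Refl → Refl2 → ∀ (N : ℕ) (g M : ℕ → ℝ),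
  IsMax N g M → ∀ i₀, i₀ ≤ N → g i₀ = 0 → ∀ (p q : ℕ) (T : ℝ), Ch N g p q T → q ≤ N →
  ((N : ℝ) + 1) * (g p + T + g q - M 0 - M N) ≤ N * var g 0 N

/-- ROW CHM (easy-medium, 60 lines), uses `ChB`.  Induction on `t - s`: `s = t`: `nil`; no good peak strictly between:
`(s, t)` is a gap, `g s + g t - 2 Qv = var M s t`; otherwise split at a good peak (`var_add`, `ChB` (1)). -/
def ChM : Prop := ChB → ∀ (N : ℕ) (g M : ℕ → ℝ), IsMax N g M → ∀ s t : ℕ, Pk N g M s → Pk N g M t → s ≤ t →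
  (∀ p p', Gap N g M p p' → s ≤ p → p' ≤ t → VG N g p p' (Qv g M p p')) → Ch N g s t (var M s t)

/-- ROW VPL (easy-medium, 80 lines), uses `Reach`, `MeanS`: `v ∈ [p, p']`, `M v ≤ Q`.  (i) `u ≤ g v ≤ M v ≤ Q`.
(ii) `u ≤ g v ≤ M v` (`v ≤ p' ≤ q`), the ball `I N v (q - v) = [max 0 (2v-q), q]` contains `[p', q]` and is contained in
`[0, q]`: `∑_{[p', q]} (g - u) ≤ ∑_{ball} (g - u) ≤ (N+1)(M v - u) ≤ 2(N+1)(Q - u)`.  (ii') the ball
`I N v (v - q) = [q, min (2v-q) N]`.  (iii) `S ≤ (N+1) M v`. -/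
def VPl : Prop := Reach → MeanS → ∀ (N : ℕ) (g M : ℕ → ℝ), IsMax N g M → ∀ (p p' v : ℕ) (Q : ℝ),
  p ≤ v → v ≤ p' → p' ≤ N → M v ≤ Q → VG N g p p' Q

/-- ROW XR3 (easy: copy of row `XR2`, file `Pool/Agent/Helper39_TMX/XR2.lean`): the hypothesis `z' ≤ p'` is replaced
by `2 z' ≤ p' + z + r` (i.e. `[p', q] ⊆ T'`), and `u ≤ g` on `[0, q] ∪ C`.  `c'` = the least index in `(q, e]` with
`g c' < u`; it is `≥ 2z' - e`, not in `C`, so `2y + r < c' + z`; the rest is the same.  (All terms of `∑_{T'}` left of `c'`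
are `≥ 0`.) -/
def XR3 : Prop := LastK → ∀ (N : ℕ) (g M : ℕ → ℝ), IsMax N g M → ∀ y z z' r : ℕ, Geo N g M y z z' r →
  (∀ v, y ≤ v → v ≤ z → M v ≤ M z) → ∀ (u : ℝ) (p' q : ℕ), 0 ≤ u → u ≤ M z → 2 * z' ≤ p' + z + r → p' ≤ q →
  q ≤ z + r → (∀ i, i ≤ q → u ≤ g i) → (∀ i, 2 * z' ≤ i + z + r → i + z ≤ 2 * y + r → u ≤ g i) →
  ∑ i ∈ Icc p' q, (g i - u) - u ≤ ∑ i ∈ Icc (2 * z' - (z + r)) (z + r), (g i - u)

/-- ROW GAIN1B (easy: copy of row `Gain1`, file `Pool/Agent/Helper25_TMX/Gain1.lean`): the hypothesis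
`∀ i ≤ y, u ≤ g i` is replaced by `u ≤ g i` for `i < z - r` (only the part left of the ball is used). -/
def Gain1b : Prop := GainP → GapI → ∀ (N : ℕ) (g M : ℕ → ℝ), IsMax N g M → ∀ (y z z' r : ℕ) (u : ℝ),
  Geo N g M y z z' r → (∀ i, i + r < z → u ≤ g i) →
  (∀ i, 2 * z' ≤ i + z + r → i + z ≤ 2 * y + r → u ≤ g i) → u ≤ M y → u ≤ M z' →
  ∑ i ∈ Icc (2 * z' - (z + r)) (z + r), (g i - u) ≤ 2 * ((N : ℝ) + 1) * (M y + M z' - M z - u)

/-- ROW GAIN3B (easy: copy of row `Gain3`, file `Pool/Agent/Helper50_TMX/Gain3.lean`): `z' ≤ p'` is replaced by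
`2 z' ≤ p' + z + r` (i.e. `[p', q] ⊆ [2z'-e, q]`). -/
def Gain3b : Prop := ∀ (N : ℕ) (g M : ℕ → ℝ), IsMax N g M → ∀ (y z z' r : ℕ) (u : ℝ) (p' q : ℕ),
  Geo N g M y z z' r → z + r < q → q ≤ N → (∀ i, i ≤ q → u ≤ g i) → 2 * z' ≤ p' + z + r → p' ≤ q →
  ∑ i ∈ Icc p' q, (g i - u) ≤ 2 * ((N : ℝ) + 1) * (M y + M z' - M z - u)

/-- the situation of rows `VBadL`, `VBad`: a bad peak `z` with valleys `y < z < y'`, `c` a minimum point of `g` on `C`,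
and a second pair of valleys `Y ≤ y`, `y' ≤ Y'` of the same ball, used for the part `[p, p'] ∋ c` of a chain -/
structure Sit (N : ℕ) (g M : ℕ → ℝ) (y z y' r c Y Y' p p' : ℕ) : Prop where
  geo : Geo N g M y z y' r
  top : ∀ v, y ≤ v → v ≤ y' → M v ≤ M z
  c1 : 2 * y' ≤ c + z + r
  c2 : c + z ≤ 2 * y + r
  cy : g c ≤ M y
  cy' : g c ≤ M y'
  cmin : ∀ i, 2 * y' ≤ i + z + r → i + z ≤ 2 * y + r → g c ≤ g i
  geo1 : Geo N g M Y z Y' r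
  hY : Y ≤ y
  hY' : y' ≤ Y'
  pc : p ≤ c
  cp : c ≤ p'
  pN : p' ≤ N
  Y1 : Y = y ∨ (p ≤ Y ∧ Y ≤ p')
  Y2 : Y' = y' ∨ (p ≤ Y' ∧ Y' ≤ p')

/-- ROW GEOR (easy-medium, 60 lines): reflection of the geometry (`i ↦ N - i`, `z' ≤ N`); `I N (N - z) r` is the image
of `I N z r` (both are full balls `[z-r, z+r]`; see also `Pool/Agent/Helper65_TMX/Refl.lean`). -/
def GeoR : Prop := ∀ (N : ℕ) (g M : ℕ → ℝ) (y z z' r : ℕ), Geo N g M y z z' r →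
  Geo N (fun i => g (N - i)) (fun i => M (N - i)) (N - z') (N - z) (N - y) r

/-- ROW VBADL (medium, 120 lines), uses `GapI`, `GainP`, `Gain0`, `LastK`, `XR3`, `Gain1b`, `Gain3b`.
`Q = M Y + M Y' - M z`.  The `i` with `2Y' ≤ i+z+r` and `i+z ≤ 2Y+r` are in `C` (of `y, y'`), so `g c ≤ g i`.
(i) `u ≤ g` on `[p, p']`: `u ≤ g c`; `u ≤ M Y`: if `Y = y` because `g c ≤ M y`, otherwise `u ≤ g Y ≤ M Y`; `u ≤ M Y'` in the
same way; `GainP` for `geo1`.  (iii) `Gain0` for `geo1`.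
(ii) `u ≤ g` on `[0, q]`, `q ≥ p' ≥ c`: again `u ≤ g c ≤ g` on `C`, `u ≤ M Y`, `u ≤ M Y'`, `u ≤ M y < M z`; the indices
`i < z - r` are `< c ≤ q` (`c ≥ 2y' - z - r > z - r`).  `2Y' ≤ p' + z + r`: if `Y' = y'` from `c1` and `c ≤ p'`, if `Y' ≤ p'`
from `Y' ≤ z + r` (`geo1`).  `Geo N g M y z Y' r` (from `geo` and `geo1`; `Y' ≤ Y + r ≤ y + r`).
`q ≤ z + r`: `XR3` for `(y, z, Y')` and `Gain1b` for `geo1`.  `z + r < q`: `Gain3b` for `geo1`, `u ≥ 0`. -/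
def VBadL : Prop := GapI → GainP → Gain0 → LastK → XR3 → Gain1b → Gain3b → ∀ (N : ℕ) (g M : ℕ → ℝ),
  IsMax N g M → ∀ y z y' r c Y Y' p p' : ℕ, Sit N g M y z y' r c Y Y' p p' →
  (∀ u : ℝ, (∀ i, p ≤ i → i ≤ p' → u ≤ g i) → u ≤ M Y + M Y' - M z) ∧
  (∀ (u : ℝ) (q : ℕ), 0 ≤ u → p' ≤ q → q ≤ N → (∀ i, i ≤ q → u ≤ g i) →
    ∑ i ∈ Icc p' q, (g i - u) ≤ 2 * ((N : ℝ) + 1) * (M Y + M Y' - M z - u) + u) ∧
  ∑ i ∈ range (N + 1), g i ≤ 2 * ((N : ℝ) + 1) * (M Y + M Y' - M z)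

/-- ROW VBAD (medium, 100 lines), uses `VBadL`, `Refl`, `GeoR`: the situation is invariant under the reflection
`y ↦ N - y'`, `z ↦ N - z`, `y' ↦ N - y`, `c ↦ N - c`, `Y ↦ N - Y'`, `Y' ↦ N - Y`, `p ↦ N - p'`, `p' ↦ N - p`
(`GeoR` for `geo`, `geo1`); (ii') for `g` is (ii) for the reflected function. -/
def VBad : Prop := VBadL → GeoR → Refl → GapI → GainP → Gain0 → LastK → XR3 → Gain1b → Gain3b →
  ∀ (N : ℕ) (g M : ℕ → ℝ), IsMax N g M → ∀ y z y' r c Y Y' p p' : ℕ, Sit N g M y z y' r c Y Y' p p' →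
  VG N g p p' (M Y + M Y' - M z)

/-- ROW NC (easy-medium, 70 lines): `y < z < v ≤ z + r`, `y + r < v`, `M y < M z`, `M v < M z`: `T = [a, 2y-a]` and
`[2v-e, e] = I N v (e - v)` are disjoint, `G` = what is between them; `∑_B g = l M z`, `∑_T g ≤ |T| M y < |T| M z`,
`∑_{[2v-e,e]} g ≤ |.| M v < |.| M z`, so `∑_G g > |G| M z` (`G` is not empty) and some `s' ∈ G` has `g s' > M z`. -/
def NC : Prop := ∀ (N : ℕ) (g M : ℕ → ℝ), IsMax N g M → ∀ y z v r : ℕ, y < z → z < v → r < z → z + r < N →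
  z ≤ y + r → v ≤ z + r → y + r < v → M z * ((I N z r).card : ℝ) = ∑ i ∈ I N z r, g i →
  M y < M z → M v < M z → ∃ s', 2 * y + r < s' + z ∧ s' + z + r < 2 * v ∧ M z < g s'

/-- ROW TRR (medium-strong, 180 lines), uses `ChB`, `ChM`, `VPl`, `VBad`, `NC`: transfer to the right.  `(s₀, t₀)` is
the only gap with a bad peak, `c > t₀`.  `Q₀ = M y + M y' - M z`, `var M s₀ t₀ = g s₀ + g t₀ - 2 Q₀`.  By `ChM` and `VPl`
there are chains with value `var M a b` between good peaks `a ≤ b` with `b ≤ s₀` or `t₀ ≤ a`.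
(end) `pl < c`: `c < j ≤ z + r < N`.  Chain: `pf … s₀`, `(s₀, t₀)` with `g j` (`VPl` with `v = z`, `M z ≤ g j`), `t₀ … pl`,
`(pl, j)` with `Q₀` (`VBad`, `Y = y`, `Y' = y'`, `p = pl`, `p' = j`).
(mid) `c ≤ pl`: `s` = the largest good peak `< c` (so `t₀ ≤ s`), `t` = the smallest good peak `≥ c`, `(s, t)` is a gap with
`Qv = M v`, `v ∈ [s, t]`.  (1) `M z ≤ M v`: `(s₀, t₀)` with `M v` (`VPl` with `z`), `(s, t)` with `Q₀` (`VBad`).
(2) `M v < M z`, `v ≤ z + r`, `v ≤ y + r`: `Geo N g M y z v r`; `(s₀, t₀)` with `M y'` (`VPl`), `(s, t)` with `M y + M v - M z`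
(`VBad`, `Y = y`, `Y' = v`).  (3) Otherwise there is `s'` with `c < s' < v` and `M z ≤ g s'`: `s' = j` if `z + r < v`, and
from `NC` if `v ≤ z + r`, `y + r < v`: `(s₀, t₀)` with `g s'`, `(s, s')` with `Q₀` (`VBad`), `(s', t)` with `M v` (`VPl`).
In all cases the sum `g pf + T + g (last)` is `g pf + var M pf pl + g pl = var M 0 N + M 0 + M N` (`M` monotone on
`[0, pf]` and `[pl, N]`: `VarS`). -/
def TrR : Prop := ChB → ChM → VarS → Reach → MeanS → VPl → VBad → NC → VBadL → GeoR → Refl → GapI → GainP → Gain0 →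
  LastK → XR3 → Gain1b → Gain3b → ∀ (N : ℕ) (g M : ℕ → ℝ), IsMax N g M →
  ∀ pf pl s₀ t₀ y z y' r c j : ℕ, Pk N g M pf → Pk N g M pl → Up M 0 pf → Dn M pl N →
  (∀ p, Pk N g M p → pf ≤ p ∧ p ≤ pl) → Gap N g M s₀ t₀ →
  (∀ p p', Gap N g M p p' → p ≠ s₀ → ∃ v, p ≤ v ∧ v ≤ p' ∧ Qv g M p p' = M v) →
  Geo N g M y z y' r → s₀ ≤ y → y' ≤ t₀ → (∀ v, y ≤ v → v ≤ y' → M v ≤ M z) →
  Qv g M s₀ t₀ = M y + M y' - M z → 2 * y' ≤ c + z + r → c + z ≤ 2 * y + r → g c ≤ M y → g c ≤ M y' →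
  (∀ i, 2 * y' ≤ i + z + r → i + z ≤ 2 * y + r → g c ≤ g i) → t₀ < c →
  j ≤ z + r → y' < j → 2 * y + r < j + z → M z < g j →
  ∃ q T, q ≤ N ∧ Ch N g pf q T ∧ g pf + T + g q = var M 0 N + M 0 + M N

/-- at most one detached local maximum: there are no two disjoint detached bumps -/
def OneDet (N : ℕ) (g M : ℕ → ℝ) : Prop := ∀ a b c a' b' c' : ℕ, a < b → b < c → c ≤ a' → a' < b' → b' < c' →
  c' ≤ N → M a < M b → M c < M b → M a' < M b' → M c' < M b' →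
  (∀ i, a ≤ i → i ≤ c → M i ≤ M b ∧ g i < M b) → (∀ i, a' ≤ i → i ≤ c' → M i ≤ M b' ∧ g i < M b') → False

/-- ROW ONEA (easy-medium, 60 lines), uses `BadP`: `OneDet` implies `HypA`: in a gap with
`M a < M b > M c < M d > M e` let `b'`, `d'` be maximum points of `M` on `[a, c]`, `[c, e]`; they are not at the ends, and
`BadP` gives `g < M b'` on `[a, c]` and `g < M d'` on `[c, e]`, against `OneDet` (with `a' = c`). -/
def OneA : Prop := BadP → ∀ (N : ℕ) (g M : ℕ → ℝ), IsMax N g M → OneDet N g M → HypA N g M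

end Pool.Agent.TMX
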