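import Pool.Agent.TMX.Stmts4

/-!
# Squad TMX, fifth list (MP_b61ad0_an): detached local maxima with disjoint balls, sharp constant

Target (assembly, helper53): `(N+1) var M 0 N ≤ N var g 0 N` whenever the detached local maxima of `M` have
pairwise disjoint optimal balls.  Chains with assigned numbers (`Stmts4`); every bad peak `z` whose point `c` is not
in its own gap gives its number `M y + M y' - M z` to the part of the chain that contains `c` (a transfer).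
`V(x) = M 0 + var M 0 x`.
-/

namespace Pool.Agent.TMX

open Finset
open Pool.Agent.Helper51_Max (I IsMax)
open Pool.Agent.Helper37_EM (var)

/-- row `VBad` without its hypotheses -/
def VBadR : Prop := ∀ (N : ℕ) (g M : ℕ → ℝ), IsMax N g M → ∀ y z y' r c Y Y' p p' : ℕ,
  Sit N g M y z y' r c Y Y' p p' → VG N g p p' (M Y + M Y' - M z)

/-- row `VPl` without its hypotheses -/
def VPlR : Prop := ∀ (N : ℕ) (g M : ℕ → ℝ), IsMax N g M → ∀ (p p' v : ℕ) (Q : ℝ),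
  p ≤ v → v ≤ p' → p' ≤ N → M v ≤ Q → VG N g p p' Q

/-- the data of a bad peak `z`: valleys `y < z < y'`, optimal radius `r`, minimum point `c` of `g` on `C`, hills `i`
(left of `C`) and `j` (right of `C`) inside the ball -/
structure BD (N : ℕ) (g M : ℕ → ℝ) (y z y' r c i j : ℕ) : Prop where
  geo : Geo N g M y z y' r
  top : ∀ v, y ≤ v → v ≤ y' → M v ≤ M z
  c1 : 2 * y' ≤ c + z + r
  c2 : c + z ≤ 2 * y + r
  cy : g c ≤ M y
  cy' : g c ≤ M y'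
  cmin : ∀ k, 2 * y' ≤ k + z + r → k + z ≤ 2 * y + r → g c ≤ g k
  i1 : z ≤ i + r
  i2 : i < y
  i3 : i + r + z < 2 * y'
  i4 : M z < g i
  j1 : j ≤ z + r
  j2 : y' < j
  j3 : 2 * y + r < j + z
  j4 : M z < g j

/-- ROW LR (medium, 90 lines; almost a copy of the case (mid) of `Pool/Agent/Helper89_TMX/TrR.lean`), transfer to the
right into the part `[p, p'] ∋ c, v` (`y' ≤ p`), `K = M y + M y' - M z`.
(1) `M z ≤ M v`: `Q' = M v`, `(p, p')` with `K` (`VBadR`, `Y = y`, `Y' = y'`).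
(2) `M v < M z`, `v ≤ z + r`, `v ≤ y + r`: `Geo N g M y z v r` (`z < y' ≤ p ≤ v`); `Q' = M y'`, `(p, p')` with
`M y + M v - M z` (`VBadR`, `Y = y`, `Y' = v`).
(3) otherwise there is `s'` with `c < s' < v`, `M z ≤ g s'`: `s' = j` if `z + r < v`, from `NC` if `v ≤ z + r`, `y + r < v`.
`Q' = g s'`, `(p, s')` with `K` (`VBadR`), `(s', p')` with `M v` (`VPlR`).  (`M y' < M z`.) -/
def LR : Prop := VBadR → VPlR → NC → ChB → ∀ (N : ℕ) (g M : ℕ → ℝ), IsMax N g M →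
  ∀ y z y' r c i j p p' v : ℕ, BD N g M y z y' r c i j → y' ≤ p → p ≤ c → c ≤ p' → p < p' → p' ≤ N → p ≤ v →
  v ≤ p' → ∃ Q' T, M y' ≤ Q' ∧ Ch N g p p' T ∧ T = g p + g p' - 2 * M v + 2 * (Q' - (M y + M y' - M z))

/-- ROW LL (medium, 90 lines), mirror image of `LR`: transfer to the left (`p' ≤ y`).
(1) `M z ≤ M v`: `Q' = M v`, `(p, p')` with `K`.
(2) `M v < M z`, `z ≤ v + r`, `y' ≤ v + r`: `Geo N g M v z y' r`; `Q' = M y`, `(p, p')` with `M v + M y' - M z` (`VBadR`,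
`Y = v`, `Y' = y'`).
(3) otherwise there is `s'` with `v < s' < c`, `M z ≤ g s'`: `s' = i` if `v + r < z`, and if `z ≤ v + r`, `v + r < y'` from `NC`
applied to `(v, z, y')` in the place of `(y, z, v)` (`2v + r < s' + z` and `s' + z + r < 2y'`).  `Q' = g s'`, `(p, s')` with
`M v` (`VPlR`), `(s', p')` with `K` (`VBadR`). -/
def LL : Prop := VBadR → VPlR → NC → ChB → ∀ (N : ℕ) (g M : ℕ → ℝ), IsMax N g M →
  ∀ y z y' r c i j p p' v : ℕ, BD N g M y z y' r c i j → p' ≤ y → p ≤ c → c ≤ p' → p < p' → p ≤ v →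
  v ≤ p' → ∃ Q' T, M y ≤ Q' ∧ Ch N g p p' T ∧ T = g p + g p' - 2 * M v + 2 * (Q' - (M y + M y' - M z))

/-- ROW DB (medium, 80 lines), two transfers into the same part, from `z₁` (left) and from `z₂` (right).
`p ≤ c₁ < j₁ ≤ z₁ + r₁ < z₂ - r₂ ≤ i₂ < c₂ ≤ p'` (`j3`, `c2`, `i3`, `c1`).
`v ≤ i₂`: `LR` for `(p, i₂)` and `v`, `(i₂, p')` with `K₂` (`VBadR`), `Q₂ = g i₂`.
`i₂ < v`: `(p, j₁)` with `K₁` (`VBadR`), `Q₁ = g j₁`, `LL` for `(j₁, p')` and `v`. -/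
def DB : Prop := LR → LL → VBadR → VPlR → NC → ChB → ∀ (N : ℕ) (g M : ℕ → ℝ), IsMax N g M →
  ∀ y₁ z₁ y₁' r₁ c₁ i₁ j₁ y₂ z₂ y₂' r₂ c₂ i₂ j₂ p p' v : ℕ, BD N g M y₁ z₁ y₁' r₁ c₁ i₁ j₁ →
  BD N g M y₂ z₂ y₂' r₂ c₂ i₂ j₂ → z₁ + r₁ + r₂ < z₂ → y₁' ≤ p → p ≤ c₁ → p' ≤ y₂ → c₂ ≤ p' → p ≤ v → v ≤ p' →
  ∃ Q₁ Q₂ T, M y₁' ≤ Q₁ ∧ M y₂ ≤ Q₂ ∧ Ch N g p p' T ∧ T = g p + g p' - 2 * M v +
    2 * (Q₁ - (M y₁ + M y₁' - M z₁)) + 2 * (Q₂ - (M y₂ + M y₂' - M z₂))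

/-- all bad gaps, indexed by their left end `s`, with disjoint balls -/
structure Fam (N : ℕ) (g M : ℕ → ℝ) (Bad : ℕ → Prop) (y z y' r c i j : ℕ → ℕ) : Prop where
  max : IsMax N g M
  plain : ∀ s t, Gap N g M s t → ¬ Bad s → ∃ v, s ≤ v ∧ v ≤ t ∧ Qv g M s t = M v
  bd : ∀ s t, Gap N g M s t → Bad s → BD N g M (y s) (z s) (y' s) (r s) (c s) (i s) (j s)
  lo : ∀ s t, Gap N g M s t → Bad s → s ≤ y s
  hi : ∀ s t, Gap N g M s t → Bad s → y' s ≤ t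
  Q : ∀ s t, Gap N g M s t → Bad s → Qv g M s t = M (y s) + M (y' s) - M (z s)
  dis : ∀ s t s₁ t₁, Gap N g M s t → Gap N g M s₁ t₁ → Bad s → Bad s₁ → s < s₁ → z s + r s + r s₁ < z s₁

/-- the bad gap `(s, t)` is left of `x`, its point `c` is right of `x` -/
def CrR (N : ℕ) (g M : ℕ → ℝ) (Bad : ℕ → Prop) (c : ℕ → ℕ) (x s t : ℕ) : Prop :=
  Gap N g M s t ∧ Bad s ∧ t ≤ x ∧ x < c s

/-- the bad gap `(s, t)` is right of `x`, its point `c` is left of `x` -/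
def CrL (N : ℕ) (g M : ℕ → ℝ) (Bad : ℕ → Prop) (c : ℕ → ℕ) (x s t : ℕ) : Prop :=
  Gap N g M s t ∧ Bad s ∧ x ≤ s ∧ c s < x

/-- the state at the good peak `x` -/
structure Sta (N : ℕ) (g M : ℕ → ℝ) (Bad : ℕ → Prop) (y z y' c : ℕ → ℕ) (x : ℕ) : Prop where
  A : (∀ s t, ¬ CrR N g M Bad c x s t) → (∀ s t, ¬ CrL N g M Bad c x s t) →
    ∃ p T, Ch N g p x T ∧ M 0 + var M 0 x ≤ g p + T
  B : ∀ s t, CrR N g M Bad c x s t → ∀ Q' : ℝ, M (y' s) ≤ Q' → ∃ p T, Ch N g p x T ∧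
    M 0 + var M 0 x - 2 * (Q' - (M (y s) + M (y' s) - M (z s))) ≤ g p + T
  C : ∀ s t, CrL N g M Bad c x s t → ∃ Q' p T, M (y s) ≤ Q' ∧ Ch N g p x T ∧
    M 0 + var M 0 x + 2 * (Q' - (M (y s) + M (y' s) - M (z s))) ≤ g p + T

/-- ROW ORD (easy, 40 lines): order facts.  (1) a gap `(s₁, t₁)` with `t₁ ≤ t` (`(s, t)` a gap) has `t₁ ≤ s` or
`s₁ = s`, `t₁ = t` (`Gap.none`, `left`, `right`); (2) a gap `(s₁, t₁)` with `s ≤ s₁` has `s₁ = s` or `t ≤ s₁`.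
(3) bad gap: `z s < c s + r s` and `c s < z s + r s`, `z s ≤ y s + r s`, `s < z s`, `z s < t` (from `geo`, `c1`, `c2`,
`lo`, `hi`, linear arithmetic).  (4) two bad gaps `s < s₁`: `c s < z s + r s` and `z s + r s < c s₁`, `z s + r s < y s₁`, `c s < c s₁`
(with `dis`). -/
def Ord : Prop := ∀ (N : ℕ) (g M : ℕ → ℝ) (Bad : ℕ → Prop) (y z y' r c i j : ℕ → ℕ),
  Fam N g M Bad y z y' r c i j → ∀ s t : ℕ, Gap N g M s t →
  (∀ s₁ t₁, Gap N g M s₁ t₁ → t₁ ≤ t → t₁ ≤ s ∨ (s₁ = s ∧ t₁ = t)) ∧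
  (∀ s₁ t₁, Gap N g M s₁ t₁ → s ≤ s₁ → s₁ = s ∨ t ≤ s₁) ∧
  (Bad s → z s < c s + r s ∧ c s < z s + r s ∧ z s ≤ y s + r s ∧ s < z s ∧ z s < t) ∧
  (∀ s₁ t₁, Gap N g M s₁ t₁ → Bad s → Bad s₁ → s < s₁ →
    z s + r s < c s₁ ∧ z s + r s < y s₁ ∧ c s < c s₁)

/-- ROW LP (medium, 100 lines), uses `VBadR`, `ChB`, `Ord`: the left side of a bad gap `(s, t)`.
First part (`s ≤ c s`): `CrL` at `s` is impossible (`s₂ = s`: `c s < s`; otherwise `t ≤ s₂`, `c s₂ > z s + r s > s` by `Ord` (4)).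
If there is no `CrR` at `s`: `Sta.A`, `x = s`.  If `CrR … s s₁ t₁`: `Sta.B` with `Q' = g (j s₁) ≥ M (z s₁) ≥ M (y' s₁)`, then the
part `(s, j s₁)` with `K₁ = M (y s₁) + M (y' s₁) - M (z s₁)` (`VBadR`, `Y = y s₁`, `Y' = y' s₁`, `c s₁ ∈ (s, j s₁)`), `x = j s₁`:
`x ≤ z s₁ + r s₁ < y s, c s` (`Ord` (4)); the value is `V(s) - 2 (g x - K₁) + (g s + g x - 2 K₁) = V(s) + g s - g x`.
Second part: `CrL … s s t`, `Sta.C`. -/
def LP : Prop := VBadR → ChB → Ord → ∀ (N : ℕ) (g M : ℕ → ℝ) (Bad : ℕ → Prop) (y z y' r c i j : ℕ → ℕ),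
  Fam N g M Bad y z y' r c i j → ∀ s t : ℕ, Gap N g M s t → Bad s → Sta N g M Bad y z y' c s →
  (s ≤ c s → ∃ x p T, s ≤ x ∧ x ≤ y s ∧ x ≤ c s ∧ Ch N g p x T ∧ M 0 + var M 0 s + g s - g x ≤ g p + T) ∧
  (c s < s → ∃ Q' p T, M (y s) ≤ Q' ∧ Ch N g p s T ∧
    M 0 + var M 0 s + 2 * (Q' - (M (y s) + M (y' s) - M (z s))) ≤ g p + T)

/-- ROW SB (medium, 90 lines), uses `VPlR`, `ChB`, `Ord`, `LP`: part `B` of the state at `t`.
`V(t) = V(s) + var M s t` (`var_add`), `var M s t = g s + g t - 2 Qv g M s t`.  By `Ord` (1) there are two cases.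
`t₁ ≤ s`: then `CrR … s s₁ t₁`, `Sta.B`; `s` is not bad (otherwise `c s₁ < z s₁ + r s₁ < y s < t` by `Ord` (3), (4)), so
`Fam.plain` gives `v`, and the part `(s, t)` gets `M v` (`VPlR`).
`s₁ = s`, `t₁ = t`: `Bad s`, `s < t < c s`: `LP` (first part) gives `x ≤ y s < y' s ≤ t`; the part `(x, t)` gets `Q'` (`VPlR`
with `y' s ∈ [x, t]`): `V(s) + g s - g x + (g x + g t - 2 Q') = V(t) - 2 (Q' - K)`. -/
def SB : Prop := VPlR → VBadR → ChB → Ord → LP → ∀ (N : ℕ) (g M : ℕ → ℝ) (Bad : ℕ → Prop) (y z y' r c i j : ℕ → ℕ),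
  Fam N g M Bad y z y' r c i j → ∀ s t : ℕ, Gap N g M s t → Sta N g M Bad y z y' c s →
  ∀ s₁ t₁, CrR N g M Bad c t s₁ t₁ → ∀ Q' : ℝ, M (y' s₁) ≤ Q' → ∃ p T, Ch N g p t T ∧
    M 0 + var M 0 t - 2 * (Q' - (M (y s₁) + M (y' s₁) - M (z s₁))) ≤ g p + T

/-- ROW SC (medium-strong, 150 lines), uses `VPlR`, `VBadR`, `ChB`, `Ord`, `LP`, `LL`, `DB`: part `C` of the state at `t`.
`K₂ = M (y s₂) + M (y' s₂) - M (z s₂)`, `t ≤ s₂`, `c s₂ < t`.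
CASE `c s₂ < s`: `CrL … s s₂ t₂`, `Sta.C`; `s` is not bad (otherwise `s < z s + r s < c s₂`), the part `(s, t)` gets `M v` (`VPlR`).
CASE `s ≤ c s₂`, `s` not bad: `Fam.plain` gives `v`.  (a) `CrR … s s₁ t₁`: `DB` for `s₁`, `s₂` and `(s, t)` (`y' s₁ ≤ t₁ ≤ s`, `t ≤ s₂ ≤
y s₂`, `dis`) gives `Q₁, Q₂, T`; `Sta.B` with `Q₁`.  (b) `CrL … s s₃ t₃` is impossible: `s₃ ≠ s`, so `t ≤ s₃`; `s₃ = s₂` contradicts
`s ≤ c s₂`; `s₃ < s₂`: `c s₂ > z s₃ > t`; `s₂ < s₃`: `c s₃ > z s₂ > t` (`Ord` (3), (4)).  (c) no crossing at `s`: `Sta.A` and `LL`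
for `s₂` and `(s, t)`.
CASE `s ≤ c s₂`, `Bad s`: `z s + r s < z s₂ - r s₂ ≤ i s₂ < c s₂ < t`.  If `s ≤ c s`: `LP` gives `x`; the part `(x, i s₂)` gets the
number of `s` (`VBadR`, `c s ∈ [x, i s₂]`), the part `(i s₂, t)` gets `K₂` (`VBadR`), `Q' = g (i s₂)`.  If `c s < s`: `LP` (second
part) gives `Q''`; `(s, i s₂)` gets `Q''` (`VPlR` with `y s`), `(i s₂, t)` gets `K₂`, `Q' = g (i s₂)`. -/
def SC : Prop := VPlR → VBadR → NC → ChB → Ord → LP → LR → LL → DB → ∀ (N : ℕ) (g M : ℕ → ℝ) (Bad : ℕ → Prop)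
  (y z y' r c i j : ℕ → ℕ), Fam N g M Bad y z y' r c i j → ∀ s t : ℕ, Gap N g M s t →
  Sta N g M Bad y z y' c s → ∀ s₂ t₂, CrL N g M Bad c t s₂ t₂ → ∃ Q' p T, M (y s₂) ≤ Q' ∧ Ch N g p t T ∧
    M 0 + var M 0 t + 2 * (Q' - (M (y s₂) + M (y' s₂) - M (z s₂))) ≤ g p + T

/-- ROW SA (medium, 110 lines), uses `VPlR`, `VBadR`, `ChB`, `Ord`, `LP`, `LR`: part `A` of the state at `t` (no crossing
at `t`).  CASE `s` not bad, `v` from `Fam.plain`.  (a) `CrR … s s₁ t₁`: `c s₁ ≤ t` (otherwise it crosses `t`), `LR` for `(s, t)`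
gives `Q'`, `Sta.B` with `Q'`.  (b) `CrL … s s₂ t₂`: `s₂ ≠ s` (not bad), so `t ≤ s₂` and it crosses `t`, impossible.  (c) no
crossing: `Sta.A`, the part `(s, t)` gets `M v` (`VPlR`).
CASE `Bad s`: `c s ≤ t` (otherwise `CrR … t s t`).  If `s ≤ c s`: `LP` gives `x`, the part `(x, t)` gets the number of `s`
(`VBadR`, `c s ∈ [x, t]`).  If `c s < s`: `LP` (second part), the part `(s, t)` gets `Q'` (`VPlR` with `y s`). -/
def SA : Prop := VPlR → VBadR → NC → ChB → Ord → LP → LR → ∀ (N : ℕ) (g M : ℕ → ℝ) (Bad : ℕ → Prop)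
  (y z y' r c i j : ℕ → ℕ), Fam N g M Bad y z y' r c i j → ∀ s t : ℕ, Gap N g M s t →
  Sta N g M Bad y z y' c s → (∀ s₁ t₁, ¬ CrR N g M Bad c t s₁ t₁) → (∀ s₂ t₂, ¬ CrL N g M Bad c t s₂ t₂) →
  ∃ p T, Ch N g p t T ∧ M 0 + var M 0 t ≤ g p + T

/-- ROW INF (easy-medium, 90 lines), uses `VBadR`, `ChB`, `VarS`, `Ord`: first and last good peak.
(1) the state at `pf`: `g pf = M pf = M 0 + var M 0 pf` (`VarS`).  `A`: `p = pf`, `T = 0`.  `B`: impossible (a gap left of `pf`).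
`C`: `CrL … pf s t`: `p = i s`, the part `(i s, pf)` with `K` (`VBadR`, `c s ∈ (i s, pf)`), `Q' = g (i s)`.
(2) from the state at `pl`: no `CrL`; if `CrR … pl s t`: `Sta.B` with `Q' = g (j s)`, the part `(pl, j s)` with `K`, `q = j s`;
otherwise `Sta.A`, `q = pl`.  `var M 0 N = var M 0 pl + (M pl - M N)`, `M pl = g pl`. -/
def InF : Prop := VBadR → ChB → VarS → Ord → ∀ (N : ℕ) (g M : ℕ → ℝ) (Bad : ℕ → Prop)
  (y z y' r c i j : ℕ → ℕ), Fam N g M Bad y z y' r c i j → ∀ pf pl : ℕ, Pk N g M pf → Pk N g M pl →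
  (∀ p, Pk N g M p → pf ≤ p ∧ p ≤ pl) → Up M 0 pf → Dn M pl N →
  Sta N g M Bad y z y' c pf ∧
  (Sta N g M Bad y z y' c pl → ∃ p q T, q ≤ N ∧ Ch N g p q T ∧ var M 0 N + M 0 + M N ≤ g p + T + g q)

/-- ROW IND (easy, 50 lines): the state at every good peak `x` by strong induction: `x = pf`, or the largest good peak
`s < x` (`Nat.findGreatest`, see `Pool/Agent/Helper89_TMX/TrR.lean`) gives the gap `(s, x)`. -/
def IndP : Prop := ∀ (N : ℕ) (g M : ℕ → ℝ) (P : ℕ → Prop) (pf : ℕ), Pk N g M pf →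
  (∀ p, Pk N g M p → pf ≤ p) → P pf → (∀ s t, Gap N g M s t → P s → P t) → ∀ x, Pk N g M x → P x

/-- detached local maximum plateau `{p, …, q}` -/
def Dt (N : ℕ) (g M : ℕ → ℝ) (p q : ℕ) : Prop :=
  p ≤ q ∧ q ≤ N ∧ (∀ x, p ≤ x → x ≤ q → M x = M q ∧ g x < M q) ∧
    (∀ s, s + 1 = p → M s < M q) ∧ (q < N → M (q + 1) < M q)

/-- ROW HAD (easy-medium, 90 lines), uses `Tan`, `GapB`, `BadP`: disjoint balls imply `HypA`.  In a gap let
`M a < M b > M c < M d > M e`.  `b'` = the LAST maximum point of `M` on `[a, c]` (`a < b' < c`), the plateau `[a', b']`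
(`a'` = the smallest `x ≥ a` with `M = M b'` on `[x, b']`, `a < a'`); `BadP` for `(a, b', c)`: `g < M b'` on `[a, c]`.  So
`Dt N g M a' b'`.  In the same way `d'` on `[c, e]`.  `GapB` for `(a, b', c, R b')` and `(c, d', e, R d')` gives
`Geo N g M a b' c (R b')`, so `c ≤ b' + R b'`, and `Geo N g M c d' e (R d')`, so `d' ≤ c + R d'`.  Hence `c` is in both balls. -/
def HAd : Prop := Tan → GapB → BadP → ∀ (N : ℕ) (g M : ℕ → ℝ) (R : ℕ → ℕ), IsMax N g M →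
  (∀ p q, Dt N g M p q → M q * ((I N q (R q)).card : ℝ) = ∑ i ∈ I N q (R q), g i) →
  (∀ p q p' q', Dt N g M p q → Dt N g M p' q' → q < q' → Disjoint (I N q (R q)) (I N q' (R q'))) →
  HypA N g M

/-- ROW BGX (easy-medium, 90 lines), uses `Tan`, `GapB`, `BadP`, `CMin`: the bad peak is replaced by the right end `q` of
its plateau.  `q` = the largest point of `[z, y']` with `M q = M z` (`M` is nonincreasing there, `M y' < M z`), `p` = the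
smallest point of `[y, z]` with `M p = M z`; `BadP` for `(y, q, y')`: `g < M q` on `[y, y']`; so `Dt N g M p q`.  `GapB` for
`(y, q, y', R q)` gives `geo` and the hills `i`, `j`; `CMin` gives `c`. -/
def BGx : Prop := Tan → GapB → BadP → CMin → ∀ (N : ℕ) (g M : ℕ → ℝ) (R : ℕ → ℕ), IsMax N g M →
  (∀ p q, Dt N g M p q → M q * ((I N q (R q)).card : ℝ) = ∑ i ∈ I N q (R q), g i) →
  ∀ s t y z y' r : ℕ, Gap N g M s t → Geo N g M y z y' r → s ≤ y → y' ≤ t → Up M y z → Dn M z y' →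
  ∃ p q c i j, M q = M z ∧ Dt N g M p q ∧ BD N g M y q y' (R q) c i j

end Pool.Agent.TMX
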